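import Mathlib

/-!
# Bessel's inequality on a cube
-/

set_option autoImplicit false
set_option linter.unusedSectionVars false

open MeasureTheory Complex
open scoped Real

namespace Pool.Agent.J6H91.Tor

variable {τ : Type} [Fintype τ]

/-- the point of the torus with angles `2 π x_j` -/
noncomputable def zt (x : τ → ℝ) (j : τ) : ℂ := exp (2 * π * I * (x j : ℂ))

/-- the character `x ↦ ∏ zt x j ^ k j` -/
noncomputable def ex (k : τ →₀ ℕ) (x : τ → ℝ) : ℂ := ∏ j, zt x j ^ k j

/-- the cube with corner `c` -/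
def cube (c : τ → ℝ) : Set (τ → ℝ) := Set.pi Set.univ fun j => Set.Ioc (c j) (c j + 1)

theorem norm_zt (x : τ → ℝ) (j : τ) : ‖zt x j‖ = 1 := by
  unfold zt
  have : (2 * π * I * (x j : ℂ)) = ((2 * π * x j : ℝ) : ℂ) * I := by push_cast; ring
  rw [this, norm_exp_ofReal_mul_I]

theorem norm_ex (k : τ →₀ ℕ) (x : τ → ℝ) : ‖ex k x‖ = 1 := by
  unfold ex
  rw [norm_prod]
  exact Finset.prod_eq_one fun j _ => by rw [norm_pow, norm_zt, one_pow]

theorem continuous_zt (j : τ) : Continuous fun x : τ → ℝ => zt x j := by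
  unfold zt
  fun_prop

theorem continuous_ex (k : τ →₀ ℕ) : Continuous (ex k : (τ → ℝ) → ℂ) := by
  unfold ex
  exact continuous_finsetProd _ fun j _ => (continuous_zt j).pow _

theorem ex_add (k l : τ →₀ ℕ) (x : τ → ℝ) : ex (k + l) x = ex k x * ex l x := by
  unfold ex
  rw [← Finset.prod_mul_distrib]
  exact Finset.prod_congr rfl fun j _ => by rw [Finsupp.add_apply, pow_add]

theorem volume_cube (c : τ → ℝ) : volume (cube c) = 1 := by
  unfold cube
  rw [volume_pi_pi]
  simp

theorem measurableSet_cube (c : τ → ℝ) : MeasurableSet (cube c) :=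
  MeasurableSet.univ_pi fun _ => measurableSet_Ioc

theorem integral_exp_unit (c : ℝ) (n : ℤ) :
    ∫ x in Set.Ioc c (c + 1), exp (2 * π * I * n * (x : ℂ)) = if n = 0 then 1 else 0 := by
  split_ifs with h
  · rw [h]
    simp
  · rw [← intervalIntegral.integral_of_le (by linarith)]
    have h0 : (2 * π * I * n : ℂ) ≠ 0 := by
      have : (n : ℂ) ≠ 0 := by exact_mod_cast h
      simp [this, Real.pi_ne_zero, I_ne_zero]
    rw [integral_exp_mul_complex h0]
    have h1 : exp (2 * π * I * n * ((c + 1 : ℝ) : ℂ)) = exp (2 * π * I * n * (c : ℂ)) := by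
      have : (2 * π * I * n * ((c + 1 : ℝ) : ℂ)) = 2 * π * I * n * (c : ℂ) + n * (2 * π * I) := by
        push_cast
        ring
      rw [this, exp_add, exp_int_mul_two_pi_mul_I, mul_one]
    rw [h1, sub_self, zero_div]

theorem integral_ex_mul_conj (c : τ → ℝ) (k l : τ →₀ ℕ) :
    ∫ x in cube c, ex k x * (starRingEnd ℂ) (ex l x) = if k = l then 1 else 0 := by
  unfold cube
  rw [volume_pi, Measure.restrict_pi_pi]
  have h1 : ∀ x : τ → ℝ, ex k x * (starRingEnd ℂ) (ex l x) =
      ∏ j, exp (2 * π * I * ((k j : ℤ) - (l j : ℤ) : ℤ) * (x j : ℂ)) := by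
    intro x
    unfold ex
    rw [map_prod, ← Finset.prod_mul_distrib]
    refine Finset.prod_congr rfl fun j _ => ?_
    unfold zt
    rw [map_pow, ← exp_conj, ← exp_nat_mul, ← exp_nat_mul, ← exp_add]
    congr 1
    simp only [map_mul, conj_I, conj_ofReal, map_ofNat]
    push_cast
    ring
  simp only [h1]
  rw [integral_fintype_prod_eq_prod
    (f := fun j (x : ℝ) => exp (2 * π * I * ((k j : ℤ) - (l j : ℤ) : ℤ) * (x : ℂ)))]
  simp only [integral_exp_unit]
  split_ifs with h
  · rw [h]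
    simp
  · obtain ⟨j, hj⟩ := Finsupp.ne_iff.mp h
    refine Finset.prod_eq_zero (Finset.mem_univ j) ?_
    rw [if_neg]
    intro h0
    apply hj
    omega

/-- **Bessel's inequality.** -/
theorem bessel (c : τ → ℝ) {f : (τ → ℝ) → ℂ} (hf : Continuous f) (hc : HasCompactSupport f)
    (T : Finset (τ →₀ ℕ)) :
    ∑ k ∈ T, ‖∫ x in cube c, f x * ex k x‖ ^ 2 ≤ ∫ x in cube c, ‖f x‖ ^ 2 := by
  set a : (τ →₀ ℕ) → ℂ := fun k => ∫ x in cube c, f x * ex k x with ha
  set p : (τ → ℝ) → ℂ := fun x => ∑ k ∈ T, (starRingEnd ℂ) (a k) * ex k x with hp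
  have hfin : IsFiniteMeasure (volume.restrict (cube c)) :=
    ⟨by rw [Measure.restrict_apply_univ, volume_cube]; exact ENNReal.one_lt_top⟩
  have hpc : Continuous p := by
    rw [hp]
    exact continuous_finsetSum _ fun k _ => continuous_const.mul (continuous_ex k)
  obtain ⟨B, hB⟩ := hc.exists_bound_of_continuous hf
  have hpB : ∀ x, ‖p x‖ ≤ ∑ k ∈ T, ‖a k‖ := by
    intro x
    refine (norm_sum_le _ _).trans (Finset.sum_le_sum fun k _ => ?_)
    rw [norm_mul, norm_ex, mul_one, RCLike.norm_conj]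
  have hint : ∀ {g : (τ → ℝ) → ℂ}, Continuous g → (∃ C, ∀ x, ‖g x‖ ≤ C) →
      Integrable g (volume.restrict (cube c)) := by
    rintro g hg ⟨C, hC⟩
    exact Integrable.of_bound hg.aestronglyMeasurable C (ae_of_all _ hC)
  have hintR : ∀ {g : (τ → ℝ) → ℝ}, Continuous g → (∃ C, ∀ x, ‖g x‖ ≤ C) →
      Integrable g (volume.restrict (cube c)) := by
    rintro g hg ⟨C, hC⟩
    exact Integrable.of_bound hg.aestronglyMeasurable C (ae_of_all _ hC)
  have hB0 : 0 ≤ B := (norm_nonneg _).trans (hB 0)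
  -- the square of `p`
  have hp2 : ∫ x in cube c, ‖p x‖ ^ 2 = ∑ k ∈ T, ‖a k‖ ^ 2 := by
    have h1 : ∫ x in cube c, ((‖p x‖ ^ 2 : ℝ) : ℂ) = ∑ k ∈ T, ((‖a k‖ ^ 2 : ℝ) : ℂ) := by
      have h2 : ∀ x, ((‖p x‖ ^ 2 : ℝ) : ℂ) = ∑ k ∈ T, ∑ l ∈ T,
          (starRingEnd ℂ) (a k) * a l * (ex k x * (starRingEnd ℂ) (ex l x)) := by
        intro x
        have h3 : ((‖p x‖ ^ 2 : ℝ) : ℂ) = p x * (starRingEnd ℂ) (p x) := by
          rw [mul_conj, normSq_eq_norm_sq]
        rw [h3, hp]
        simp only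
        rw [map_sum, Finset.sum_mul_sum]
        refine Finset.sum_congr rfl fun k _ => Finset.sum_congr rfl fun l _ => ?_
        rw [map_mul, conj_conj]
        ring
      simp only [h2]
      have hI : ∀ k l : τ →₀ ℕ, Integrable (fun x => (starRingEnd ℂ) (a k) * a l *
          (ex k x * (starRingEnd ℂ) (ex l x))) (volume.restrict (cube c)) := by
        intro k l
        refine hint (by
          have := continuous_ex (τ := τ) k
          have h4 := continuous_ex (τ := τ) l
          fun_prop) ⟨‖(starRingEnd ℂ) (a k) * a l‖, fun x => ?_⟩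
        rw [norm_mul _ (ex k x * _), norm_mul (ex k x), RCLike.norm_conj, norm_ex, norm_ex, mul_one,
          mul_one]
      rw [integral_finsetSum _ fun k _ => integrable_finsetSum _ fun l _ => hI k l]
      refine Finset.sum_congr rfl fun k hk => ?_
      rw [integral_finsetSum _ fun l _ => hI k l]
      have h5 : ∀ l ∈ T, ∫ x in cube c, (starRingEnd ℂ) (a k) * a l *
          (ex k x * (starRingEnd ℂ) (ex l x)) = if k = l then (starRingEnd ℂ) (a k) * a l else 0 := by
        intro l _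
        rw [integral_const_mul, integral_ex_mul_conj]
        split_ifs <;> simp
      rw [Finset.sum_congr rfl h5, Finset.sum_ite_eq, if_pos hk, mul_comm, mul_conj,
        normSq_eq_norm_sq]
    rw [integral_complex_ofReal] at h1
    exact_mod_cast h1
  -- the product
  have hfp : ∫ x in cube c, f x * p x = ((∑ k ∈ T, ‖a k‖ ^ 2 : ℝ) : ℂ) := by
    have h2 : ∀ x, f x * p x = ∑ k ∈ T, (starRingEnd ℂ) (a k) * (f x * ex k x) := by
      intro x
      rw [hp]
      simp only
      rw [Finset.mul_sum]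
      refine Finset.sum_congr rfl fun k _ => ?_
      ring
    simp only [h2]
    rw [integral_finsetSum]
    · push_cast
      refine Finset.sum_congr rfl fun k _ => ?_
      rw [integral_const_mul, mul_comm, mul_conj, normSq_eq_norm_sq]
      push_cast
      rfl
    · intro k _
      refine hint (continuous_const.mul (hf.mul (continuous_ex k)))
        ⟨‖(starRingEnd ℂ) (a k)‖ * B, fun x => ?_⟩
      rw [norm_mul, norm_mul, norm_ex, mul_one]
      exact mul_le_mul_of_nonneg_left (hB x) (norm_nonneg _)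
  have h1 : ∑ k ∈ T, ‖a k‖ ^ 2 = ‖∫ x in cube c, f x * p x‖ := by
    rw [hfp, norm_real, Real.norm_of_nonneg (Finset.sum_nonneg fun k _ => by positivity)]
  have h2 : ‖∫ x in cube c, f x * p x‖ ≤ ∫ x in cube c, (‖f x‖ ^ 2 + ‖p x‖ ^ 2) / 2 := by
    refine (norm_integral_le_integral_norm _).trans ?_
    refine integral_mono ?_ ?_ fun x => ?_
    · refine hintR (by fun_prop) ⟨B * ∑ k ∈ T, ‖a k‖, fun x => ?_⟩
      rw [norm_norm, norm_mul]
      exact mul_le_mul (hB x) (hpB x) (norm_nonneg _) hB0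
    · refine hintR (by fun_prop) ⟨(B ^ 2 + (∑ k ∈ T, ‖a k‖) ^ 2) / 2, fun x => ?_⟩
      rw [Real.norm_of_nonneg (by positivity)]
      have h3 := hB x
      have h4 := hpB x
      gcongr
    · simp only
      rw [norm_mul]
      nlinarith [sq_nonneg (‖f x‖ - ‖p x‖)]
  have hf2 : Integrable (fun x => ‖f x‖ ^ 2) (volume.restrict (cube c)) :=
    hintR (by fun_prop) ⟨B ^ 2, fun x => by
      rw [Real.norm_of_nonneg (by positivity)]
      have := hB x
      gcongr⟩
  have hp2' : Integrable (fun x => ‖p x‖ ^ 2) (volume.restrict (cube c)) :=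
    hintR (by fun_prop) ⟨(∑ k ∈ T, ‖a k‖) ^ 2, fun x => by
      rw [Real.norm_of_nonneg (by positivity)]
      have := hpB x
      gcongr⟩
  have h3 : ∫ x in cube c, (‖f x‖ ^ 2 + ‖p x‖ ^ 2) / 2 =
      ((∫ x in cube c, ‖f x‖ ^ 2) + ∑ k ∈ T, ‖a k‖ ^ 2) / 2 := by
    rw [integral_div, integral_add hf2 hp2', hp2]
  rw [← h1, h3] at h2
  linarith

end Pool.Agent.J6H91.Tor
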