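import Pool.Agent.J6H91.Cyc.Defs
import Pool.Agent.J6H91.Tor.Bessel

/-!
# Elimination and zeros on the torus
-/

set_option autoImplicit false
set_option linter.unusedSectionVars false

open MvPolynomial Filter Topology
open scoped Real

namespace Pool.Agent.J6H91.Tor

/-- elimination: coprime polynomials over a factorial ring -/
theorem exists_elim {R : Type} [CommRing R] [IsDomain R] [UniqueFactorizationMonoid R]
    {F G : Polynomial R} (hF : Irreducible F) (hdeg : F.natDegree ≠ 0) (hG : ¬ F ∣ G) :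
    ∃ A B : Polynomial R, ∃ r : R, r ≠ 0 ∧ F * A + G * B = Polynomial.C r := by
  let : NormalizedGCDMonoid R := Classical.arbitrary _
  have hprim := hF.isPrimitive hdeg
  have hirr := (hprim.irreducible_iff_irreducible_map_fraction_map (K := FractionRing R)).mp hF
  have hndvd : ¬ F.map (algebraMap R (FractionRing R)) ∣ G.map (algebraMap R (FractionRing R)) :=
    fun h => hG (Polynomial.IsPrimitive.dvd_of_fraction_map_dvd_fraction_map
      (K := FractionRing R) hprim h)
  have hcop := hirr.coprime_iff_not_dvd.mpr hndvd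
  obtain ⟨A, B, -, -, h⟩ := Polynomial.exists_mul_add_mul_eq_C_resultant F G le_rfl le_rfl
    (Or.inl hdeg)
  refine ⟨A, B, _, ?_, h⟩
  intro h0
  have hinj := IsFractionRing.injective R (FractionRing R)
  have h1 := Polynomial.resultant_map_map F G F.natDegree G.natDegree
    (algebraMap R (FractionRing R))
  rw [h0, map_zero] at h1
  rw [← Polynomial.natDegree_map_eq_of_injective hinj F,
    ← Polynomial.natDegree_map_eq_of_injective hinj G] at h1
  exact (Polynomial.resultant_eq_zero_iff.mp h1).2 hcop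

variable {τ : Type}

/-- the value of a polynomial at the point with coordinates `w` (at `none`) and `ζ` -/
noncomputable def ev (ζ : τ → ℂ) (w : ℂ) : MvPolynomial (Option τ) ℂ →+* ℂ :=
  eval fun o => Option.elim o w ζ

theorem ev_eq (ζ : τ → ℂ) (w : ℂ) (P : MvPolynomial (Option τ) ℂ) :
    ev ζ w P = Polynomial.eval w (Polynomial.map (eval ζ) (optionEquivLeft ℂ τ P)) :=
  optionEquivLeft_elim_eval ℂ τ ζ w P

theorem exists_elim' {F G : MvPolynomial (Option τ) ℂ} (hF : Irreducible F)
    (hn : none ∈ F.vars) (hG : ¬ F ∣ G) :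
    ∃ A B : MvPolynomial (Option τ) ℂ, ∃ r : MvPolynomial τ ℂ, r ≠ 0 ∧
      ∀ ζ w, ev ζ w F * ev ζ w A + ev ζ w G * ev ζ w B = eval ζ r := by
  set e := optionEquivLeft ℂ τ with he
  have h1 : Irreducible (e F) := (MulEquiv.irreducible_iff e).mpr hF
  have h2 : (e F).natDegree ≠ 0 := by
    rw [he, natDegree_optionEquivLeft]
    exact mem_vars_iff_degreeOf_ne_zero.mp hn
  have h3 : ¬ e F ∣ e G := fun h => hG ((map_dvd_iff e).mp h)
  obtain ⟨A, B, r, hr, hAB⟩ := exists_elim h1 h2 h3
  refine ⟨e.symm A, e.symm B, r, hr, fun ζ w => ?_⟩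
  simp only [ev_eq]
  rw [← he, AlgEquiv.apply_symm_apply, AlgEquiv.apply_symm_apply, ← Polynomial.eval_mul,
    ← Polynomial.eval_mul, ← Polynomial.map_mul, ← Polynomial.map_mul, ← Polynomial.eval_add,
    ← Polynomial.map_add, hAB, Polynomial.map_C, Polynomial.eval_C]

theorem exp_injOn (x : ℝ) : Set.InjOn (fun a : ℝ => Complex.exp (2 * π * Complex.I * (a : ℂ)))
    (Set.Ioo (x - 1 / 4) (x + 1 / 4)) := by
  intro a ha b hb hab
  simp only at hab
  obtain ⟨n, hn⟩ := Complex.exp_eq_exp_iff_exists_int.mp hab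
  have hpi : (2 * π * Complex.I : ℂ) ≠ 0 := by
    simp [Real.pi_ne_zero, Complex.I_ne_zero]
  have h1 : (a : ℂ) = b + n := by
    apply mul_left_cancel₀ hpi
    rw [hn]
    ring
  have h2 : a = b + n := by exact_mod_cast h1
  have h3 : |(n : ℝ)| < 1 := by
    rw [abs_lt]
    constructor <;> linarith [ha.1, ha.2, hb.1, hb.2]
  have h4 : n = 0 := by
    have : |n| < 1 := by exact_mod_cast h3
    exact Int.abs_lt_one_iff.mp this
  rw [h2, h4]
  simp

variable [Fintype τ]

/-- a nonzero polynomial does not vanish on an open subset of the torus -/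
theorem exists_torus_point {r : MvPolynomial τ ℂ} (hr : r ≠ 0) {U : Set (τ → ℝ)} (hU : IsOpen U)
    {x : τ → ℝ} (hx : x ∈ U) : ∃ y ∈ U, eval (zt y) r ≠ 0 := by
  by_contra hcon
  push Not at hcon
  obtain ⟨ε, hε, hball⟩ := Metric.isOpen_iff.mp hU x hx
  apply hr
  set δ := min (ε / 2) (1 / 4) with hδ
  have hδ0 : 0 < δ := by positivity
  refine funext_set (fun j => (fun a : ℝ => Complex.exp (2 * π * Complex.I * (a : ℂ))) ''
    Set.Ioo (x j - δ) (x j + δ)) (fun j => ?_) fun p hp => ?_
  · refine Set.Infinite.image ?_ (Set.Ioo_infinite (by linarith))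
    refine (exp_injOn (x j)).mono (Set.Ioo_subset_Ioo ?_ ?_)
    · have := min_le_right (ε / 2) (1 / 4 : ℝ)
      linarith
    · have := min_le_right (ε / 2) (1 / 4 : ℝ)
      linarith
  · have h1 : ∀ j, ∃ a ∈ Set.Ioo (x j - δ) (x j + δ),
        Complex.exp (2 * π * Complex.I * (a : ℂ)) = p j := fun j => hp j (Set.mem_univ j)
    choose y hy1 hy2 using h1
    have h2 : p = zt y := by
      funext j
      rw [← hy2 j]
      rfl
    rw [h2, map_zero]
    refine hcon y (hball ?_)
    rw [Metric.mem_ball]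
    refine lt_of_le_of_lt ((dist_pi_le_iff hδ0.le).mpr fun j => ?_) (show δ < ε by
      have := min_le_left (ε / 2) (1 / 4 : ℝ)
      linarith)
    rw [Real.dist_eq, abs_le]
    constructor <;> linarith [(hy1 j).1, (hy1 j).2]

/-- lower bound for a polynomial without zeros in the disc -/
theorem norm_eval_ge {p : Polynomial ℂ} (hp : ∀ β, p.eval β = 0 → 1 ≤ ‖β‖) {w : ℂ} (hw : ‖w‖ ≤ 1) :
    ‖p.leadingCoeff‖ * (1 - ‖w‖) ^ p.natDegree ≤ ‖p.eval w‖ := by
  by_cases hp0 : p = 0
  · rw [hp0]
    simp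
  have hs := IsAlgClosed.splits p
  have h1 : p.eval w = p.leadingCoeff * (p.roots.map fun a => w - a).prod := by
    conv_lhs => rw [hs.eq_prod_roots]
    rw [Polynomial.eval_mul, Polynomial.eval_C, Polynomial.eval_multiset_prod, Multiset.map_map]
    simp
  rw [h1, norm_mul, hs.natDegree_eq_card_roots]
  refine mul_le_mul_of_nonneg_left ?_ (norm_nonneg _)
  have h2 : ∀ s : Multiset ℂ, (∀ a ∈ s, 1 ≤ ‖a‖) →
      (1 - ‖w‖) ^ Multiset.card s ≤ ‖(s.map fun a => w - a).prod‖ := by
    intro s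
    induction s using Multiset.induction_on with
    | empty => simp
    | cons a s ih =>
      intro hs
      rw [Multiset.card_cons, Multiset.map_cons, Multiset.prod_cons, norm_mul, pow_succ, mul_comm]
      have h3 : 1 - ‖w‖ ≤ ‖w - a‖ := by
        have h4 := norm_sub_norm_le a w
        rw [norm_sub_rev] at h4
        have h5 := hs a (Multiset.mem_cons_self a s)
        linarith
      refine mul_le_mul h3 (ih fun b hb => hs b (Multiset.mem_cons_of_mem hb)) ?_ (norm_nonneg _)
      exact pow_nonneg (by linarith) _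
  refine h2 _ fun a ha => hp a ?_
  exact (Polynomial.mem_roots hp0).mp ha

/-- the roots of the slices of a zero-free polynomial -/
theorem one_le_norm_root {F : MvPolynomial (Option τ) ℂ} (hF : Cyc.ZeroFree F) {ζ : τ → ℂ}
    (hζ : ∀ i, ‖ζ i‖ ≤ 1) (hL : eval ζ (optionEquivLeft ℂ τ F).leadingCoeff ≠ 0) {w : ℂ}
    (hw : ev ζ w F = 0) : 1 ≤ ‖w‖ := by
  by_contra hcon
  push Not at hcon
  set e := optionEquivLeft ℂ τ with he
  set L := (e F).leadingCoeff with hLdef
  -- the polynomials of the radial dilates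
  have hcont : Continuous fun r : ℝ => eval (fun i => (r : ℂ) * ζ i) L := by
    have : (fun r : ℝ => eval (fun i => (r : ℂ) * ζ i) L) =
        (fun z : τ → ℂ => eval z L) ∘ fun r : ℝ => fun i => (r : ℂ) * ζ i := rfl
    rw [this]
    exact (MvPolynomial.continuous_eval L).comp (by fun_prop)
  have hcont2 : Continuous fun r : ℝ => ev (fun i => (r : ℂ) * ζ i) w F := by
    have : (fun r : ℝ => ev (fun i => (r : ℂ) * ζ i) w F) =
        (fun z : Option τ → ℂ => eval z F) ∘ fun r : ℝ => fun o =>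
          Option.elim o w fun i => (r : ℂ) * ζ i := rfl
    rw [this]
    refine (MvPolynomial.continuous_eval F).comp (continuous_pi fun o => ?_)
    cases o with
    | none => exact continuous_const
    | some i =>
      simp only [Option.elim_some]
      fun_prop
  have h1 : ∀ r ∈ Set.Ioo (0:ℝ) 1, eval (fun i => (r : ℂ) * ζ i) L ≠ 0 →
      ‖eval (fun i => (r : ℂ) * ζ i) L‖ * (1 - ‖w‖) ^ (e F).natDegree ≤
        ‖ev (fun i => (r : ℂ) * ζ i) w F‖ := by
    intro r hr hLr
    set p := Polynomial.map (eval fun i => (r : ℂ) * ζ i) (e F) with hp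
    have h2 : p.natDegree = (e F).natDegree :=
      Polynomial.natDegree_map_of_leadingCoeff_ne_zero _ hLr
    have h3 : p.leadingCoeff = eval (fun i => (r : ℂ) * ζ i) L := by
      rw [Polynomial.leadingCoeff, h2, hp, Polynomial.coeff_map]
      rfl
    have h4 := norm_eval_ge (p := p) (w := w) ?_ hcon.le
    · rw [h2, h3] at h4
      rw [ev_eq]
      exact h4
    · intro β hβ
      by_contra hβ1
      push Not at hβ1
      rw [hp, ← ev_eq] at hβ
      refine hF _ (fun o => ?_) hβ
      cases o with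
      | none => exact hβ1
      | some i =>
        simp only [Option.elim_some]
        rw [norm_mul, Complex.norm_real, Real.norm_of_nonneg hr.1.le]
        have := hζ i
        nlinarith [hr.1, hr.2, norm_nonneg (ζ i)]
  have h5 : Tendsto (fun r : ℝ => ‖ev (fun i => (r : ℂ) * ζ i) w F‖) (𝓝[<] 1) (𝓝 0) := by
    have h6 := (hcont2.norm.tendsto 1).mono_left (nhdsWithin_le_nhds (s := Set.Iio 1))
    simp only [Complex.ofReal_one, one_mul] at h6
    have h7 : ev (fun i => ζ i) w F = 0 := hw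
    rw [h7, norm_zero] at h6
    exact h6
  have h6 : Tendsto (fun r : ℝ => ‖eval (fun i => (r : ℂ) * ζ i) L‖ *
      (1 - ‖w‖) ^ (e F).natDegree) (𝓝[<] 1) (𝓝 (‖eval ζ L‖ * (1 - ‖w‖) ^ (e F).natDegree)) := by
    have hc : Continuous fun r : ℝ => ‖eval (fun i => (r : ℂ) * ζ i) L‖ *
        (1 - ‖w‖) ^ (e F).natDegree := hcont.norm.mul continuous_const
    have h7 := (hc.tendsto 1).mono_left (nhdsWithin_le_nhds (s := Set.Iio 1))
    simp only [Complex.ofReal_one, one_mul] at h7
    exact h7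
  have h8 : ∀ᶠ r : ℝ in 𝓝[<] 1, eval (fun i => (r : ℂ) * ζ i) L ≠ 0 := by
    have h9 : ∀ᶠ r : ℝ in 𝓝 1, eval (fun i => (r : ℂ) * ζ i) L ≠ 0 := by
      refine hcont.continuousAt.eventually_ne ?_
      simp only [Complex.ofReal_one, one_mul]
      exact hL
    exact h9.filter_mono nhdsWithin_le_nhds
  have h9 : ∀ᶠ r : ℝ in 𝓝[<] 1, r ∈ Set.Ioo (0:ℝ) 1 := Ioo_mem_nhdsLT one_pos
  have h10 : ‖eval ζ L‖ * (1 - ‖w‖) ^ (e F).natDegree ≤ 0 := by
    refine le_of_tendsto_of_tendsto h6 h5 ?_
    filter_upwards [h8, h9] with r hr1 hr2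
    exact h1 r hr2 hr1
  have h11 : 0 < ‖eval ζ L‖ * (1 - ‖w‖) ^ (e F).natDegree := by
    have := norm_pos_iff.mpr hL
    have h12 : 0 < 1 - ‖w‖ := by linarith
    positivity
  linarith

end Pool.Agent.J6H91.Tor
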