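import Pool.Agent.J6H91.Tor.Bessel

/-!
# Integration by parts along a branch
-/

set_option autoImplicit false
set_option linter.unusedSectionVars false

open MeasureTheory Complex Filter Topology
open scoped Real ContDiff

namespace Pool.Agent.J6H91.Tor

variable {τ : Type} [Fintype τ] [DecidableEq τ]

/-- a smooth unimodular function on an open set with non-vanishing partial derivatives -/
structure Branch (N : Set (τ → ℝ)) (W : (τ → ℝ) → ℂ) : Prop where
  smooth : ∀ x ∈ N, ContDiffAt ℝ ∞ W x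
  norm_one : ∀ x ∈ N, ‖W x‖ = 1
  deriv_ne : ∀ x ∈ N, ∀ j : τ, fderiv ℝ W x (Pi.single j 1) ≠ 0

/-- smooth functions with compact support in `N` -/
def Amp (N : Set (τ → ℝ)) (g : (τ → ℝ) → ℂ) : Prop :=
  ContDiff ℝ ∞ g ∧ HasCompactSupport g ∧ tsupport g ⊆ N

theorem Amp.mul {N : Set (τ → ℝ)} {g h : (τ → ℝ) → ℂ} (hg : Amp N g)
    (hh : ∀ x ∈ N, ContDiffAt ℝ ∞ h x) : Amp N (fun x => g x * h x) := by
  refine ⟨contDiff_iff_contDiffAt.mpr fun x => ?_, hg.2.1.mul_right,
    (tsupport_mul_subset_left (f := g) (g := h)).trans hg.2.2⟩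
  by_cases hx : x ∈ tsupport g
  · exact hg.1.contDiffAt.mul (hh x (hg.2.2 hx))
  · have h1 := notMem_tsupport_iff_eventuallyEq.mp hx
    have h2 : (fun x => g x * h x) =ᶠ[𝓝 x] fun _ => 0 := by
      filter_upwards [h1] with y hy
      rw [hy]
      simp
    exact contDiffAt_const.congr_of_eventuallyEq h2

theorem Amp.deriv {N : Set (τ → ℝ)} {g : (τ → ℝ) → ℂ} (hg : Amp N g) (v : τ → ℝ) :
    Amp N (fun x => fderiv ℝ g x v) := by
  refine ⟨(hg.1.fderiv_right (m := ∞) (by simp)).clm_apply contDiff_const,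
    hg.2.1.fderiv_apply ℝ v, ?_⟩
  exact (tsupport_fderiv_apply_subset ℝ v).trans hg.2.2

theorem Amp.integrable {N : Set (τ → ℝ)} {g : (τ → ℝ) → ℂ} (hg : Amp N g) : Integrable g :=
  hg.1.continuous.integrable_of_hasCompactSupport hg.2.1

theorem contDiff_zt (j : τ) : ContDiff ℝ ∞ fun x : τ → ℝ => zt x j := by
  unfold zt
  have h1 : ContDiff ℝ ∞ fun x : τ → ℝ => ((x j : ℝ) : ℂ) :=
    Complex.ofRealCLM.contDiff.comp (contDiff_apply ℝ ℝ j)
  exact (contDiff_const.mul h1).cexp

theorem contDiff_ex (k : τ →₀ ℕ) : ContDiff ℝ ∞ (ex k : (τ → ℝ) → ℂ) := by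
  unfold ex
  exact contDiff_prod fun j _ => (contDiff_zt j).pow _

theorem hasFDerivAt_zt (x : τ → ℝ) (j : τ) : HasFDerivAt (fun x : τ → ℝ => zt x j)
    ((2 * π * I * zt x j) • (Complex.ofRealCLM.comp (ContinuousLinearMap.proj (R := ℝ) j))) x := by
  have h1 : HasFDerivAt (fun x : τ → ℝ => ((x j : ℝ) : ℂ))
      (Complex.ofRealCLM.comp (ContinuousLinearMap.proj (R := ℝ) j)) x :=
    (Complex.ofRealCLM.comp (ContinuousLinearMap.proj (R := ℝ) (φ := fun _ : τ => ℝ) j)).hasFDerivAt
  have h2 := (h1.const_mul (2 * π * I)).cexp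
  unfold zt
  refine h2.congr_fderiv ?_
  rw [smul_smul, mul_comm]

theorem fderiv_ex (k : τ →₀ ℕ) (x : τ → ℝ) (j : τ) :
    fderiv ℝ (ex k) x (Pi.single j 1) = 2 * π * I * k j * ex k x := by
  have h1 : HasFDerivAt (ex k : (τ → ℝ) → ℂ)
      (∑ i, (∏ l ∈ Finset.univ.erase i, zt x l ^ k l) • ((k i • zt x i ^ (k i - 1) : ℂ) •
        ((2 * π * I * zt x i) • (Complex.ofRealCLM.comp (ContinuousLinearMap.proj (R := ℝ) i))))) x := by
    unfold ex
    exact HasFDerivAt.finsetProd (u := Finset.univ) (g := fun i (x : τ → ℝ) => zt x i ^ k i)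
      fun i _ => (hasFDerivAt_zt x i).pow (k i)
  rw [h1.fderiv]
  simp only [sum_apply, smul_apply,
    ContinuousLinearMap.comp_apply, ContinuousLinearMap.proj_apply]
  rw [Finset.sum_eq_single j]
  · rw [Pi.single_eq_same]
    unfold ex
    rw [← Finset.mul_prod_erase Finset.univ _ (Finset.mem_univ j)]
    simp only [Complex.ofRealCLM_apply, Complex.ofReal_one, smul_eq_mul, mul_one, nsmul_eq_mul]
    rcases Nat.eq_zero_or_pos (k j) with h0 | h0
    · rw [h0]
      simp
    · have h2 : zt x j ^ k j = zt x j ^ (k j - 1) * zt x j := by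
        rw [← pow_succ, Nat.sub_add_cancel h0]
      rw [h2]
      ring
  · intro i _ hi
    rw [Pi.single_eq_of_ne hi]
    simp
  · simp

/-- the integral of an amplitude against the character and the power of `W` -/
noncomputable def II (W g : (τ → ℝ) → ℂ) (k : τ →₀ ℕ) (m : ℕ) : ℂ :=
  ∫ x, g x * (ex k x * W x ^ m)

theorem integral_fderiv_eq_zero {h : (τ → ℝ) → ℂ} (hh : ContDiff ℝ ∞ h) (hc : HasCompactSupport h)
    (v : τ → ℝ) : ∫ x, fderiv ℝ h x v = 0 := by
  have hd : ContDiff ℝ ∞ (fun x => fderiv ℝ h x v) :=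
    (hh.fderiv_right (m := ∞) (by simp)).clm_apply contDiff_const
  have hdc : HasCompactSupport (fun x => fderiv ℝ h x v) := hc.fderiv_apply ℝ v
  have h1 := integral_mul_fderiv_eq_neg_fderiv_mul_of_integrable (μ := volume)
    (f := fun _ : τ → ℝ => (1 : ℂ)) (g := h) (v := v) (by simp)
    (by simpa using hd.continuous.integrable_of_hasCompactSupport hdc)
    (by simpa using hh.continuous.integrable_of_hasCompactSupport hc)
    (fun _ _ => differentiableAt_const _) (fun x _ => (hh.differentiable (by simp)) x)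
  simpa using h1

/-- **Integration by parts.** -/
theorem parts {N : Set (τ → ℝ)} {W : (τ → ℝ) → ℂ} (hW : Branch N W) {g : (τ → ℝ) → ℂ}
    (hg : Amp N g) (j : τ) : ∃ g1 g2 : (τ → ℝ) → ℂ, Amp N g1 ∧ Amp N g2 ∧
      ∀ (k : τ →₀ ℕ) (m : ℕ),
      (m : ℂ) * II W g k m = - II W g1 k m - 2 * π * I * k j * II W g2 k m := by
  set b : (τ → ℝ) → ℂ := fun x => W x / fderiv ℝ W x (Pi.single j 1) with hb
  have hbs : ∀ x ∈ N, ContDiffAt ℝ ∞ b x := by
    intro x hx
    rw [hb]
    simp only [div_eq_mul_inv]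
    refine (hW.smooth x hx).mul (ContDiffAt.inv ?_ (hW.deriv_ne x hx j))
    exact ((hW.smooth x hx).fderiv_right (m := ∞) (by simp)).clm_apply contDiffAt_const
  set g2 : (τ → ℝ) → ℂ := fun x => g x * b x with hg2
  have hA2 : Amp N g2 := hg.mul hbs
  refine ⟨fun x => fderiv ℝ g2 x (Pi.single j 1), g2, hA2.deriv _, hA2, fun k m => ?_⟩
  set p : (τ → ℝ) → ℂ := fun x => ex k x * W x ^ m with hp
  have hps : ∀ x ∈ N, ContDiffAt ℝ ∞ p x := fun x hx =>
    (contDiff_ex k).contDiffAt.mul ((hW.smooth x hx).pow m)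
  have hAh : Amp N (fun x => g2 x * p x) := hA2.mul hps
  have h0 := integral_fderiv_eq_zero hAh.1 hAh.2.1 (Pi.single j 1)
  have h1 : ∀ x, fderiv ℝ (fun x => g2 x * p x) x (Pi.single j 1) =
      fderiv ℝ g2 x (Pi.single j 1) * p x + 2 * π * I * k j * (g2 x * p x) + m * (g x * p x) := by
    intro x
    by_cases hx : x ∈ tsupport g
    · have hxN := hg.2.2 hx
      have hdW : DifferentiableAt ℝ W x := (hW.smooth x hxN).differentiableAt (by simp)
      have hdp : DifferentiableAt ℝ p x := (hps x hxN).differentiableAt (by simp)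
      have hdg2 : DifferentiableAt ℝ g2 x := hA2.1.contDiffAt.differentiableAt (by simp)
      have h2 : fderiv ℝ (fun x => g2 x * p x) x = g2 x • fderiv ℝ p x + p x • fderiv ℝ g2 x :=
        fderiv_fun_mul hdg2 hdp
      have h3 : fderiv ℝ p x = ex k x • fderiv ℝ (fun x => W x ^ m) x +
          W x ^ m • fderiv ℝ (ex k) x :=
        fderiv_fun_mul ((contDiff_ex k).contDiffAt.differentiableAt (by simp)) (hdW.pow m)
      have h4 : fderiv ℝ (fun x => W x ^ m) x = (m * W x ^ (m - 1) : ℂ) • fderiv ℝ W x := by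
        rw [(hdW.hasFDerivAt.pow m).fderiv, nsmul_eq_mul]
      rw [h2, h3, h4]
      simp only [add_apply, smul_apply, smul_eq_mul]
      rw [fderiv_ex]
      have h5 : g2 x * (ex k x * (m * W x ^ (m - 1) * fderiv ℝ W x (Pi.single j 1))) =
          m * (g x * p x) := by
        rw [hg2, hb, hp]
        simp only
        have h6 := hW.deriv_ne x hxN j
        rcases Nat.eq_zero_or_pos m with h0 | h0
        · rw [h0]
          simp
        · have h7 : W x ^ m = W x ^ (m - 1) * W x := by
            rw [← pow_succ, Nat.sub_add_cancel h0]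
          rw [h7]
          field_simp
      have h8 : g2 x * (W x ^ m * (2 * π * I * k j * ex k x)) =
          2 * π * I * k j * (g2 x * p x) := by
        rw [hp]
        ring
      linear_combination h5 + h8
    · have hgx : g x = 0 := image_eq_zero_of_notMem_tsupport hx
      have hx2 : x ∉ tsupport g2 := fun h => hx (tsupport_mul_subset_left (f := g) (g := b) h)
      have hx3 : x ∉ tsupport (fun x => g2 x * p x) :=
        fun h => hx2 (tsupport_mul_subset_left (f := g2) (g := p) h)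
      have h2 : fderiv ℝ (fun x => g2 x * p x) x = 0 :=
        image_eq_zero_of_notMem_tsupport fun h => hx3 (tsupport_fderiv_subset ℝ h)
      have h3 : fderiv ℝ g2 x = 0 :=
        image_eq_zero_of_notMem_tsupport fun h => hx2 (tsupport_fderiv_subset ℝ h)
      have h4 : g2 x = 0 := image_eq_zero_of_notMem_tsupport hx2
      rw [h2, h3, h4, hgx]
      simp
  simp only [h1] at h0
  have hi1 : Integrable fun x => fderiv ℝ g2 x (Pi.single j 1) * p x :=
    ((hA2.deriv (Pi.single j 1)).mul hps).integrable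
  have hi2 : Integrable fun x => 2 * π * I * k j * (g2 x * p x) := (hAh.integrable).const_mul _
  have hi3 : Integrable fun x => (m : ℂ) * (g x * p x) := ((hg.mul hps).integrable).const_mul _
  have e1 := integral_add (hi1.add hi2) hi3
  have e2 := integral_add hi1 hi2
  simp only [Pi.add_apply] at e1 e2
  rw [e1, e2, integral_const_mul, integral_const_mul] at h0
  unfold II
  linear_combination h0

end Pool.Agent.J6H91.Tor
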