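import Pool.Agent.J6H91.Tor.Refl
import Pool.Agent.J6H91.Tor.Parts

/-!
# The smooth branch
-/

set_option autoImplicit false
set_option linter.unusedSectionVars false

open MvPolynomial Filter Topology
open scoped Real ContDiff

namespace Pool.Agent.J6H91.Tor

theorem contDiff_eval {σ : Type} [Fintype σ] {E : Type} [NormedAddCommGroup E] [NormedSpace ℝ E]
    {n : ℕ∞ω} {z : E → σ → ℂ} (hz : ∀ o, ContDiff ℝ n fun y => z y o) (P : MvPolynomial σ ℂ) :
    ContDiff ℝ n fun y => eval (z y) P := by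
  simp only [MvPolynomial.eval_eq']
  refine ContDiff.sum fun k _ => contDiff_const.mul ?_
  exact contDiff_prod fun o _ => (hz o).pow _

theorem hasFDerivAt_eval {σ : Type} [Fintype σ] {E : Type} [NormedAddCommGroup E] [NormedSpace ℝ E]
    {z : E → σ → ℂ} {z' : σ → E →L[ℝ] ℂ} {y : E} (hz : ∀ o, HasFDerivAt (fun y => z y o) (z' o) y)
    (P : MvPolynomial σ ℂ) :
    HasFDerivAt (fun y => eval (z y) P) (∑ o, (eval (z y) (pderiv o P)) • z' o) y := by
  classical
  induction P using MvPolynomial.induction_on with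
  | C a =>
    simp only [eval_C]
    refine (hasFDerivAt_const a y).congr_fderiv ?_
    ext v
    rw [sum_apply]
    simp
  | add p q hp hq =>
    simp only [map_add]
    refine (hp.add hq).congr_fderiv ?_
    ext v
    rw [add_apply, sum_apply, sum_apply, sum_apply, ← Finset.sum_add_distrib]
    refine Finset.sum_congr rfl fun o _ => ?_
    simp only [smul_apply, smul_eq_mul]
    ring
  | mul_X p i hp =>
    simp only [map_mul, eval_X]
    refine (hp.mul (hz i)).congr_fderiv ?_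
    ext v
    rw [add_apply, smul_apply, smul_apply, sum_apply, sum_apply]
    simp only [smul_apply, smul_eq_mul]
    have h2 : ∀ o, eval (z y) (pderiv o (p * X i)) * z' o v =
        (if o = i then eval (z y) p * z' i v else 0) + z y i * (eval (z y) (pderiv o p) * z' o v) := by
      intro o
      rw [pderiv_mul, map_add, map_mul, map_mul, eval_X]
      by_cases ho : o = i
      · rw [if_pos ho, ho, pderiv_X_self, map_one, mul_one]
        ring
      · rw [if_neg ho, pderiv_X_of_ne (Ne.symm ho), map_zero, mul_zero]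
        ring
    rw [Finset.sum_congr rfl fun o _ => h2 o, Finset.sum_add_distrib, Finset.sum_ite_eq',
      if_pos (Finset.mem_univ i), ← Finset.mul_sum]

variable {τ : Type} [Fintype τ] [DecidableEq τ]

/-- the point of `ℂ^(Option τ)` with angles `x` and last coordinate `w` -/
noncomputable def pt (y : (τ → ℝ) × ℂ) : Option τ → ℂ := fun o => Option.elim o y.2 (zt y.1)

theorem contDiff_zt' (j : τ) {n : ℕ∞ω} : ContDiff ℝ n fun x : τ → ℝ => zt x j := by
  unfold zt
  have h1 : ContDiff ℝ n fun x : τ → ℝ => ((x j : ℝ) : ℂ) :=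
    Complex.ofRealCLM.contDiff.comp (contDiff_apply ℝ ℝ j)
  exact (contDiff_const.mul h1).cexp

theorem contDiff_pt {n : ℕ∞ω} (o : Option τ) : ContDiff ℝ n fun y : (τ → ℝ) × ℂ => pt y o := by
  cases o with
  | none => exact contDiff_snd
  | some j => exact (contDiff_zt' j).comp contDiff_fst

/-- the derivative of the coordinates -/
noncomputable def pt' (x : τ → ℝ) : Option τ → ((τ → ℝ) × ℂ →L[ℝ] ℂ)
  | none => ContinuousLinearMap.snd ℝ (τ → ℝ) ℂ
  | some j => ((2 * π * Complex.I * zt x j) •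
      (Complex.ofRealCLM.comp (ContinuousLinearMap.proj (R := ℝ) j))).comp
        (ContinuousLinearMap.fst ℝ (τ → ℝ) ℂ)

theorem hasFDerivAt_pt (y : (τ → ℝ) × ℂ) (o : Option τ) :
    HasFDerivAt (fun y : (τ → ℝ) × ℂ => pt y o) (pt' y.1 o) y := by
  cases o with
  | none => exact hasFDerivAt_snd
  | some j =>
    have h1 := (hasFDerivAt_zt y.1 j).comp y (hasFDerivAt_fst (𝕜 := ℝ) (E := τ → ℝ) (F := ℂ))
    exact h1

/-- **The smooth branch through a good point.** -/
theorem exists_branch {F : MvPolynomial (Option τ) ℂ} {x₀ : τ → ℝ} {w₀ : ℂ}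
    (h0 : ev (zt x₀) w₀ F = 0) (hd : ∀ o, ev (zt x₀) w₀ (pderiv o F) ≠ 0)
    (h1 : ∀ᶠ x in 𝓝 x₀, ∀ w, ev (zt x) w F = 0 → ‖w‖ = 1) :
    ∃ (N : Set (τ → ℝ)) (W : (τ → ℝ) → ℂ), IsOpen N ∧ x₀ ∈ N ∧ N ⊆ cube (fun j => x₀ j - 1 / 2) ∧
      Branch N W ∧ ∀ x ∈ N, ev (zt x) (W x) F = 0 := by
  set f : (τ → ℝ) × ℂ → ℂ := fun y => eval (pt y) F with hf
  have hfev : ∀ x w, f (x, w) = ev (zt x) w F := fun x w => rfl
  have hfs : ContDiffAt ℝ ω f (x₀, w₀) := (contDiff_eval contDiff_pt F).contDiffAt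
  have hfd : HasFDerivAt f (∑ o, (eval (pt (x₀, w₀)) (pderiv o F)) • pt' x₀ o) (x₀, w₀) :=
    hasFDerivAt_eval (fun o => hasFDerivAt_pt (x₀, w₀) o) F
  have hω : (ω : ℕ∞ω) ≠ 0 := by simp
  set D := fderiv ℝ f (x₀, w₀) with hD
  have hDv : ∀ (v : τ → ℝ) (u : ℂ), D (v, u) = ev (zt x₀) w₀ (pderiv none F) * u +
      ∑ j, ev (zt x₀) w₀ (pderiv (some j) F) * (2 * π * Complex.I * zt x₀ j * (v j : ℂ)) := by
    intro v u
    rw [hD, hfd.fderiv, sum_apply, Fintype.sum_option]
    rfl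
  have hinv : (D ∘L .inr ℝ (τ → ℝ) ℂ).IsInvertible := by
    set a := ev (zt x₀) w₀ (pderiv none F) with ha
    have ha0 : a ≠ 0 := hd none
    refine ⟨ContinuousLinearEquiv.equivOfInverse (D ∘L .inr ℝ (τ → ℝ) ℂ)
      (a⁻¹ • ContinuousLinearMap.id ℝ ℂ) (fun u => ?_) (fun u => ?_), rfl⟩
    · rw [ContinuousLinearMap.comp_apply, ContinuousLinearMap.inr_apply, hDv]
      simp [ha0]
    · rw [ContinuousLinearMap.comp_apply, ContinuousLinearMap.inr_apply, hDv]
      simp [ha0]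
  set W := hfs.implicitFunction hω hinv with hWdef
  have hW0 : W x₀ = w₀ := hfs.implicitFunction_apply_self hω hinv
  have hWeq : ∀ᶠ x in 𝓝 x₀, f (x, W x) = 0 := by
    have h2 := hfs.eventually_apply_implicitFunction hω hinv
    have h3 : f (x₀, w₀) = 0 := h0
    simp only [h3] at h2
    exact h2
  have hWs : ContDiffAt ℝ ω W x₀ := hfs.contDiffAt_implicitFunction hω hinv
  have hWs' : ∀ᶠ x in 𝓝 x₀, ContDiffAt ℝ ω W x := hWs.eventually (by simp)
  -- the derivative of `W` at `x₀`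
  have hWd : ∀ j, fderiv ℝ W x₀ (Pi.single j 1) ≠ 0 := by
    intro j hcon
    have hWf : HasFDerivAt W (fderiv ℝ W x₀) x₀ := (hWs.differentiableAt (by simp)).hasFDerivAt
    have h2 : HasFDerivAt (fun x => (x, W x)) ((ContinuousLinearMap.id ℝ (τ → ℝ)).prod
        (fderiv ℝ W x₀)) x₀ := (hasFDerivAt_id x₀).prodMk hWf
    have hfd' : HasFDerivAt f D (x₀, W x₀) := by
      rw [hW0, hD]
      exact hfd.differentiableAt.hasFDerivAt
    have h3 : HasFDerivAt (fun x => f (x, W x)) (D.comp ((ContinuousLinearMap.id ℝ (τ → ℝ)).prod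
        (fderiv ℝ W x₀))) x₀ :=
      HasFDerivAt.comp (f := fun x => (x, W x)) (g := f) x₀ hfd' h2
    have h4 : HasFDerivAt (fun x => f (x, W x)) (0 : (τ → ℝ) →L[ℝ] ℂ) x₀ :=
      (hasFDerivAt_const (0 : ℂ) x₀).congr_of_eventuallyEq hWeq
    have h5 := h3.unique h4
    have h6 := DFunLike.congr_fun h5 (Pi.single j 1)
    rw [ContinuousLinearMap.comp_apply, ContinuousLinearMap.prod_apply,
      ContinuousLinearMap.id_apply, hcon, hDv, mul_zero, zero_add, Finset.sum_eq_single j] at h6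
    · rw [Pi.single_eq_same] at h6
      have h7 := hd (some j)
      have h8 : zt x₀ j ≠ 0 := by
        rw [← norm_ne_zero_iff, norm_zt]
        exact one_ne_zero
      have h9 : (2 * π * Complex.I : ℂ) ≠ 0 := by
        simp [Real.pi_ne_zero, Complex.I_ne_zero]
      have h10 : ev (zt x₀) w₀ (pderiv (some j) F) * (2 * π * Complex.I * zt x₀ j * ((1 : ℝ) : ℂ)) ≠ 0 := by
        rw [Complex.ofReal_one, mul_one]
        exact mul_ne_zero h7 (mul_ne_zero h9 h8)
      exact h10 h6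
    · intro i _ hi
      rw [Pi.single_eq_of_ne hi]
      simp
    · simp
  have hWd' : ∀ᶠ x in 𝓝 x₀, ∀ j, fderiv ℝ W x (Pi.single j 1) ≠ 0 := by
    rw [eventually_all]
    intro j
    have h2 : ContinuousAt (fderiv ℝ W) x₀ :=
      (hWs.fderiv_right (m := 0) (by simp)).continuousAt
    have h3 : ContinuousAt (fun x => fderiv ℝ W x (Pi.single j 1)) x₀ :=
      h2.clm_apply continuousAt_const
    exact h3.eventually_ne (hWd j)
  have hcube : ∀ᶠ x in 𝓝 x₀, x ∈ cube (fun j => x₀ j - 1 / 2) := by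
    have h2 : ∀ᶠ x in 𝓝 x₀, ∀ j, x j ∈ Set.Ioc (x₀ j - 1 / 2) (x₀ j - 1 / 2 + 1) := by
      rw [eventually_all]
      intro j
      have h3 : ContinuousAt (fun x : τ → ℝ => x j) x₀ := continuousAt_apply j x₀
      have h4 : Set.Ioc (x₀ j - 1 / 2) (x₀ j - 1 / 2 + 1) ∈ 𝓝 (x₀ j) :=
        Ioc_mem_nhds (by linarith) (by linarith)
      exact h3 h4
    filter_upwards [h2] with x hx
    exact fun j _ => hx j
  have hall : ∀ᶠ x in 𝓝 x₀, (∀ w, ev (zt x) w F = 0 → ‖w‖ = 1) ∧ f (x, W x) = 0 ∧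
      ContDiffAt ℝ ω W x ∧ (∀ j, fderiv ℝ W x (Pi.single j 1) ≠ 0) ∧
      x ∈ cube (fun j => x₀ j - 1 / 2) := by
    filter_upwards [h1, hWeq, hWs', hWd', hcube] with x a b c d e
    exact ⟨a, b, c, d, e⟩
  obtain ⟨N, hN, hNo, hxN⟩ := eventually_nhds_iff.mp hall
  refine ⟨N, W, hNo, hxN, fun x hx => (hN x hx).2.2.2.2, ⟨fun x hx => ?_, fun x hx => ?_,
    fun x hx => ?_⟩, fun x hx => ?_⟩
  · exact (hN x hx).2.2.1.of_le le_top
  · exact (hN x hx).1 _ (hN x hx).2.1
  · exact (hN x hx).2.2.2.1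
  · exact (hN x hx).2.1

end Pool.Agent.J6H91.Tor
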