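import Pool.Agent.J6H91.Tor.Refl

/-!
# Homogenization
-/

set_option autoImplicit false
set_option linter.unusedSectionVars false

open MvPolynomial

namespace Pool.Agent.J6H91.Tor

variable {σ : Type} [Fintype σ]

/-- the homogenization `Σ_k P_k μ^(N - |k|) z^k`, `N` the total degree; `μ` is the variable `none` -/
noncomputable def hmg (P : MvPolynomial σ ℂ) : MvPolynomial (Option σ) ℂ :=
  ∑ k ∈ P.support, monomial (k.optionElim (P.totalDegree - ∑ j, k j)) (P.coeff k)

theorem sum_le_totalDegree {P : MvPolynomial σ ℂ} {k : σ →₀ ℕ} (hk : k ∈ P.support) :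
    ∑ j, k j ≤ P.totalDegree := by
  have := MvPolynomial.le_totalDegree hk
  rwa [Finsupp.sum_fintype _ _ (fun _ => rfl)] at this

theorem ev_hmg (P : MvPolynomial σ ℂ) (ζ : σ → ℂ) (μ : ℂ) : ev ζ μ (hmg P) =
    ∑ k ∈ P.support, P.coeff k * (μ ^ (P.totalDegree - ∑ j, k j) * ∏ j, ζ j ^ k j) := by
  unfold ev
  rw [hmg, map_sum]
  refine Finset.sum_congr rfl fun k _ => ?_
  rw [eval_monomial, Finsupp.prod_fintype _ _ (fun _ => pow_zero _), Fintype.prod_option]
  simp

theorem ev_one_hmg (P : MvPolynomial σ ℂ) (ζ : σ → ℂ) : ev ζ 1 (hmg P) = eval ζ P := by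
  rw [ev_hmg, MvPolynomial.eval_eq']
  simp

theorem ev_hmg_of_ne (P : MvPolynomial σ ℂ) (ζ : σ → ℂ) {μ : ℂ} (hμ : μ ≠ 0) :
    ev ζ μ (hmg P) = μ ^ P.totalDegree * eval (fun j => μ⁻¹ * ζ j) P := by
  rw [ev_hmg, MvPolynomial.eval_eq', Finset.mul_sum]
  refine Finset.sum_congr rfl fun k hk => ?_
  simp_rw [mul_pow, Finset.prod_mul_distrib]
  rw [Finset.prod_pow_eq_pow_sum, pow_sub₀ _ hμ (sum_le_totalDegree hk), inv_pow]
  ring

theorem exists_ev_zero_ne {P : MvPolynomial σ ℂ} (hP : P ≠ 0) : ∃ ζ, ev ζ 0 (hmg P) ≠ 0 := by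
  classical
  by_contra hcon
  push Not at hcon
  obtain ⟨k₀, hk₀, hk₀'⟩ : ∃ k ∈ P.support, ∑ j, k j = P.totalDegree := by
    obtain ⟨k, hk, hk2⟩ := P.support.exists_mem_eq_sup (support_nonempty.mpr hP)
      (fun s => s.sum fun _ e => e)
    refine ⟨k, hk, ?_⟩
    rw [← Finsupp.sum_fintype k (fun _ e => e) (fun _ => rfl)]
    exact hk2.symm
  have h1 : (homogeneousComponent P.totalDegree P) = 0 := by
    refine MvPolynomial.funext fun ζ => ?_
    rw [map_zero, ← hcon ζ, ev_hmg, homogeneousComponent_apply, map_sum, Finset.sum_filter]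
    refine Finset.sum_congr rfl fun k hk => ?_
    have hdeg : k.degree = ∑ j, k j := by
      rw [Finsupp.degree_eq_sum]
    by_cases h : k.degree = P.totalDegree
    · rw [if_pos h, eval_monomial, Finsupp.prod_fintype _ _ (fun _ => pow_zero _), ← hdeg, h,
        Nat.sub_self, pow_zero, one_mul]
    · rw [if_neg h]
      have h2 := sum_le_totalDegree hk
      rw [hdeg] at h
      rw [zero_pow (by omega), zero_mul, mul_zero]
  have h2 := coeff_homogeneousComponent P.totalDegree P k₀
  rw [h1, coeff_zero, if_pos (by rw [Finsupp.degree_eq_sum]; exact hk₀')] at h2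
  exact (mem_support_iff.mp hk₀) h2.symm

/-- the grading of the polynomial ring -/
noncomputable def theta : MvPolynomial (Option σ) ℂ →ₐ[ℂ] Polynomial (MvPolynomial (Option σ) ℂ) :=
  aeval fun o => Polynomial.C (X o) * Polynomial.X

theorem eval_theta (B : MvPolynomial (Option σ) ℂ) (z : Option σ → ℂ) (T : ℂ) :
    Polynomial.eval₂ (eval z) T (theta B) = eval (fun o => z o * T) B := by
  induction B using MvPolynomial.induction_on with
  | C a =>
    rw [theta, aeval_C, eval_C, Polynomial.algebraMap_apply, Polynomial.eval₂_C]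
    simp [MvPolynomial.algebraMap_eq]
  | add p q hp hq => rw [map_add, Polynomial.eval₂_add, hp, hq, map_add]
  | mul_X p i hp =>
    rw [map_mul, Polynomial.eval₂_mul, hp, map_mul, eval_X]
    congr 1
    rw [theta, aeval_X, Polynomial.eval₂_mul, Polynomial.eval₂_C, Polynomial.eval₂_X, eval_X]

theorem theta_monomial (s : Option σ →₀ ℕ) (a : ℂ) :
    theta (monomial s a) = Polynomial.C (monomial s a) * Polynomial.X ^ (∑ o, s o) := by
  rw [theta, aeval_monomial, Finsupp.prod_fintype _ _ (fun _ => pow_zero _)]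
  simp_rw [mul_pow, Finset.prod_mul_distrib]
  rw [Finset.prod_pow_eq_pow_sum, ← mul_assoc, MvPolynomial.monomial_eq, map_mul,
    Finsupp.prod_fintype _ _ (fun _ => pow_zero _), map_prod, Polynomial.algebraMap_apply]
  simp [MvPolynomial.algebraMap_eq]

theorem theta_hmg (P : MvPolynomial σ ℂ) :
    theta (hmg P) = Polynomial.C (hmg P) * Polynomial.X ^ P.totalDegree := by
  rw [hmg, map_sum, map_sum, Finset.sum_mul]
  refine Finset.sum_congr rfl fun k hk => ?_
  rw [theta_monomial]
  congr 2
  rw [Fintype.sum_option]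
  have := sum_le_totalDegree hk
  simp only [Finsupp.optionElim_apply_none, Finsupp.optionElim_apply_some]
  omega

theorem hmg_ne_zero {P : MvPolynomial σ ℂ} (hP : P ≠ 0) : hmg P ≠ 0 := by
  intro h
  obtain ⟨ζ, hζ⟩ := exists_ev_zero_ne hP
  rw [h, map_zero] at hζ
  exact hζ rfl

/-- factors of the homogenization are homogeneous -/
theorem factor_homogeneous {P : MvPolynomial σ ℂ} (hP : P ≠ 0) {A B : MvPolynomial (Option σ) ℂ}
    (h : hmg P = A * B) : ∃ b : ℕ, ∀ (z : Option σ → ℂ) (T : ℂ),
      eval (fun o => z o * T) B = T ^ b * eval z B := by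
  have hF := hmg_ne_zero hP
  have hA0 : A ≠ 0 := by
    rintro rfl
    rw [zero_mul] at h
    exact hF h
  have hB0 : B ≠ 0 := by
    rintro rfl
    rw [mul_zero] at h
    exact hF h
  have h1 : theta A * theta B = Polynomial.C (hmg P) * Polynomial.X ^ P.totalDegree := by
    rw [← map_mul, ← h, theta_hmg]
  have hR : Polynomial.C (hmg P) * Polynomial.X ^ P.totalDegree ≠ 0 :=
    mul_ne_zero (Polynomial.C_ne_zero.mpr hF) (pow_ne_zero _ Polynomial.X_ne_zero)
  have hA : theta A ≠ 0 := by
    intro h0
    rw [h0, zero_mul] at h1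
    exact hR h1.symm
  have hB : theta B ≠ 0 := by
    intro h0
    rw [h0, mul_zero] at h1
    exact hR h1.symm
  have h2 := Polynomial.natDegree_mul hA hB
  have h3 := Polynomial.natTrailingDegree_mul hA hB
  rw [h1, Polynomial.natDegree_C_mul_X_pow _ _ hF] at h2
  rw [h1, Polynomial.C_mul_X_pow_eq_monomial, Polynomial.natTrailingDegree_monomial hF] at h3
  have h4 := Polynomial.natTrailingDegree_le_natDegree (theta A)
  have h5 := Polynomial.natTrailingDegree_le_natDegree (theta B)
  have h6 : (theta B).natTrailingDegree = (theta B).natDegree := by omega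
  set b := (theta B).natDegree with hb
  have h7 : theta B = Polynomial.monomial b ((theta B).coeff b) := by
    ext1 n
    rw [Polynomial.coeff_monomial]
    split_ifs with hn
    · rw [hn]
    · rcases lt_or_gt_of_ne hn with h8 | h8
      · exact Polynomial.coeff_eq_zero_of_natDegree_lt h8
      · exact Polynomial.coeff_eq_zero_of_lt_natTrailingDegree (by rw [h6]; exact h8)
  have h8 : ∀ (z : Option σ → ℂ) (T : ℂ), eval (fun o => z o * T) B =
      eval z ((theta B).coeff b) * T ^ b := by
    intro z T
    rw [← eval_theta, h7, Polynomial.eval₂_monomial]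
    rw [← h7]
  refine ⟨b, fun z T => ?_⟩
  have h9 := h8 z 1
  simp only [mul_one, one_pow] at h9
  rw [h8 z T, h9, mul_comm]

theorem irreducible_hmg {P : MvPolynomial σ ℂ} (hP : Irreducible P) : Irreducible (hmg P) := by
  have hP0 := hP.ne_zero
  -- dehomogenization
  set D : MvPolynomial (Option σ) ℂ →ₐ[ℂ] MvPolynomial σ ℂ := aeval fun o => Option.elim o 1 X with hD
  have hDev : ∀ (B : MvPolynomial (Option σ) ℂ) (ζ : σ → ℂ), eval ζ (D B) = ev ζ 1 B := by
    intro B ζ
    unfold ev
    induction B using MvPolynomial.induction_on with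
    | C a => rw [hD, aeval_C, eval_C, MvPolynomial.algebraMap_eq, eval_C]
    | add p q hp hq => rw [map_add, map_add, hp, hq, map_add]
    | mul_X p i hp =>
      rw [map_mul, map_mul, hp, map_mul, hD, aeval_X]
      cases i with
      | none => simp
      | some j => simp
  have hDP : D (hmg P) = P := MvPolynomial.funext fun ζ => by rw [hDev, ev_one_hmg]
  -- the key claim
  have key : ∀ A B : MvPolynomial (Option σ) ℂ, hmg P = A * B → IsUnit (D B) → IsUnit B := by
    intro A B h hu
    obtain ⟨c, hc, hDB⟩ := MvPolynomial.isUnit_iff_eq_C_of_isReduced.mp hu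
    obtain ⟨b, hb⟩ := factor_homogeneous hP0 h
    have h1 : B * X none = C c * X none ^ (b + 1) := by
      refine MvPolynomial.funext fun z => ?_
      rw [map_mul, map_mul, map_pow, eval_X, eval_C]
      by_cases hz : z none = 0
      · rw [hz]
        simp
      · have h2 := hb (fun o => z o / z none) (z none)
        have h3 : (fun o => z o / z none * z none) = z := by
          funext o
          rw [div_mul_cancel₀ _ hz]
        rw [h3] at h2
        have h4 : eval (fun o => z o / z none) B = c := by
          have h5 := hDev B (fun j => z (some j) / z none)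
          rw [hDB, eval_C] at h5
          rw [h5]
          unfold ev
          congr 2
          funext o
          cases o with
          | none => simp [div_self hz]
          | some j => simp
        rw [h2, h4]
        ring
    have h2 : B = C c * X none ^ b := by
      have h3 : B * X none = (C c * X none ^ b) * X none := by
        rw [h1, pow_succ, mul_assoc]
      exact mul_right_cancel₀ (X_ne_zero none) h3
    have hb0 : b = 0 := by
      by_contra hb0
      obtain ⟨ζ, hζ⟩ := exists_ev_zero_ne hP0
      apply hζ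
      rw [h, h2]
      simp only [map_mul, map_pow]
      unfold ev
      simp [hb0]
    rw [h2, hb0, pow_zero, mul_one]
    exact hc.map C
  constructor
  · intro hu
    have := hu.map D
    rw [hDP] at this
    exact hP.not_isUnit this
  · intro A B h
    have h1 : P = D A * D B := by rw [← map_mul, ← h, hDP]
    rcases hP.isUnit_or_isUnit h1 with h2 | h2
    · left
      exact key B A (by rw [h, mul_comm]) h2
    · right
      exact key A B h h2

theorem none_mem_vars_hmg {P : MvPolynomial σ ℂ} (h0 : P.coeff 0 ≠ 0) (hd : P.totalDegree ≠ 0) :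
    none ∈ (hmg P).vars := by
  classical
  by_contra hcon
  have h1 : ∀ μ : ℂ, ev 0 μ (hmg P) = ev 0 0 (hmg P) := by
    intro μ
    unfold ev
    refine MvPolynomial.eval₂Hom_congr' rfl (fun i hi _ => ?_) rfl
    cases i with
    | none => exact absurd hi hcon
    | some j => rfl
  have h2 := h1 1
  rw [ev_one_hmg, ev_hmg] at h2
  have h3 : eval (0 : σ → ℂ) P = P.coeff 0 := by
    rw [MvPolynomial.eval_zero]
    rfl
  rw [h3] at h2
  have h4 : ∑ k ∈ P.support, P.coeff k * ((0:ℂ) ^ (P.totalDegree - ∑ j, k j) *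
      ∏ j, (0 : σ → ℂ) j ^ k j) = 0 := by
    refine Finset.sum_eq_zero fun k hk => ?_
    by_cases hk0 : k = 0
    · rw [hk0]
      simp [hd]
    · obtain ⟨j, hj⟩ := Finsupp.ne_iff.mp hk0
      rw [Finset.prod_eq_zero (Finset.mem_univ j) (by
        rw [Pi.zero_apply]
        exact zero_pow hj), mul_zero, mul_zero]
  rw [h4] at h2
  exact h0 h2

end Pool.Agent.J6H91.Tor
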