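import Pool.Agent.J6H91.Tor.NegPow

/-!
# Small negative powers of a polynomial are integrable on the torus
-/

set_option autoImplicit false
set_option linter.unusedSectionVars false

open Finset MeasureTheory
open scoped ENNReal Real

namespace Pool.Agent.J6H91.Tor

variable {σ : Type} [Fintype σ] [DecidableEq σ]

/-- a linear functional with values in `ℕ` which is injective on a finite set of exponents -/
theorem exists_weights (S : Finset (σ →₀ ℕ)) :
    ∃ v : σ → ℕ, Set.InjOn (fun k : σ →₀ ℕ => ∑ j, k j * v j) S := by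
  classical
  set B : ℕ := 1 + ∑ k ∈ S, ∑ j, k j with hB
  have hlt : ∀ k ∈ S, ∀ j, k j < B := by
    intro k hk j
    have h1 : k j ≤ ∑ j, k j := Finset.single_le_sum (f := fun j => k j) (fun _ _ => Nat.zero_le _)
      (Finset.mem_univ j)
    have h2 : ∑ j, k j ≤ ∑ k ∈ S, ∑ j, k j :=
      Finset.single_le_sum (f := fun k : σ →₀ ℕ => ∑ j, k j) (fun _ _ => Nat.zero_le _) hk
    omega
  let e := Fintype.equivFin σ
  refine ⟨fun j => B ^ (e j : ℕ), fun k hk l hl hkl => ?_⟩
  simp only at hkl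
  have h1 : ∀ k : σ →₀ ℕ, ∀ hk : k ∈ S, ((finFunctionFinEquiv (m := B) (n := Fintype.card σ)
      (fun i => ⟨k (e.symm i), hlt k hk _⟩) : Fin _) : ℕ) = ∑ j, k j * B ^ (e j : ℕ) := by
    intro k hk
    rw [finFunctionFinEquiv_apply, ← e.symm.sum_comp]
    simp
  rw [← h1 k hk, ← h1 l hl] at hkl
  have h2 := finFunctionFinEquiv.injective (Fin.ext hkl)
  ext j
  have h3 := congrFun h2 (e j)
  simpa using h3

/-- small negative powers of a nonzero polynomial are integrable on the torus -/
theorem exists_integrable {R : MvPolynomial σ ℂ} (hR : R ≠ 0) :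
    ∃ δ : ℝ, 0 < δ ∧ δ ≤ 1 ∧
      ∫⁻ x : σ → UnitAddCircle, np δ ‖MvPolynomial.eval (ch x) R‖ ≠ ∞ := by
  classical
  obtain ⟨v, hv⟩ := exists_weights R.support
  set κ : (σ →₀ ℕ) → ℕ := fun k => ∑ j, k j * v j with hκ
  obtain ⟨ks, hks, hmax⟩ := Finset.exists_max_image R.support κ
    (MvPolynomial.support_nonempty.mpr hR)
  set n := κ ks with hn
  set ρ := ‖R.coeff ks‖ with hρ
  have hρ0 : 0 < ρ := norm_pos_iff.mpr (MvPolynomial.mem_support_iff.mp hks)
  set δ : ℝ := 1 / (2 * ((n : ℝ) + 1)) with hδ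
  have hδ0 : 0 < δ := by positivity
  have hδ1 : δ ≤ 1 := by
    rw [hδ, div_le_one (by positivity)]
    have : (0:ℝ) ≤ n := Nat.cast_nonneg n
    linarith
  have hnδ : n * δ ≤ 1 / 2 := by
    rw [hδ, mul_one_div, div_le_iff₀ (by positivity)]
    have : (0:ℝ) ≤ n := Nat.cast_nonneg n
    linarith
  refine ⟨δ, hδ0, hδ1, ?_⟩
  -- the polynomial in one variable
  let p : (σ → UnitAddCircle) → Polynomial ℂ := fun x =>
    ∑ k ∈ R.support, Polynomial.monomial (κ k) (R.coeff k * ∏ j, ch x j ^ k j)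
  have hcoeff : ∀ x, (p x).coeff n = R.coeff ks * ∏ j, ch x j ^ ks j := by
    intro x
    simp only [p, Polynomial.finsetSum_coeff, Polynomial.coeff_monomial]
    rw [Finset.sum_eq_single_of_mem ks hks]
    · rw [if_pos hn.symm]
    · intro k hk hne
      rw [if_neg]
      intro h
      exact hne (hv hk hks (h.trans hn))
  have hcn : ∀ x, ‖(p x).coeff n‖ = ρ := by
    intro x
    rw [hcoeff, norm_mul, norm_prod, Finset.prod_eq_one (fun j _ => by rw [norm_pow, norm_ch, one_pow]),
      mul_one]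
  have hdeg : ∀ x, (p x).natDegree ≤ n := by
    intro x
    refine Polynomial.natDegree_sum_le_of_forall_le _ _ fun k hk => ?_
    exact (Polynomial.natDegree_monomial_le _).trans (hmax k hk)
  have hlead : ∀ x, ‖(p x).leadingCoeff‖ = ρ := by
    intro x
    have h1 : (p x).natDegree = n := by
      refine le_antisymm (hdeg x) (Polynomial.le_natDegree_of_ne_zero ?_)
      rw [← norm_pos_iff, hcn]
      exact hρ0
    rw [Polynomial.leadingCoeff, h1, hcn]
  -- the shifts
  let g : UnitAddCircle → (σ → UnitAddCircle) := fun s j => v j • s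
  have hgc : Continuous g := continuous_pi fun j => continuous_nsmul (v j)
  have heval : ∀ x s, MvPolynomial.eval (ch (x + g s)) R =
      (p x).eval (AddCircle.toCircle s : ℂ) := by
    intro x s
    rw [MvPolynomial.eval_eq', Polynomial.eval_finsetSum]
    refine Finset.sum_congr rfl fun k _ => ?_
    rw [Polynomial.eval_monomial]
    have h1 : ∀ j, ch (x + g s) j = ch x j * (AddCircle.toCircle s : ℂ) ^ v j := by
      intro j
      rw [ch_add]
      congr 1
      change (AddCircle.toCircle (v j • s) : ℂ) = _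
      rw [AddCircle.toCircle_nsmul, Circle.coe_pow]
    simp_rw [h1, mul_pow, Finset.prod_mul_distrib, ← pow_mul]
    rw [Finset.prod_pow_eq_pow_sum, mul_assoc]
    congr 3
    rw [hκ]
    exact Finset.sum_congr rfl fun j _ => mul_comm _ _
  set C : ℝ≥0∞ := np δ ρ * (1 + n * (np (1 / 2) (1 / 2) * c0)) with hC
  have hCtop : C ≠ ∞ := by
    rw [hC]
    refine ENNReal.mul_ne_top (np_ne_top hρ0) (ENNReal.add_ne_top.mpr ⟨ENNReal.one_ne_top, ?_⟩)
    refine ENNReal.mul_ne_top (ENNReal.natCast_ne_top n) ?_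
    exact ENNReal.mul_ne_top (np_ne_top (by norm_num)) c0_ne_top
  set Ψ : (σ → UnitAddCircle) → ℝ≥0∞ := fun x => np δ ‖MvPolynomial.eval (ch x) R‖ with hΨ
  have hcont : Continuous fun x : σ → UnitAddCircle => ‖MvPolynomial.eval (ch x) R‖ := by
    refine Continuous.norm ?_
    exact (MvPolynomial.continuous_eval R).comp (continuous_pi fun j => continuous_ch j)
  have h2 : ∫⁻ x, Ψ x = ∫⁻ s : UnitAddCircle, ∫⁻ x, Ψ (x + g s) := by
    have h3 : ∀ s : UnitAddCircle, ∫⁻ x, Ψ (x + g s) = ∫⁻ x, Ψ x := fun s =>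
      lintegral_add_right_eq_self Ψ (g s)
    simp_rw [h3]
    rw [lintegral_const, UnitAddCircle.measure_univ, mul_one]
  have h4 : ∫⁻ s : UnitAddCircle, ∫⁻ x, Ψ (x + g s) = ∫⁻ x, ∫⁻ s : UnitAddCircle, Ψ (x + g s) := by
    refine lintegral_lintegral_swap (Measurable.aemeasurable ?_)
    refine (measurable_np δ).comp (Continuous.measurable ?_)
    exact hcont.comp (continuous_snd.add (hgc.comp continuous_fst))
  have h5 : ∫⁻ x, ∫⁻ s : UnitAddCircle, Ψ (x + g s) ≤ ∫⁻ _ : σ → UnitAddCircle, C := by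
    refine lintegral_mono fun x => ?_
    simp only [hΨ, heval]
    exact lintegral_poly hδ0.le hnδ (hdeg x) (hlead x).ge
  rw [lintegral_const, volume_univ_torus, mul_one] at h5
  rw [h2, h4]
  exact ne_top_of_le_ne_top hCtop h5

end Pool.Agent.J6H91.Tor
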