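import Pool.Agent.J6H91.Tor.Wide
import Pool.Agent.J6H91.Tor.Homog
import Pool.Agent.J6H91.Tor.Kron

/-!
# Polynomials which are not toral are cyclic beyond `1 / d`
-/

set_option autoImplicit false
set_option linter.unusedSectionVars false

open MvPolynomial Filter Topology MeasureTheory
open scoped ENNReal
open Pool.Agent.J6H91.Cyc

namespace Pool.Agent.J6H91.Tor

variable {σ : Type} [Fintype σ] [DecidableEq σ]

theorem coeff_invR (P : MvPolynomial σ ℂ) (r : ℝ) (k : σ →₀ ℕ) :
    MvPowerSeries.coeff k (invR P r) =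
      (r : ℂ) ^ (∑ j, k j) * MvPowerSeries.coeff k ((P : MvPowerSeries σ ℂ)⁻¹) := by
  rw [invR, MvPowerSeries.coeff_rescale, Finsupp.prod_fintype _ _ (by simp),
    Finset.prod_pow_eq_pow_sum]

theorem weight_mul_pow_bounded (t : ℝ) {x : ℝ} (hx0 : 0 ≤ x) (hx1 : x < 1) :
    ∃ K : ℝ, ∀ k : σ →₀ ℕ, weight t k * x ^ (∑ j, k j) ≤ K := by
  obtain ⟨C, hC⟩ := (summable_rpow_mul_geometric (-t) x hx0 hx1).tendsto_atTop_zero.bddAbove_range
  have hC1 : ∀ n : ℕ, ((n : ℝ) + 1) ^ t * x ^ n ≤ C := by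
    intro n
    refine hC ⟨n, ?_⟩
    simp only
    rw [Real.rpow_neg (by positivity), inv_inv]
  refine ⟨∏ _j : σ, C, fun k => ?_⟩
  unfold weight
  rw [← Finset.prod_pow_eq_pow_sum, ← Finset.prod_mul_distrib]
  exact Finset.prod_le_prod (fun j _ => by positivity) fun j _ => hC1 (k j)

theorem memD_invR {P : MvPolynomial σ ℂ} (hP : ZeroFree P) (t : ℝ) {r : ℝ} (hr0 : 0 ≤ r)
    (hr1 : r < 1) : MemD t (fun k => MvPowerSeries.coeff k (invR P r)) := by
  set r' : ℝ := (1 + r) / 2 with hr'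
  have h0 : 0 < r' := by
    rw [hr']
    linarith
  have h1 : r' < 1 := by
    rw [hr']
    linarith
  set x : ℝ := r / r' with hx
  have hx0 : 0 ≤ x := by positivity
  have hx1 : x < 1 := by
    rw [hx, div_lt_one h0, hr']
    linarith
  have hxr : r = x * r' := by
    rw [hx]
    field_simp
  have hmem : MemD 0 (fun k => MvPowerSeries.coeff k (invR P r')) := by
    obtain ⟨A, B, hAB⟩ := bd_prod_geo h0.le h1 P.totalDegree
    refine (memD_of_slices (t := 0) (by simp) (B := ‖(P.coeff 0)⁻¹‖ ^ 2 * B) fun ζ hζ => ?_).1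
    obtain ⟨s, hs1, hs2, hs3⟩ := slices hP ζ hζ
    rw [(hs3 r').1]
    intro L
    have := (hAB s hs1 hs2).2 L
    calc ∑ n_1 ∈ Finset.range L, ((n_1 : ℝ) + 1) * ‖PowerSeries.coeff n_1
          (PowerSeries.C (P.coeff 0)⁻¹ * (s.map fun b => geo (r' * b)).prod)‖ ^ 2
        = ‖(P.coeff 0)⁻¹‖ ^ 2 * ∑ n_1 ∈ Finset.range L, ((n_1 : ℝ) + 1) *
          ‖PowerSeries.coeff n_1 ((s.map fun b => geo (r' * b)).prod)‖ ^ 2 := by
          rw [Finset.mul_sum]
          refine Finset.sum_congr rfl fun m _ => ?_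
          rw [PowerSeries.coeff_C_mul, norm_mul, mul_pow]
          ring
      _ ≤ _ := mul_le_mul_of_nonneg_left this (by positivity)
  obtain ⟨K, hK⟩ := weight_mul_pow_bounded (σ := σ) t (x := x ^ 2) (by positivity)
    (by nlinarith)
  unfold MemD at hmem ⊢
  refine Summable.of_nonneg_of_le (fun k => mul_nonneg (weight_nonneg _ _) (by positivity))
    (fun k => ?_) (hmem.mul_left K)
  have e1 : weight 0 k = 1 := by
    unfold weight
    simp
  have e2 : ‖MvPowerSeries.coeff k (invR P r)‖ ^ 2 =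
      (x ^ 2) ^ (∑ j, k j) * ‖MvPowerSeries.coeff k (invR P r')‖ ^ 2 := by
    rw [coeff_invR, coeff_invR, hxr]
    simp only [norm_mul, norm_pow, Complex.norm_real, Complex.ofReal_mul, Real.norm_of_nonneg hx0,
      Real.norm_of_nonneg h0.le]
    ring
  rw [e2, ← mul_assoc, e1, one_mul]
  exact mul_le_mul_of_nonneg_right (hK k) (by positivity)

/-- the criterion with the approximants `P(z) / P(r z)` -/
theorem approxOne_of_bounded {t : ℝ} {P : MvPolynomial σ ℂ} (hP : ZeroFree P) (C : ℝ)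
    (hC : ∀ r : ℝ, 0 ≤ r → r < 1 → ∀ T : Finset (σ →₀ ℕ), ∑ k ∈ T, weight t k *
      ‖MvPowerSeries.coeff k ((P : MvPowerSeries σ ℂ) * invR P r)‖ ^ 2 ≤ C) : ApproxOne t P := by
  set r : ℕ → ℝ := fun n => 1 - 1 / ((n : ℝ) + 2) with hr
  have hr0 : ∀ n, 0 ≤ r n := by
    intro n
    rw [hr]
    simp only
    rw [sub_nonneg, div_le_one (by positivity)]
    have : (0:ℝ) ≤ n := Nat.cast_nonneg n
    linarith
  have hr1 : ∀ n, r n < 1 := by
    intro n
    rw [hr]
    simp only
    have : 0 < 1 / ((n : ℝ) + 2) := by positivity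
    linarith
  have hrlim : Tendsto r atTop (𝓝 1) := by
    have h1 : Tendsto (fun n : ℕ => 1 / ((n : ℝ) + 2)) atTop (𝓝 0) := by
      have := tendsto_one_div_add_atTop_nhds_zero_nat (𝕜 := ℝ)
      have h2 := (tendsto_add_atTop_iff_nat 1).mpr this
      refine h2.congr fun n => ?_
      push_cast
      ring_nf
    have := h1.const_sub 1
    rw [sub_zero] at this
    exact this
  have hmem : ∀ n, MemD t (fun k => MvPowerSeries.coeff k
      ((P : MvPowerSeries σ ℂ) * invR P (r n))) := fun n =>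
    summable_of_sum_le (fun k => mul_nonneg (weight_nonneg _ _) (by positivity))
      (hC (r n) (hr0 n) (hr1 n))
  refine approxOne_of_weak
    (fun n k => MvPowerSeries.coeff k ((P : MvPowerSeries σ ℂ) * invR P (r n)))
    hmem C
    (fun n => Real.tsum_le_of_sum_le (fun k => mul_nonneg (weight_nonneg _ _) (by positivity))
      (hC (r n) (hr0 n) (hr1 n))) ?_ ?_
  · intro k
    have h1 : (P : MvPowerSeries σ ℂ) * (P : MvPowerSeries σ ℂ)⁻¹ = 1 :=
      MvPowerSeries.mul_inv_cancel _ (constantCoeff_ne hP)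
    have h2 : ((1 : MvPolynomial σ ℂ).coeff k) =
        MvPowerSeries.coeff k ((P : MvPowerSeries σ ℂ) * (P : MvPowerSeries σ ℂ)⁻¹) := by
      rw [h1, ← MvPolynomial.coeff_coe, MvPolynomial.coe_one]
    rw [h2]
    simp_rw [MvPowerSeries.coeff_mul]
    refine tendsto_finsetSum _ fun p _ => ?_
    refine Tendsto.const_mul _ ?_
    simp_rw [coeff_invR]
    have h4 : Tendsto (fun n => ((r n : ℂ))) atTop (𝓝 1) := by
      have := (Complex.continuous_ofReal.tendsto 1).comp hrlim
      rw [Complex.ofReal_one] at this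
      exact this
    have h5 := (h4.pow (∑ j, p.2 j)).mul_const (MvPowerSeries.coeff p.2 ((P : MvPowerSeries σ ℂ)⁻¹))
    simpa using h5
  · intro n ε hε
    have hinv := memD_invR hP t (hr0 n) (hr1 n)
    obtain ⟨C, hC, hC2⟩ := exists_series_mul_bound t P
    obtain ⟨q, hq⟩ := exists_truncation t hinv (ε := ε / C) (by positivity)
    refine ⟨q, ?_⟩
    have h1 := hC2 (invR P (r n) - (q : MvPowerSeries σ ℂ)) (by
      have := hinv.sub (memD_coeff t q)
      refine this.congr fun k => ?_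
      simp only [map_sub, MvPolynomial.coeff_coe])
    have h2 : (fun k => MvPowerSeries.coeff k ((P : MvPowerSeries σ ℂ) * invR P (r n)) -
        (q * P).coeff k) = fun k => MvPowerSeries.coeff k ((P : MvPowerSeries σ ℂ) *
        (invR P (r n) - (q : MvPowerSeries σ ℂ))) := by
      funext k
      rw [mul_sub, map_sub, ← MvPolynomial.coe_mul, MvPolynomial.coeff_coe, mul_comm P q]
    rw [h2]
    refine lt_of_le_of_lt h1.2 ?_
    have h3 : normSq t (fun k => MvPowerSeries.coeff k (invR P (r n) - (q : MvPowerSeries σ ℂ))) =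
        normSq t (fun k => MvPowerSeries.coeff k (invR P (r n)) - q.coeff k) := by
      simp only [map_sub, MvPolynomial.coeff_coe]
    rw [h3]
    calc _ < C * (ε / C) := mul_lt_mul_of_pos_left hq hC
      _ = ε := by field_simp

/-- the slices of `P(z) / P(r z)`, with the zeros of `P` -/
theorem slices' {P : MvPolynomial σ ℂ} (hP : ZeroFree P) (ζ : σ → ℂ) (hζ : ∀ j, ‖ζ j‖ = 1) :
    ∃ s : Multiset ℂ, Multiset.card s ≤ P.totalDegree ∧ (∀ b ∈ s, ‖b‖ ≤ 1) ∧
      (∀ b ∈ s, b ≠ 0 → eval (fun j => b⁻¹ * ζ j) P = 0) ∧ ∀ r : ℝ,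
      slice ζ ((P : MvPowerSeries σ ℂ) * invR P r) = (s.map fun b => fac b r).prod := by
  have h0 : P.coeff 0 ≠ 0 := by
    have := constantCoeff_ne hP
    rwa [← MvPowerSeries.coeff_zero_eq_constantCoeff_apply, MvPolynomial.coeff_coe] at this
  have hp : ∀ x : ℂ, ‖x‖ < 1 → (polySlice ζ P).eval x ≠ 0 := by
    intro x hx
    rw [eval_polySlice]
    refine hP _ fun j => ?_
    rw [norm_mul, hζ, mul_one]
    exact hx
  obtain ⟨s, hs1, hs2, hs3⟩ := exists_factor _ hp
  have hs3' := hs3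
  have he0 : (polySlice ζ P).eval 0 = P.coeff 0 := by
    rw [eval_polySlice]
    simp only [zero_mul]
    rw [show (fun _ : σ => (0:ℂ)) = 0 from rfl, MvPolynomial.eval_zero]
    rfl
  rw [he0] at hs3
  have hdeg : (polySlice ζ P).natDegree ≤ P.totalDegree := by
    have := MvPolynomial.aeval_natDegree_le (m := P.totalDegree) (n := 1) P le_rfl
      (fun j => Polynomial.C (ζ j) * Polynomial.X)
      (fun j => (Polynomial.natDegree_C_mul_le _ _).trans Polynomial.natDegree_X_le)
    rw [mul_one] at this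
    exact this
  have hsl : slice ζ (P : MvPowerSeries σ ℂ) = PowerSeries.C (P.coeff 0) *
      (s.map fun b => 1 - PowerSeries.C b * PowerSeries.X).prod := by
    rw [slice_poly, hs3, Polynomial.coe_mul, coe_prod_factors, Polynomial.coe_C]
  have hinv : ∀ r : ℝ, slice ζ (invR P r) =
      PowerSeries.C (P.coeff 0)⁻¹ * (s.map fun b => geo (r * b)).prod := by
    intro r
    have h1 : (P : MvPowerSeries σ ℂ) * (P : MvPowerSeries σ ℂ)⁻¹ = 1 :=
      MvPowerSeries.mul_inv_cancel _ (constantCoeff_ne hP)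
    have h2 := congrArg (fun G => slice ζ (MvPowerSeries.rescale (fun _ => (r : ℂ)) G)) h1
    simp only [map_mul, map_one, slice_mul, slice_one] at h2
    rw [slice_rescale, hsl, map_mul, rescale_prod_factors] at h2
    have h3 : PowerSeries.rescale (r : ℂ) (PowerSeries.C (P.coeff 0)) =
        PowerSeries.C (P.coeff 0) := by
      ext n
      rw [PowerSeries.coeff_rescale, PowerSeries.coeff_C]
      split_ifs with h <;> simp [h]
    rw [h3] at h2
    have h4 := prod_geo_mul (r : ℂ) s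
    have h5 : PowerSeries.C (P.coeff 0)⁻¹ * PowerSeries.C (P.coeff 0) = 1 := by
      rw [← map_mul, inv_mul_cancel₀ h0, map_one]
    change slice ζ (MvPowerSeries.rescale (fun _ => (r : ℂ)) ((P : MvPowerSeries σ ℂ)⁻¹)) = _
    set A := slice ζ (MvPowerSeries.rescale (fun _ => (r : ℂ)) ((P : MvPowerSeries σ ℂ)⁻¹))
    set Q := (s.map fun b : ℂ => 1 - PowerSeries.C ((r : ℂ) * b) * PowerSeries.X).prod
    set K := (s.map fun b : ℂ => geo ((r : ℂ) * b)).prod
    calc A = (PowerSeries.C (P.coeff 0)⁻¹ * PowerSeries.C (P.coeff 0)) * (K * Q) * A := by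
          rw [h5, h4]; ring
      _ = PowerSeries.C (P.coeff 0)⁻¹ * K * (PowerSeries.C (P.coeff 0) * Q * A) := by ring
      _ = _ := by rw [h2, mul_one]
  refine ⟨s, hs1.trans hdeg, hs2, fun b hb hb0 => ?_, fun r => ?_⟩
  · rw [← eval_polySlice, hs3', Polynomial.eval_mul]
    have h1 : ((s.map fun b => 1 - Polynomial.C b * Polynomial.X).prod).eval b⁻¹ = 0 := by
      rw [Polynomial.eval_multiset_prod, Multiset.map_map, Multiset.prod_eq_zero_iff,
        Multiset.mem_map]
      refine ⟨b, hb, ?_⟩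
      simp [mul_inv_cancel₀ hb0]
    rw [h1, mul_zero]
  · rw [slice_mul, hinv, hsl, prod_fac_eq]
    have h5 : PowerSeries.C (P.coeff 0) * PowerSeries.C (P.coeff 0)⁻¹ = 1 := by
      rw [← map_mul, mul_inv_cancel₀ h0, map_one]
    calc _ = (PowerSeries.C (P.coeff 0) * PowerSeries.C (P.coeff 0)⁻¹) *
          ((s.map fun b => 1 - PowerSeries.C b * PowerSeries.X).prod *
          (s.map fun b => geo (r * b)).prod) := by ring
      _ = _ := by rw [h5, one_mul]

end Pool.Agent.J6H91.Tor
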