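import Pool.Agent.J6H91.Tor.Parts
import Pool.Agent.J6H91.Cyc.Main3

/-!
# The energy of the functional of a branch
-/

set_option autoImplicit false
set_option linter.unusedSectionVars false

open MeasureTheory Complex Filter Topology
open scoped Real ContDiff

namespace Pool.Agent.J6H91.Tor

variable {τ : Type} [Fintype τ] [DecidableEq τ]

theorem sum_bound_zero {N : Set (τ → ℝ)} {W : (τ → ℝ) → ℂ} (hW : Branch N W) {c : τ → ℝ}
    (hN : N ⊆ cube c) {g : (τ → ℝ) → ℂ} (hg : Amp N g) (m : ℕ) (T : Finset (τ →₀ ℕ)) :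
    ∑ k ∈ T, ‖II W g k m‖ ^ 2 ≤ ∫ x in cube c, ‖g x‖ ^ 2 := by
  have hA : Amp N (fun x => g x * W x ^ m) := hg.mul fun x hx => (hW.smooth x hx).pow m
  have h1 := bessel c hA.1.continuous hA.2.1 T
  have h2 : ∀ k, II W g k m = ∫ x in cube c, (g x * W x ^ m) * ex k x := by
    intro k
    unfold II
    rw [setIntegral_eq_integral_of_forall_compl_eq_zero]
    · refine integral_congr_ae (ae_of_all _ fun x => ?_)
      simp only
      ring
    · intro x hx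
      have h3 : g x = 0 := image_eq_zero_of_notMem_tsupport fun h => hx (hN (hg.2.2 h))
      rw [h3]
      simp
  simp only [h2]
  refine h1.trans (le_of_eq ?_)
  refine integral_congr_ae (ae_of_all _ fun x => ?_)
  simp only
  by_cases hx : x ∈ tsupport g
  · rw [norm_mul, norm_pow, hW.norm_one x (hg.2.2 hx), one_pow, mul_one]
  · rw [image_eq_zero_of_notMem_tsupport hx]
    simp

theorem sum_bound {N : Set (τ → ℝ)} {W : (τ → ℝ) → ℂ} (hW : Branch N W) {c : τ → ℝ}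
    (hN : N ⊆ cube c) (S : Finset τ) : ∀ g : (τ → ℝ) → ℂ, Amp N g → ∃ C : ℝ, 0 ≤ C ∧
      ∀ (m : ℕ) (T : Finset (τ →₀ ℕ)),
        ∑ k ∈ T, (∏ j ∈ S, ((k j : ℝ) + 1) ^ 2)⁻¹ * ‖II W g k m‖ ^ 2 ≤
          C * ((((m : ℝ) + 1) ^ 2) ^ S.card)⁻¹ := by
  induction S using Finset.induction_on with
  | empty =>
    intro g hg
    refine ⟨∫ x in cube c, ‖g x‖ ^ 2, integral_nonneg fun x => by positivity, fun m T => ?_⟩
    simp only [Finset.prod_empty, inv_one, one_mul, Finset.card_empty, pow_zero, mul_one]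
    exact sum_bound_zero hW hN hg m T
  | insert j S hj ih =>
    intro g hg
    obtain ⟨g1, g2, hg1, hg2, hparts⟩ := parts hW hg j
    obtain ⟨C0, hC0, h0⟩ := ih g hg
    obtain ⟨C1, hC1, h1⟩ := ih g1 hg1
    obtain ⟨C2, hC2, h2⟩ := ih g2 hg2
    refine ⟨12 * π ^ 2 * (C0 + C1 + C2), by positivity, fun m T => ?_⟩
    have hM : (0:ℝ) < (m:ℝ) + 1 := by positivity
    have key : ∀ k : τ →₀ ℕ, (((k j : ℝ) + 1) ^ 2)⁻¹ * ‖II W g k m‖ ^ 2 ≤
        12 * π ^ 2 * (((m : ℝ) + 1) ^ 2)⁻¹ *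
          (‖II W g k m‖ ^ 2 + ‖II W g1 k m‖ ^ 2 + ‖II W g2 k m‖ ^ 2) := by
      intro k
      have hk : (0:ℝ) < (k j : ℝ) + 1 := by positivity
      have hk0 : (0:ℝ) ≤ (k j : ℝ) := by positivity
      set a := ‖II W g k m‖ with ha
      set b := ‖II W g1 k m‖ with hb
      set e := ‖II W g2 k m‖ with he
      have ha0 : 0 ≤ a := norm_nonneg _
      have hb0 : 0 ≤ b := norm_nonneg _
      have he0 : 0 ≤ e := norm_nonneg _
      have hpi : (3:ℝ) < π := Real.pi_gt_three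
      have e1 : (m:ℝ) * a ≤ b + 2 * π * k j * e := by
        have e2 := hparts k m
        have e3 : ‖(m : ℂ) * II W g k m‖ = m * a := by
          rw [norm_mul, Complex.norm_natCast]
        rw [← e3, e2]
        refine (norm_sub_le _ _).trans (le_of_eq ?_)
        rw [norm_neg, norm_mul, norm_mul, norm_mul, norm_mul, Complex.norm_natCast,
          Complex.norm_I, Complex.norm_real, Real.norm_of_nonneg Real.pi_pos.le, mul_one, hb, he]
        norm_num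
      have e4 : ((m:ℝ) + 1) * a ≤ 2 * π * ((k j : ℝ) + 1) * (a + b + e) := by
        have e5 : b ≤ 2 * π * ((k j : ℝ) + 1) * b := by
          have : 1 ≤ 2 * π * ((k j : ℝ) + 1) := by nlinarith
          nlinarith
        have e6 : a ≤ 2 * π * ((k j : ℝ) + 1) * a := by
          have : 1 ≤ 2 * π * ((k j : ℝ) + 1) := by nlinarith
          nlinarith
        have e7 : 2 * π * k j * e ≤ 2 * π * ((k j : ℝ) + 1) * e := by
          have : 0 ≤ 2 * π * e := by positivity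
          nlinarith
        nlinarith
      have e8 : (((m:ℝ) + 1) * a) ^ 2 ≤ (2 * π * ((k j : ℝ) + 1) * (a + b + e)) ^ 2 := by
        gcongr
      have e9 : (a + b + e) ^ 2 ≤ 3 * (a ^ 2 + b ^ 2 + e ^ 2) := by
        nlinarith [sq_nonneg (a - b), sq_nonneg (b - e), sq_nonneg (a - e)]
      have e10 : ((m:ℝ) + 1) ^ 2 * a ^ 2 ≤
          12 * π ^ 2 * ((k j : ℝ) + 1) ^ 2 * (a ^ 2 + b ^ 2 + e ^ 2) := by
        have e11 : (2 * π * ((k j : ℝ) + 1) * (a + b + e)) ^ 2 =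
            4 * π ^ 2 * ((k j : ℝ) + 1) ^ 2 * (a + b + e) ^ 2 := by ring
        rw [e11, mul_pow] at e8
        refine e8.trans ?_
        have e12 : 0 ≤ 4 * π ^ 2 * ((k j : ℝ) + 1) ^ 2 := by positivity
        nlinarith [mul_le_mul_of_nonneg_left e9 e12]
      rw [inv_mul_le_iff₀ (by positivity)]
      have e13 : ((k j : ℝ) + 1) ^ 2 * (12 * π ^ 2 * (((m : ℝ) + 1) ^ 2)⁻¹ *
          (a ^ 2 + b ^ 2 + e ^ 2)) = (12 * π ^ 2 * ((k j : ℝ) + 1) ^ 2 *
          (a ^ 2 + b ^ 2 + e ^ 2)) / ((m : ℝ) + 1) ^ 2 := by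
        field_simp
      rw [e13, le_div_iff₀ (by positivity), mul_comm]
      exact e10
    have h3 : ∀ k ∈ T, (∏ i ∈ insert j S, ((k i : ℝ) + 1) ^ 2)⁻¹ * ‖II W g k m‖ ^ 2 ≤
        12 * π ^ 2 * (((m : ℝ) + 1) ^ 2)⁻¹ *
          ((∏ i ∈ S, ((k i : ℝ) + 1) ^ 2)⁻¹ * ‖II W g k m‖ ^ 2 +
          (∏ i ∈ S, ((k i : ℝ) + 1) ^ 2)⁻¹ * ‖II W g1 k m‖ ^ 2 +
          (∏ i ∈ S, ((k i : ℝ) + 1) ^ 2)⁻¹ * ‖II W g2 k m‖ ^ 2) := by
      intro k _
      rw [Finset.prod_insert hj, mul_inv]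
      have h4 : (0:ℝ) ≤ (∏ i ∈ S, ((k i : ℝ) + 1) ^ 2)⁻¹ := by positivity
      have h5 := mul_le_mul_of_nonneg_left (key k) h4
      linarith
    refine (Finset.sum_le_sum h3).trans ?_
    rw [← Finset.mul_sum, Finset.sum_add_distrib, Finset.sum_add_distrib, Finset.card_insert_of_notMem hj,
      pow_succ (((m : ℝ) + 1) ^ 2) S.card, mul_inv]
    have h6 := h0 m T
    have h7 := h1 m T
    have h8 := h2 m T
    have h9 : (0:ℝ) ≤ 12 * π ^ 2 * (((m : ℝ) + 1) ^ 2)⁻¹ := by positivity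
    have h10 := mul_le_mul_of_nonneg_left (add_le_add (add_le_add h6 h7) h8) h9
    refine h10.trans (le_of_eq ?_)
    ring

theorem rpow_neg_le_one_add {y t : ℝ} (hy : 0 < y) (ht0 : 0 ≤ t) (ht2 : t ≤ 2) :
    (y ^ t)⁻¹ ≤ 1 + (y ^ 2)⁻¹ := by
  rcases le_total 1 y with h | h
  · have h1 : 1 ≤ y ^ t := Real.one_le_rpow h ht0
    have h2 : (y ^ t)⁻¹ ≤ 1 := inv_le_one_of_one_le₀ h1
    have h3 : 0 ≤ (y ^ 2)⁻¹ := by positivity
    linarith
  · have h1 : y ^ (2:ℝ) ≤ y ^ t := Real.rpow_le_rpow_of_exponent_ge hy h ht2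
    rw [Real.rpow_two] at h1
    have h2 : (y ^ t)⁻¹ ≤ (y ^ 2)⁻¹ := inv_anti₀ (by positivity) h1
    linarith

theorem sum_bound_rpow {N : Set (τ → ℝ)} {W : (τ → ℝ) → ℂ} (hW : Branch N W) {c : τ → ℝ}
    (hN : N ⊆ cube c) {g : (τ → ℝ) → ℂ} (hg : Amp N g) {t : ℝ} (ht0 : 0 ≤ t) (ht2 : t ≤ 2) :
    ∃ C : ℝ, 0 ≤ C ∧ ∀ (m : ℕ) (T : Finset (τ →₀ ℕ)),
        ∑ k ∈ T, (∏ j, ((k j : ℝ) + 1) ^ t)⁻¹ * ‖II W g k m‖ ^ 2 ≤
          C * ((((m : ℝ) + 1) ^ t) ^ Fintype.card τ)⁻¹ := by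
  choose C hC0 hC using fun S => sum_bound hW hN S g hg
  refine ⟨∑ S ∈ Finset.univ.powerset, C S, Finset.sum_nonneg fun S _ => hC0 S, fun m T => ?_⟩
  have hM : (0:ℝ) < (m:ℝ) + 1 := by positivity
  set M : ℝ := (m:ℝ) + 1 with hMdef
  have h1 : ∀ k : τ →₀ ℕ, (∏ j, ((k j : ℝ) + 1) ^ t)⁻¹ ≤
      ((M ^ t) ^ Fintype.card τ)⁻¹ * ∑ S ∈ Finset.univ.powerset,
        (M ^ 2) ^ S.card * (∏ j ∈ S, ((k j : ℝ) + 1) ^ 2)⁻¹ := by
    intro k
    have h2 : ∀ j, (((k j : ℝ) + 1) ^ t)⁻¹ ≤ (M ^ t)⁻¹ * (M ^ 2 * (((k j : ℝ) + 1) ^ 2)⁻¹ + 1) := by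
      intro j
      have hk : (0:ℝ) < (k j : ℝ) + 1 := by positivity
      have h3 := rpow_neg_le_one_add (y := ((k j : ℝ) + 1) / M) (by positivity) ht0 ht2
      have h4 : (((k j : ℝ) + 1) ^ t)⁻¹ = (M ^ t)⁻¹ * ((((k j : ℝ) + 1) / M) ^ t)⁻¹ := by
        rw [Real.div_rpow hk.le hM.le]
        have : M ^ t ≠ 0 := (Real.rpow_pos_of_pos hM t).ne'
        field_simp
      rw [h4]
      refine mul_le_mul_of_nonneg_left (h3.trans (le_of_eq ?_)) (by positivity)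
      rw [div_pow, inv_div]
      ring
    rw [← Finset.prod_inv_distrib]
    refine (Finset.prod_le_prod (fun j _ => by positivity) fun j _ => h2 j).trans (le_of_eq ?_)
    rw [Finset.prod_mul_distrib, Finset.prod_const, Finset.card_univ, inv_pow, Finset.prod_add_one]
    congr 1
    refine Finset.sum_congr rfl fun S _ => ?_
    rw [Finset.prod_mul_distrib, Finset.prod_const, Finset.prod_inv_distrib]
  have h5 : ∀ k ∈ T, (∏ j, ((k j : ℝ) + 1) ^ t)⁻¹ * ‖II W g k m‖ ^ 2 ≤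
      ((M ^ t) ^ Fintype.card τ)⁻¹ * ∑ S ∈ Finset.univ.powerset,
        (M ^ 2) ^ S.card * ((∏ j ∈ S, ((k j : ℝ) + 1) ^ 2)⁻¹ * ‖II W g k m‖ ^ 2) := by
    intro k _
    refine (mul_le_mul_of_nonneg_right (h1 k) (by positivity)).trans (le_of_eq ?_)
    rw [mul_assoc, Finset.sum_mul]
    congr 1
    exact Finset.sum_congr rfl fun S _ => by ring
  refine (Finset.sum_le_sum h5).trans ?_
  rw [← Finset.mul_sum, Finset.sum_comm, mul_comm (∑ S ∈ Finset.univ.powerset, C S)]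
  refine mul_le_mul_of_nonneg_left (Finset.sum_le_sum fun S _ => ?_) (by positivity)
  rw [← Finset.mul_sum]
  have h6 := hC S m T
  have h7 : (0:ℝ) < (M ^ 2) ^ S.card := by positivity
  calc (M ^ 2) ^ S.card * ∑ k ∈ T, (∏ j ∈ S, ((k j : ℝ) + 1) ^ 2)⁻¹ * ‖II W g k m‖ ^ 2
      ≤ (M ^ 2) ^ S.card * (C S * ((M ^ 2) ^ S.card)⁻¹) := mul_le_mul_of_nonneg_left h6 h7.le
    _ = C S := by field_simp

theorem summable_energy {N : Set (τ → ℝ)} {W : (τ → ℝ) → ℂ} (hW : Branch N W) {c : τ → ℝ}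
    (hN : N ⊆ cube c) {g : (τ → ℝ) → ℂ} (hg : Amp N g) {t : ℝ} (ht0 : 0 ≤ t) (ht2 : t ≤ 2)
    (ht : 1 < t * (Fintype.card τ + 1)) :
    Summable fun k : Option τ →₀ ℕ => (Cyc.weight t k)⁻¹ * ‖II W g k.some (k none)‖ ^ 2 := by
  obtain ⟨C, hC0, hC⟩ := sum_bound_rpow hW hN hg ht0 ht2
  set f : ℕ × (τ →₀ ℕ) → ℝ := fun q => (((q.1 : ℝ) + 1) ^ t)⁻¹ *
    ((∏ j, ((q.2 j : ℝ) + 1) ^ t)⁻¹ * ‖II W g q.2 q.1‖ ^ 2) with hf
  have hf0 : 0 ≤ f := fun q => by rw [hf]; positivity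
  have hsum : Summable f := by
    rw [summable_prod_of_nonneg hf0]
    have h1 : ∀ m : ℕ, Summable fun k : τ →₀ ℕ =>
        (∏ j, ((k j : ℝ) + 1) ^ t)⁻¹ * ‖II W g k m‖ ^ 2 := fun m =>
      summable_of_sum_le (fun k => by positivity) (hC m)
    have h1' : ∀ m : ℕ, Summable fun k : τ →₀ ℕ => f (m, k) := by
      intro m
      simp only [hf]
      exact (h1 m).mul_left ((((m : ℝ) + 1) ^ t)⁻¹)
    refine ⟨h1', ?_⟩
    have h2 : ∀ m : ℕ, ∑' k : τ →₀ ℕ, f (m, k) ≤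
        C * (((m : ℝ) + 1) ^ (t * (Fintype.card τ + 1)))⁻¹ := by
      intro m
      have hM : (0:ℝ) < (m:ℝ) + 1 := by positivity
      rw [hf]
      simp only
      rw [tsum_mul_left]
      have h3 : ∑' k : τ →₀ ℕ, (∏ j, ((k j : ℝ) + 1) ^ t)⁻¹ * ‖II W g k m‖ ^ 2 ≤
          C * ((((m : ℝ) + 1) ^ t) ^ Fintype.card τ)⁻¹ :=
        Summable.tsum_le_of_sum_le (h1 m) (hC m)
      refine (mul_le_mul_of_nonneg_left h3 (by positivity)).trans (le_of_eq ?_)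
      have h4 : ((m:ℝ) + 1) ^ (t * (Fintype.card τ + 1)) =
          ((m:ℝ) + 1) ^ t * (((m : ℝ) + 1) ^ t) ^ Fintype.card τ := by
        rw [mul_add, mul_one, Real.rpow_add hM, mul_comm, Real.rpow_mul hM.le, Real.rpow_natCast]
      rw [h4, mul_inv]
      ring
    refine Summable.of_nonneg_of_le (fun m => tsum_nonneg fun k => hf0 (m, k)) h2 ?_
    refine Summable.mul_left _ ?_
    have h5 := (summable_nat_add_iff 1).mpr (Real.summable_nat_rpow_inv.mpr ht)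
    exact_mod_cast h5
  have hinj : Function.Injective fun k : Option τ →₀ ℕ => (k none, k.some) := by
    intro k l hkl
    simp only [Prod.mk.injEq] at hkl
    ext o
    cases o with
    | none => exact hkl.1
    | some i =>
      have := DFunLike.congr_fun hkl.2 i
      simpa using this
  refine (hsum.comp_injective hinj).congr fun k => ?_
  rw [hf]
  simp only [Function.comp_apply, Finsupp.some_apply]
  unfold Cyc.weight
  rw [Fintype.prod_option, mul_inv]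
  ring

end Pool.Agent.J6H91.Tor
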