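import Pool.Agent.J6H91.Tor.Branch
import Pool.Agent.J6H91.Tor.Sum

/-!
# Self-reflective polynomials in `k` variables are not cyclic for `t > 1 / k`
-/

set_option autoImplicit false
set_option linter.unusedSectionVars false

open MvPolynomial Filter Topology MeasureTheory
open scoped Real ContDiff
open Pool.Agent.J6H91.Cyc

namespace Pool.Agent.J6H91.Tor

section option

variable {τ : Type} [Fintype τ] [DecidableEq τ]

theorem ev_eq_sum (P : MvPolynomial (Option τ) ℂ) (x : τ → ℝ) (w : ℂ) :
    ev (zt x) w P = ∑ k ∈ P.support, P.coeff k * (ex k.some x * w ^ k none) := by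
  unfold ev
  rw [MvPolynomial.eval_eq']
  refine Finset.sum_congr rfl fun k _ => ?_
  rw [Fintype.prod_option]
  unfold ex
  simp only [Option.elim_none, Option.elim_some, Finsupp.some_apply]
  ring

theorem not_approxOne_option {F : MvPolynomial (Option τ) ℂ} (hF : Irreducible F)
    (hv : ∀ o, o ∈ F.vars) (hz : ZeroFree F) (hr : F ∣ refl F) {t : ℝ}
    (ht : 1 < t * (Fintype.card τ + 1)) : ¬ ApproxOne t F := by
  obtain ⟨x₀, w₀, h0, hd, h1⟩ := exists_good_point hF hv hz hr
  obtain ⟨N, W, hNo, hxN, hNc, hW, hWF⟩ := exists_branch h0 hd h1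
  obtain ⟨ε, hε, hball⟩ := Metric.isOpen_iff.mp hNo x₀ hxN
  let χ : ContDiffBump x₀ := ⟨ε / 4, ε / 2, by positivity, by linarith⟩
  set g : (τ → ℝ) → ℂ := fun x => ((χ x : ℝ) : ℂ) with hg
  have hgs : ContDiff ℝ ∞ g := Complex.ofRealCLM.contDiff.comp χ.contDiff
  have hgsupp : Function.support g = Function.support χ := by
    ext x
    simp [hg, Function.mem_support]
  have hgt : tsupport g = Metric.closedBall x₀ (ε / 2) := by
    have h2 : tsupport g = tsupport χ := by
      unfold tsupport
      rw [hgsupp]
    rw [h2, χ.tsupport_eq]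
  have hA : Amp N g := by
    refine ⟨hgs, ?_, ?_⟩
    · unfold HasCompactSupport
      rw [hgt]
      exact isCompact_closedBall _ _
    · rw [hgt]
      exact (Metric.closedBall_subset_ball (by linarith)).trans hball
  have hgint : ∫ x, g x ≠ 0 := by
    rw [hg, integral_complex_ofReal]
    have : 0 < ∫ x, χ x := χ.integral_pos
    exact_mod_cast this.ne'
  set φ : (Option τ →₀ ℕ) → ℂ := fun k => II W g k.some (k none) with hφ
  have hcard : (1:ℝ) ≤ Fintype.card τ + 1 := by
    have : (0:ℝ) ≤ Fintype.card τ := Nat.cast_nonneg _
    linarith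
  have ht0 : 0 < t := by
    by_contra hcon
    push Not at hcon
    have : t * (Fintype.card τ + 1) ≤ 0 := mul_nonpos_of_nonpos_of_nonneg hcon (by linarith)
    linarith
  have hsum : Summable fun k => (weight t k)⁻¹ * ‖φ k‖ ^ 2 := by
    rcases le_total t 2 with ht2 | ht2
    · exact summable_energy hW hNc hA ht0.le ht2 ht
    · refine Summable.of_nonneg_of_le (fun k => mul_nonneg (inv_nonneg.mpr (weight_nonneg _ _))
        (by positivity)) (fun k => ?_)
        (summable_energy hW hNc hA zero_le_two le_rfl (by linarith))
      refine mul_le_mul_of_nonneg_right ?_ (by positivity)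
      refine inv_anti₀ (weight_pos _ _) ?_
      unfold weight
      refine Finset.prod_le_prod (fun j _ => by positivity) fun j _ => ?_
      exact Real.rpow_le_rpow_of_exponent_le (by
        have : (0:ℝ) ≤ k j := Nat.cast_nonneg _
        linarith) ht2
  have hann : ∀ β : Option τ →₀ ℕ, ∑ k ∈ F.support, F.coeff k * φ (β + k) = 0 := by
    intro β
    have h2 : ∀ k ∈ F.support, F.coeff k * φ (β + k) =
        ∫ x, F.coeff k * (g x * (ex (β + k).some x * W x ^ (β + k) none)) := by
      intro k _
      rw [integral_const_mul]
      rfl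
    rw [Finset.sum_congr rfl h2, ← integral_finsetSum]
    · rw [← integral_zero (τ → ℝ) ℂ (μ := volume)]
      refine integral_congr_ae (ae_of_all _ fun x => ?_)
      simp only
      by_cases hx : x ∈ tsupport g
      · have h3 := hWF x (hA.2.2 hx)
        rw [ev_eq_sum] at h3
        have h4 : ∑ k ∈ F.support, F.coeff k * (g x * (ex (β + k).some x * W x ^ (β + k) none)) =
            g x * (ex β.some x * W x ^ β none) *
              ∑ k ∈ F.support, F.coeff k * (ex k.some x * W x ^ k none) := by
          rw [Finset.mul_sum]
          refine Finset.sum_congr rfl fun k _ => ?_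
          have h5 : (β + k).some = β.some + k.some := by
            ext i
            simp
          rw [h5, ex_add, Finsupp.add_apply, pow_add]
          ring
        rw [h4, h3, mul_zero]
      · rw [image_eq_zero_of_notMem_tsupport hx]
        simp
    · intro k _
      refine Integrable.const_mul ?_ _
      exact (hA.mul fun x hx => (contDiff_ex _).contDiffAt.mul ((hW.smooth x hx).pow _)).integrable
  have h10 : functional φ 1 = ∫ x, g x := by
    have h2 : (1 : MvPolynomial (Option τ) ℂ) = monomial 0 1 := rfl
    rw [h2, functional_monomial, one_mul, hφ]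
    simp only
    unfold II
    refine integral_congr_ae (ae_of_all _ fun x => ?_)
    have h3 : (0 : Option τ →₀ ℕ).some = 0 := by
      ext i
      simp
    simp only [h3, Finsupp.coe_zero, Pi.zero_apply, pow_zero, mul_one]
    unfold ex
    simp
  refine not_approxOne_of_functional hsum (fun q => ?_) (by rw [h10]; exact hgint)
  rw [functional_sub, functional_mul_eq_zero hann, sub_zero]

end option

section rename

variable {σ τ : Type} [Fintype σ] [Fintype τ]

/-- restriction to fewer variables -/
theorem approxOne_of_rename {t : ℝ} {e : τ → σ} (he : Function.Injective e)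
    {Q : MvPolynomial τ ℂ} (h : ApproxOne t (rename e Q)) : ApproxOne t Q := by
  intro ε hε
  obtain ⟨q, hq⟩ := h ε hε
  refine ⟨killCompl he q, lt_of_le_of_lt ?_ hq⟩
  have h1 : ∀ k : τ →₀ ℕ, (1 - killCompl he q * Q).coeff k =
      (1 - q * rename e Q).coeff (k.mapDomain e) := by
    intro k
    rw [← coeff_killCompl he, map_sub, map_one, map_mul, killCompl_rename_app]
  unfold normSq
  simp only [h1]
  have h2 : ∀ k : τ →₀ ℕ, weight t k = weight t (k.mapDomain e) := fun k =>
    (weight_mapDomain t e he k).symm
  simp only [h2]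
  have hs := memD_coeff t (1 - q * rename e Q)
  exact tsum_comp_le_tsum_of_inj hs (fun k => mul_nonneg (weight_nonneg _ _) (by positivity))
    (Finsupp.mapDomain_injective he)

theorem mapDomain_tsub {e : τ → σ} (he : Function.Injective e) (a b : τ →₀ ℕ) :
    (a - b).mapDomain e = a.mapDomain e - b.mapDomain e := by
  classical
  ext i
  by_cases hi : i ∈ Set.range e
  · obtain ⟨j, rfl⟩ := hi
    rw [Finsupp.tsub_apply, Finsupp.mapDomain_apply he, Finsupp.mapDomain_apply he,
      Finsupp.mapDomain_apply he, Finsupp.tsub_apply]
  · rw [Finsupp.tsub_apply, Finsupp.mapDomain_of_notMem_range _ _ hi,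
      Finsupp.mapDomain_of_notMem_range _ _ hi, Finsupp.mapDomain_of_notMem_range _ _ hi, tsub_zero]

theorem multideg_rename {e : τ → σ} (he : Function.Injective e) (Q : MvPolynomial τ ℂ) :
    multideg (rename e Q) = (multideg Q).mapDomain e := by
  classical
  ext i
  rw [multideg_apply]
  by_cases hi : i ∈ Set.range e
  · obtain ⟨j, rfl⟩ := hi
    rw [Finsupp.mapDomain_apply he, multideg_apply, degreeOf_rename_of_injective he]
  · rw [Finsupp.mapDomain_of_notMem_range _ _ hi]
    by_contra hcon
    have h1 := mem_vars_iff_degreeOf_ne_zero.mpr hcon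
    have h2 := vars_rename e Q h1
    obtain ⟨j, _, hj⟩ := Finset.mem_image.mp h2
    exact hi ⟨j, hj⟩

theorem refl_rename {e : τ → σ} (he : Function.Injective e) (Q : MvPolynomial τ ℂ) :
    refl (rename e Q) = rename e (refl Q) := by
  classical
  rw [refl, refl, support_rename_of_injective he, Finset.sum_image, map_sum]
  · refine Finset.sum_congr rfl fun k _ => ?_
    rw [rename_monomial, coeff_rename_mapDomain e he, multideg_rename he, mapDomain_tsub he]
  · intro a _ b _ hab
    exact Finsupp.mapDomain_injective he hab

theorem dvd_refl_of_rename {e : τ → σ} (he : Function.Injective e) {Q : MvPolynomial τ ℂ}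
    (h : rename e Q ∣ refl (rename e Q)) : Q ∣ refl Q := by
  rw [refl_rename he] at h
  have h1 := map_dvd (killCompl he) h
  rwa [killCompl_rename_app, killCompl_rename_app] at h1

theorem irreducible_of_rename {e : τ → σ} (he : Function.Injective e) {Q : MvPolynomial τ ℂ}
    (h : Irreducible (rename e Q)) : Irreducible Q := by
  constructor
  · intro hu
    exact h.not_isUnit (hu.map (rename e))
  · intro a b hab
    have h1 := h.isUnit_or_isUnit (a := rename e a) (b := rename e b) (by rw [← map_mul, hab])
    rcases h1 with h1 | h1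
    · left
      have := h1.map (killCompl he)
      rwa [killCompl_rename_app] at this
    · right
      have := h1.map (killCompl he)
      rwa [killCompl_rename_app] at this

theorem mem_vars_of_rename {e : τ → σ} (he : Function.Injective e) {Q : MvPolynomial τ ℂ}
    {i : τ} (h : e i ∈ (rename e Q).vars) : i ∈ Q.vars := by
  rw [mem_vars_iff_degreeOf_ne_zero, degreeOf_rename_of_injective he] at h
  exact mem_vars_iff_degreeOf_ne_zero.mpr h

end rename

section main

variable {σ : Type} [Fintype σ]

/-- **Non-cyclicity.** -/
theorem not_approxOne_of_refl {F : MvPolynomial σ ℂ} (hF : Irreducible F) (hz : ZeroFree F)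
    (hr : F ∣ refl F) {t : ℝ} (ht : 1 < t * F.vars.card) : ¬ ApproxOne t F := by
  classical
  have hne : F.vars.Nonempty := by
    rw [Finset.nonempty_iff_ne_empty]
    intro h0
    rw [h0] at ht
    simp at ht
    linarith
  obtain ⟨j, hj⟩ := hne
  let τ := {i : F.vars // i ≠ ⟨j, hj⟩}
  let e : Option τ → σ := fun o => Option.elim o j fun i => i.1.1
  have he : Function.Injective e := by
    intro a b hab
    cases a with
    | none =>
      cases b with
      | none => rfl
      | some b =>
        exfalso
        exact b.2 (Subtype.ext hab.symm)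
    | some a =>
      cases b with
      | none =>
        exfalso
        exact a.2 (Subtype.ext hab)
      | some b =>
        congr 1
        exact Subtype.ext (Subtype.ext hab)
  have hrange : (F.vars : Set σ) ⊆ Set.range e := by
    intro i hi
    by_cases hij : i = j
    · exact ⟨none, hij.symm⟩
    · exact ⟨some ⟨⟨i, hi⟩, fun h => hij (congrArg Subtype.val h)⟩, rfl⟩
  obtain ⟨Q, hQ⟩ := MvPolynomial.exists_rename_eq_of_vars_subset_range F e he hrange
  have hcard : (Fintype.card τ : ℝ) + 1 = F.vars.card := by
    have h1 : Fintype.card τ = F.vars.card - 1 := by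
      rw [Fintype.card_subtype_compl, Fintype.card_subtype_eq, Fintype.card_coe]
    have h2 : 1 ≤ F.vars.card := Finset.card_pos.mpr ⟨j, hj⟩
    have h3 : Fintype.card τ + 1 = F.vars.card := by omega
    exact_mod_cast h3
  have hv : ∀ o, o ∈ Q.vars := by
    intro o
    refine mem_vars_of_rename he ?_
    rw [hQ]
    cases o with
    | none => exact hj
    | some i => exact i.1.2
  intro hcon
  rw [← hQ] at hF hz hr hcon
  exact not_approxOne_option (irreducible_of_rename he hF) hv (ZeroFree.of_rename he hz)
    (dvd_refl_of_rename he hr) (by rw [hcard]; exact ht) (approxOne_of_rename he hcon)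

theorem main_refl {P : MvPolynomial σ ℂ} {t : ℝ}
    (hP : ∀ F : MvPolynomial σ ℂ, Irreducible F → F ∣ P → F ∣ refl F ∨ t * F.vars.card ≤ 1) :
    ShiftCyclic t P ↔ ZeroFree P ∧
      ∀ F : MvPolynomial σ ℂ, Irreducible F → F ∣ P → t * F.vars.card ≤ 1 := by
  rw [shiftCyclic_iff]
  constructor
  · intro h
    have hz : ZeroFree P := by
      intro z hz h0
      exact not_approxOne_of_zero hz h0 h
    refine ⟨hz, fun F hF hFP => ?_⟩
    rcases hP F hF hFP with h1 | h1
    · by_contra hcon
      push Not at hcon
      exact not_approxOne_of_refl hF (hz.of_dvd hFP) h1 hcon (h.of_dvd hFP)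
    · exact h1
  · rintro ⟨hz, h⟩
    have hP0 : P ≠ 0 := by
      rintro rfl
      exact hz 0 (by simp) (by simp)
    exact approxOne_of_factors hP0 fun F hF hFP => approxOne_of_vars (h F hF hFP) (hz.of_dvd hFP)

end main

end Pool.Agent.J6H91.Tor
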