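import Pool.Agent.J6H91.Tor.Dich

/-!
# The critical exponent is `1 / d` exactly for toral polynomials
-/

set_option autoImplicit false
set_option linter.unusedSectionVars false

open MvPolynomial Filter Topology MeasureTheory
open scoped ENNReal
open Pool.Agent.J6H91.Cyc

namespace Pool.Agent.J6H91.Tor

section bounds

variable {σ : Type} [Fintype σ]

/-- polynomials are bounded on the closed polydisc -/
theorem exists_ev_bound (A : MvPolynomial (Option σ) ℂ) : ∃ M : ℝ, 0 ≤ M ∧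
    ∀ (ζ : σ → ℂ) (μ : ℂ), (∀ j, ‖ζ j‖ = 1) → ‖μ‖ ≤ 1 → ‖ev ζ μ A‖ ≤ M := by
  refine ⟨∑ k ∈ A.support, ‖A.coeff k‖, Finset.sum_nonneg fun _ _ => norm_nonneg _,
    fun ζ μ hζ hμ => ?_⟩
  unfold ev
  rw [MvPolynomial.eval_eq']
  refine (norm_sum_le _ _).trans (Finset.sum_le_sum fun k _ => ?_)
  rw [norm_mul, norm_prod]
  refine mul_le_of_le_one_right (norm_nonneg _) (Finset.prod_le_one (fun _ _ => norm_nonneg _)
    fun o _ => ?_)
  rw [norm_pow]
  refine pow_le_one₀ (norm_nonneg _) ?_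
  cases o with
  | none => exact hμ
  | some j => exact (hζ j).le

theorem norm_pow_sub_pow_le {a b : ℂ} (ha : ‖a‖ ≤ 1) (hb : ‖b‖ ≤ 1) (n : ℕ) :
    ‖a ^ n - b ^ n‖ ≤ n * ‖a - b‖ := by
  induction n with
  | zero => simp
  | succ n ih =>
    have h1 : a ^ (n + 1) - b ^ (n + 1) = a ^ n * (a - b) + (a ^ n - b ^ n) * b := by ring
    rw [h1]
    refine (norm_add_le _ _).trans ?_
    rw [norm_mul, norm_mul, norm_pow]
    have h2 : ‖a‖ ^ n ≤ 1 := pow_le_one₀ (norm_nonneg _) ha
    have h3 : ‖a‖ ^ n * ‖a - b‖ ≤ ‖a - b‖ := mul_le_of_le_one_left (norm_nonneg _) h2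
    have h4 : ‖a ^ n - b ^ n‖ * ‖b‖ ≤ ‖a ^ n - b ^ n‖ := mul_le_of_le_one_right (norm_nonneg _) hb
    push_cast
    linarith

/-- polynomials are Lipschitz in the variable `none` -/
theorem exists_ev_lipschitz (A : MvPolynomial (Option σ) ℂ) : ∃ M : ℝ, 0 ≤ M ∧
    ∀ (ζ : σ → ℂ) (μ ν : ℂ), (∀ j, ‖ζ j‖ = 1) → ‖μ‖ ≤ 1 → ‖ν‖ ≤ 1 →
      ‖ev ζ μ A - ev ζ ν A‖ ≤ M * ‖μ - ν‖ := by
  refine ⟨∑ k ∈ A.support, ‖A.coeff k‖ * k none, Finset.sum_nonneg fun _ _ => by positivity,
    fun ζ μ ν hζ hμ hν => ?_⟩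
  unfold ev
  rw [MvPolynomial.eval_eq', MvPolynomial.eval_eq', ← Finset.sum_sub_distrib, Finset.sum_mul]
  refine (norm_sum_le _ _).trans (Finset.sum_le_sum fun k _ => ?_)
  simp_rw [Fintype.prod_option, Option.elim_none, Option.elim_some]
  have h1 : A.coeff k * (μ ^ k none * ∏ j, ζ j ^ k (some j)) -
      A.coeff k * (ν ^ k none * ∏ j, ζ j ^ k (some j)) =
      A.coeff k * ((μ ^ k none - ν ^ k none) * ∏ j, ζ j ^ k (some j)) := by ring
  rw [h1, norm_mul, norm_mul, norm_prod, Finset.prod_eq_one (fun j _ => by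
    rw [norm_pow, hζ, one_pow]), mul_one, mul_assoc]
  exact mul_le_mul_of_nonneg_left (norm_pow_sub_pow_le hμ hν _) (norm_nonneg _)

theorem norm_eval_refl {P : MvPolynomial σ ℂ} {z : σ → ℂ} (hz : ∀ j, ‖z j‖ = 1) :
    ‖eval z (refl P)‖ = ‖eval z P‖ := by
  have hz0 : ∀ j, z j ≠ 0 := fun j => by
    rw [← norm_ne_zero_iff, hz]
    exact one_ne_zero
  rw [eval_refl P hz0, norm_mul, RCLike.norm_conj, norm_prod, Finset.prod_eq_one (fun j _ => by
    rw [norm_pow, hz, one_pow]), one_mul]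
  congr 3
  funext j
  rw [inv_eq_iff_eq_inv, Complex.inv_def, Complex.normSq_eq_norm_sq, hz]
  simp

theorem eval_dehom (G : MvPolynomial (Option σ) ℂ) (ζ : σ → ℂ) :
    eval ζ (aeval (fun o => Option.elim o 1 X) G : MvPolynomial σ ℂ) = ev ζ 1 G := by
  unfold ev
  induction G using MvPolynomial.induction_on with
  | C a => rw [aeval_C, eval_C, MvPolynomial.algebraMap_eq, eval_C]
  | add p q hp hq => rw [map_add, map_add, hp, hq, map_add]
  | mul_X p i hp =>
    rw [map_mul, map_mul, hp, map_mul, aeval_X]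
    cases i with
    | none => simp
    | some j => simp

/-- a polynomial `R ≠ 0` which measures the distance of the zeros of the slices to the circle -/
theorem exists_lower_bound {P : MvPolynomial σ ℂ} (hP : Irreducible P) (hz : ZeroFree P)
    (hd : P.totalDegree ≠ 0) (hr : ¬ P ∣ refl P) : ∃ (R : MvPolynomial σ ℂ) (C : ℝ), R ≠ 0 ∧
      0 < C ∧ ∀ (ζ : σ → ℂ) (b : ℂ), (∀ j, ‖ζ j‖ = 1) → ‖b‖ ≤ 1 →
        (b ≠ 0 → eval (fun j => b⁻¹ * ζ j) P = 0) → ‖eval ζ R‖ ≤ C * (1 - ‖b‖) := by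
  have hirr := irreducible_hmg hP
  have h0 : P.coeff 0 ≠ 0 := by
    have h := hz (fun _ => 0) (by simp)
    rw [show (fun _ : σ => (0:ℂ)) = 0 from rfl, MvPolynomial.eval_zero] at h
    exact h
  have hn := none_mem_vars_hmg h0 hd
  have hG : ¬ hmg P ∣ hmg (refl P) := by
    rintro ⟨G, hG⟩
    apply hr
    refine ⟨aeval (fun o => Option.elim o 1 X) G, MvPolynomial.funext fun ζ => ?_⟩
    have h1 := congrArg (ev ζ 1) hG
    rw [map_mul, ev_one_hmg, ev_one_hmg] at h1
    rw [map_mul, h1, eval_dehom]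
  obtain ⟨A, B, R, hR, hAB⟩ := exists_elim' hirr hn hG
  obtain ⟨MA, hMA0, hMA⟩ := exists_ev_bound A
  obtain ⟨MB, hMB0, hMB⟩ := exists_ev_bound B
  obtain ⟨LF, hLF0, hLF⟩ := exists_ev_lipschitz (hmg P)
  have hRb : ∃ M : ℝ, 0 ≤ M ∧ ∀ ζ : σ → ℂ, (∀ j, ‖ζ j‖ = 1) → ‖eval ζ R‖ ≤ M := by
    refine ⟨∑ k ∈ R.support, ‖R.coeff k‖, Finset.sum_nonneg fun _ _ => norm_nonneg _,
      fun ζ hζ => ?_⟩
    rw [MvPolynomial.eval_eq']
    refine (norm_sum_le _ _).trans (Finset.sum_le_sum fun k _ => ?_)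
    rw [norm_mul, norm_prod, Finset.prod_eq_one (fun j _ => by
      rw [norm_pow, hζ, one_pow]), mul_one]
  obtain ⟨MR, hMR0, hMR⟩ := hRb
  refine ⟨R, LF * (MA + MB) + MR + 1, hR, by positivity, fun ζ b hζ hb hb0 => ?_⟩
  by_cases hbz : b = 0
  · rw [hbz, norm_zero, sub_zero, mul_one]
    have := hMR ζ hζ
    have h1 : 0 ≤ LF * (MA + MB) := by positivity
    linarith
  · have hbn : 0 < ‖b‖ := norm_pos_iff.mpr hbz
    set μ : ℂ := b / ‖b‖ with hμ
    have hμ1 : ‖μ‖ = 1 := by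
      rw [hμ, norm_div, Complex.norm_real, norm_norm, div_self hbn.ne']
    have hμ0 : μ ≠ 0 := by
      rw [← norm_ne_zero_iff, hμ1]
      exact one_ne_zero
    have hμb : ‖μ - b‖ = 1 - ‖b‖ := by
      have h1 : μ - b = ((1 - ‖b‖ : ℝ) : ℂ) * μ := by
        have h2 : (‖b‖ : ℂ) ≠ 0 := by exact_mod_cast hbn.ne'
        rw [hμ]
        push_cast
        field_simp
      rw [h1, norm_mul, hμ1, mul_one, Complex.norm_real, Real.norm_of_nonneg (by linarith)]
    have hFb : ev ζ b (hmg P) = 0 := by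
      rw [ev_hmg_of_ne P ζ hbz, hb0 hbz, mul_zero]
    have hF : ‖ev ζ μ (hmg P)‖ ≤ LF * (1 - ‖b‖) := by
      have h1 := hLF ζ μ b hζ hμ1.le hb
      rw [hFb, sub_zero, hμb] at h1
      exact h1
    have hG' : ‖ev ζ μ (hmg (refl P))‖ = ‖ev ζ μ (hmg P)‖ := by
      rw [ev_hmg_of_ne _ ζ hμ0, ev_hmg_of_ne _ ζ hμ0, norm_mul, norm_mul, norm_pow, norm_pow, hμ1,
        one_pow, one_pow, one_mul, one_mul]
      refine norm_eval_refl fun j => ?_
      rw [norm_mul, norm_inv, hμ1, hζ, inv_one, one_mul]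
    have h1 := hAB ζ μ
    rw [← h1]
    have h2 : ‖ev ζ μ (hmg P) * ev ζ μ A + ev ζ μ (hmg (refl P)) * ev ζ μ B‖ ≤
        LF * (1 - ‖b‖) * MA + LF * (1 - ‖b‖) * MB := by
      refine (norm_add_le _ _).trans ?_
      rw [norm_mul, norm_mul, hG']
      have h3 : 0 ≤ LF * (1 - ‖b‖) := mul_nonneg hLF0 (by linarith)
      exact add_le_add (mul_le_mul hF (hMA ζ μ hζ hμ1.le) (norm_nonneg _) h3)
        (mul_le_mul hF (hMB ζ μ hζ hμ1.le) (norm_nonneg _) h3)
    refine h2.trans ?_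
    have h3 : 0 ≤ (MR + 1) * (1 - ‖b‖) := mul_nonneg (by linarith) (by linarith)
    nlinarith

end bounds

section main

variable {σ : Type} [Fintype σ] [DecidableEq σ]

theorem weight_le_rpow {t s : ℝ} (hs : 0 < s) (ht : t * Fintype.card σ ≤ s) (k : σ →₀ ℕ) :
    weight t k ≤ (((∑ j, k j : ℕ) : ℝ) + 1) ^ s := by
  have h1 : weight t k = (weight (t / s) k) ^ s := by
    unfold weight
    rw [← Real.finsetProd_rpow _ _ (fun j _ => by positivity)]
    refine Finset.prod_congr rfl fun j _ => ?_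
    rw [← Real.rpow_mul (by positivity), div_mul_cancel₀ _ hs.ne']
  rw [h1]
  refine Real.rpow_le_rpow (weight_nonneg _ _) (weight_le ?_ k) hs.le
  rw [div_mul_eq_mul_div, div_le_one hs]
  exact ht

/-- **Polynomials which are not toral are cyclic beyond `1 / d`.** -/
theorem exists_approxOne_of_not_dvd_refl {P : MvPolynomial σ ℂ} (hP : Irreducible P)
    (hz : ZeroFree P) (hr : ¬ P ∣ refl P) :
    ∃ δ : ℝ, 0 < δ ∧ ∀ t : ℝ, t * Fintype.card σ ≤ 1 + δ → ApproxOne t P := by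
  have hd : P.totalDegree ≠ 0 := by
    intro h0
    have h1 := MvPolynomial.totalDegree_eq_zero_iff_eq_C.mp h0
    rw [h1] at hP
    exact hP.not_isUnit (by
      refine (IsUnit.mk0 _ ?_).map C
      intro h2
      rw [h2, map_zero] at hP
      exact hP.ne_zero rfl)
  obtain ⟨R, C, hR, hC, hRC⟩ := exists_lower_bound hP hz hd hr
  obtain ⟨δ, hδ0, hδ1, hδ⟩ := exists_integrable hR
  refine ⟨δ, hδ0, fun t ht => ?_⟩
  set N := P.totalDegree with hN
  set D : (σ → UnitAddCircle) → ℝ≥0∞ := fun x =>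
    ENNReal.ofReal (18 ^ N) * (1 + np δ (1 / C) * np δ ‖eval (ch x) R‖) with hD
  have hmeas : Measurable fun x : σ → UnitAddCircle => np δ ‖eval (ch x) R‖ := by
    refine (measurable_np δ).comp (Continuous.measurable ?_)
    exact ((MvPolynomial.continuous_eval R).comp (continuous_pi fun j => continuous_ch j)).norm
  have hDm : Measurable D := by
    rw [hD]
    exact ((hmeas.const_mul _).const_add _).const_mul _
  have hDint : ∫⁻ x, D x ≠ ∞ := by
    rw [hD, lintegral_const_mul _ ((hmeas.const_mul _).const_add _),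
      lintegral_add_left measurable_const, lintegral_const, volume_univ_torus, mul_one,
      lintegral_const_mul _ hmeas]
    refine ENNReal.mul_ne_top ENNReal.ofReal_ne_top (ENNReal.add_ne_top.mpr
      ⟨ENNReal.one_ne_top, ENNReal.mul_ne_top (np_ne_top (by positivity)) hδ⟩)
  have hslice : ∀ r : ℝ, 0 ≤ r → r < 1 → ∀ x : σ → UnitAddCircle, ∀ L : ℕ, ENNReal.ofReal
      (∑ n ∈ Finset.range L, ((n : ℝ) + 1) ^ (1 + δ) * ‖PowerSeries.coeff n
        (slice (ch x) ((P : MvPowerSeries σ ℂ) * invR P r))‖ ^ 2) ≤ D x := by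
    intro r hr0 hr1 x L
    by_cases h0 : eval (ch x) R = 0
    · have : D x = ∞ := by
        rw [hD]
        simp only
        rw [h0, norm_zero]
        have h1 : np δ 0 = ∞ := by
          unfold np
          rw [ENNReal.ofReal_zero, ENNReal.zero_rpow_of_neg (by linarith)]
        have h2 : np δ (1 / C) ≠ 0 := by
          rw [np_of_pos (by positivity), ne_eq, ENNReal.ofReal_eq_zero, not_le]
          positivity
        rw [h1, ENNReal.mul_top h2, add_top, ENNReal.mul_top]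
        rw [ne_eq, ENNReal.ofReal_eq_zero, not_le]
        positivity
      rw [this]
      exact le_top
    · obtain ⟨s, hs1, hs2, hs3, hs4⟩ := slices' hz (ch x) (norm_ch x)
      have hRpos : 0 < ‖eval (ch x) R‖ := norm_pos_iff.mpr h0
      have hlow : ∀ b ∈ s, ‖eval (ch x) R‖ / C ≤ 1 - ‖b‖ := by
        intro b hb
        rw [div_le_iff₀ hC, mul_comm]
        exact hRC (ch x) b (norm_ch x) (hs2 b hb) (hs3 b hb)
      set E : ℝ := 1 + ((‖eval (ch x) R‖ / C) ^ δ)⁻¹ with hE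
      have hE1 : 1 ≤ E := by
        have : 0 ≤ ((‖eval (ch x) R‖ / C) ^ δ)⁻¹ := by positivity
        linarith
      have hb : ∀ b ∈ s, ‖b‖ < 1 ∧ ((1 - ‖b‖) ^ δ)⁻¹ ≤ E := by
        intro b hb
        have h1 := hlow b hb
        have h2 : 0 < ‖eval (ch x) R‖ / C := by positivity
        refine ⟨by linarith, ?_⟩
        have h3 : ((1 - ‖b‖) ^ δ)⁻¹ ≤ ((‖eval (ch x) R‖ / C) ^ δ)⁻¹ := by
          refine inv_anti₀ (by positivity) ?_
          exact Real.rpow_le_rpow h2.le h1 hδ0.le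
        linarith
      have h4 := (bdS_prod_fac hδ0.le hδ1 hr0 hr1 hE1 s hb).2 L
      rw [← hs4 r] at h4
      have h5 : (18:ℝ) ^ Multiset.card s * E ≤ 18 ^ N * E :=
        mul_le_mul_of_nonneg_right (pow_le_pow_right₀ (by norm_num) hs1) (by linarith)
      refine (ENNReal.ofReal_le_ofReal (h4.trans h5)).trans (le_of_eq ?_)
      rw [hD]
      simp only
      rw [ENNReal.ofReal_mul (by positivity), hE, ENNReal.ofReal_add zero_le_one (by positivity),
        ENNReal.ofReal_one, ← np_mul _ (by positivity), ← np_of_pos (by positivity)]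
      congr 3
      ring
  refine approxOne_of_bounded hz (∫⁻ x, D x).toReal fun r hr0 hr1 T => ?_
  have h1 := sum_le_lintegral hDm (hslice r hr0 hr1) T
  have h2 := ENNReal.toReal_mono hDint h1
  rw [ENNReal.toReal_ofReal (Finset.sum_nonneg fun k _ => by positivity)] at h2
  refine le_trans (Finset.sum_le_sum fun k _ => ?_) h2
  exact mul_le_mul_of_nonneg_right (weight_le_rpow (by linarith) ht k) (by positivity)

/-- the version for polynomials depending on the variables in a subset -/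
theorem exists_approxOne_of_vars {F : MvPolynomial σ ℂ} (hF : Irreducible F)
    (hz : ZeroFree F) (hr : ¬ F ∣ refl F) :
    ∃ δ : ℝ, 0 < δ ∧ ∀ t : ℝ, t * F.vars.card ≤ 1 + δ → ApproxOne t F := by
  obtain ⟨Q, hQ⟩ := MvPolynomial.exists_rename_eq_of_vars_subset_range F
    (Subtype.val : F.vars → σ) Subtype.val_injective (by simp)
  have hQr : ¬ Q ∣ refl Q := by
    intro h
    apply hr
    have h1 := map_dvd (rename (Subtype.val : F.vars → σ)) h
    rw [← refl_rename Subtype.val_injective, hQ] at h1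
    exact h1
  obtain ⟨δ, hδ, h⟩ := exists_approxOne_of_not_dvd_refl
    (irreducible_of_rename Subtype.val_injective (by rw [hQ]; exact hF))
    (ZeroFree.of_rename Subtype.val_injective (by rw [hQ]; exact hz)) hQr
  refine ⟨δ, hδ, fun t ht => ?_⟩
  rw [← hQ]
  refine ApproxOne.rename Subtype.val_injective (h t ?_)
  rw [Fintype.card_coe]
  exact ht

/-- **Dichotomy.** -/
theorem main_dichotomy {d : ℕ} (hd : 1 ≤ d) (hcard : Fintype.card σ = d) (P : MvPolynomial σ ℂ) :
    (∃ t : ℝ, 1 / d < t ∧ ShiftCyclic t P) ↔ ZeroFree P ∧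
      ∀ F : MvPolynomial σ ℂ, Irreducible F → F ∣ P → F ∣ refl F → F.vars.card < d := by
  have hd0 : (0:ℝ) < d := by exact_mod_cast hd
  have hle : ∀ F : MvPolynomial σ ℂ, F.vars.card ≤ d := by
    intro F
    rw [← hcard]
    exact Finset.card_le_univ _
  constructor
  · rintro ⟨t, ht, h⟩
    obtain ⟨hz, h1⟩ := necessary_toral h
    refine ⟨hz, fun F hF hFP hr => ?_⟩
    by_contra hcon
    push Not at hcon
    have h2 := h1 F hF hFP (Or.inr hr)
    have h3 : F.vars.card = d := le_antisymm (hle F) hcon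
    rw [h3] at h2
    rw [div_lt_iff₀ hd0] at ht
    linarith
  · rintro ⟨hz, h⟩
    have hP0 : P ≠ 0 := by
      rintro rfl
      exact hz 0 (by simp) (by simp)
    -- a threshold for each irreducible factor
    have hfac : ∀ F : MvPolynomial σ ℂ, Irreducible F → F ∣ P →
        ∃ t₀ : ℝ, 1 / d < t₀ ∧ ∀ t ≤ t₀, ApproxOne t F := by
      intro F hF hFP
      have hzF := hz.of_dvd hFP
      by_cases hr : F ∣ refl F
      · have h1 := h F hF hFP hr
        have h2 : (F.vars.card : ℝ) + 1 ≤ d := by exact_mod_cast h1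
        refine ⟨2 / (2 * d - 1), ?_, fun t ht => approxOne_of_vars ?_ hzF⟩
        · have h3 : (1:ℝ) ≤ d := by exact_mod_cast hd
          rw [div_lt_div_iff₀ hd0 (by linarith)]
          linarith
        · have h3 : (0:ℝ) ≤ F.vars.card := Nat.cast_nonneg _
          have h4 : (0:ℝ) < 2 * d - 1 := by linarith
          calc t * F.vars.card ≤ 2 / (2 * d - 1) * F.vars.card := mul_le_mul_of_nonneg_right ht h3
            _ ≤ 1 := by
              rw [div_mul_eq_mul_div, div_le_one h4]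
              linarith
      · obtain ⟨δ, hδ, h1⟩ := exists_approxOne_of_vars hF hzF hr
        refine ⟨(1 + δ) / d, ?_, fun t ht => h1 t ?_⟩
        · rw [div_lt_div_iff_of_pos_right hd0]
          linarith
        · have h3 : (0:ℝ) ≤ F.vars.card := Nat.cast_nonneg _
          have h4 : (F.vars.card : ℝ) ≤ d := by exact_mod_cast hle F
          calc t * F.vars.card ≤ (1 + δ) / d * F.vars.card := mul_le_mul_of_nonneg_right ht h3
            _ ≤ (1 + δ) / d * d := mul_le_mul_of_nonneg_left h4 (by positivity)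
            _ = 1 + δ := by field_simp
    -- a common threshold
    have hall : ∀ Q : MvPolynomial σ ℂ, Q ≠ 0 → Q ∣ P →
        ∃ t₀ : ℝ, 1 / d < t₀ ∧ ∀ t ≤ t₀, ApproxOne t Q := by
      intro Q
      induction Q using WfDvdMonoid.induction_on_irreducible with
      | zero => exact fun h => absurd rfl h
      | unit u hu =>
        intro _ _
        obtain ⟨a, ha, rfl⟩ := MvPolynomial.isUnit_iff_eq_C_of_isReduced.mp hu
        exact ⟨1 / d + 1, by linarith, fun t _ => approxOne_C ha.ne_zero⟩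
      | mul a i ha hi ih =>
        intro _ hdvd
        obtain ⟨t₁, h1, h2⟩ := hfac i hi (dvd_of_mul_right_dvd hdvd)
        obtain ⟨t₂, h3, h4⟩ := ih ha (dvd_of_mul_left_dvd hdvd)
        refine ⟨min t₁ t₂, lt_min h1 h3, fun t ht => ?_⟩
        exact ApproxOne.mul (h2 t (ht.trans (min_le_left _ _))) (h4 t (ht.trans (min_le_right _ _)))
    obtain ⟨t₀, h1, h2⟩ := hall P hP0 dvd_rfl
    exact ⟨t₀, h1, shiftCyclic_iff.mpr (h2 t₀ le_rfl)⟩

end main

end Pool.Agent.J6H91.Tor
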