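import Pool.Agent.J6H91.Tor.SliceInt

/-!
# Negative powers of polynomials are integrable on the torus
-/

set_option autoImplicit false
set_option linter.unusedSectionVars false

open Finset MeasureTheory
open scoped ENNReal Real

namespace Pool.Agent.J6H91.Tor

/-- the power `y^(-δ)`, with the value `∞` at `0` -/
noncomputable def np (δ : ℝ) (y : ℝ) : ℝ≥0∞ := (ENNReal.ofReal y) ^ (-δ)

theorem np_anti {δ : ℝ} (hδ : 0 ≤ δ) {x y : ℝ} (h : x ≤ y) : np δ y ≤ np δ x := by
  unfold np
  rw [ENNReal.rpow_neg, ENNReal.rpow_neg, ENNReal.inv_le_inv]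
  exact ENNReal.rpow_le_rpow (ENNReal.ofReal_le_ofReal h) hδ

theorem np_mul (δ : ℝ) {x y : ℝ} (hx : 0 ≤ x) : np δ (x * y) = np δ x * np δ y := by
  unfold np
  rw [ENNReal.ofReal_mul hx, ENNReal.mul_rpow_of_ne_top ENNReal.ofReal_ne_top ENNReal.ofReal_ne_top]

theorem np_one (δ : ℝ) : np δ 1 = 1 := by
  unfold np
  rw [ENNReal.ofReal_one, ENNReal.one_rpow]

theorem np_ne_top {δ : ℝ} {x : ℝ} (hx : 0 < x) : np δ x ≠ ∞ := by
  unfold np
  exact ENNReal.rpow_ne_top_of_ne_zero (by rwa [ne_eq, ENNReal.ofReal_eq_zero, not_le])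
    ENNReal.ofReal_ne_top

theorem np_of_pos {δ : ℝ} {x : ℝ} (hx : 0 < x) : np δ x = ENNReal.ofReal ((x ^ δ)⁻¹) := by
  unfold np
  rw [ENNReal.ofReal_rpow_of_pos hx, Real.rpow_neg hx.le]

theorem measurable_np (δ : ℝ) : Measurable (np δ) := by
  unfold np
  exact ENNReal.measurable_ofReal.pow_const _

/-- the integral of `y^(-1/2)` over `(0, 1]` -/
theorem lintegral_np_id : ∫⁻ a in Set.Ioc (0:ℝ) (0 + 1), np (1 / 2) a ≠ ∞ := by
  rw [zero_add]
  have h1 : IntervalIntegrable (fun x : ℝ => x ^ (-(1 / 2) : ℝ)) volume 0 1 :=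
    intervalIntegral.intervalIntegrable_rpow' (by norm_num)
  rw [intervalIntegrable_iff_integrableOn_Ioc_of_le zero_le_one] at h1
  have h2 := h1.lintegral_lt_top
  refine ne_of_lt (lt_of_le_of_lt (le_of_eq ?_) h2)
  refine setLIntegral_congr_fun measurableSet_Ioc fun a ha => ?_
  rw [np_of_pos ha.1, Real.rpow_neg ha.1.le]

theorem lintegral_np_one_sub : ∫⁻ a in Set.Ioc (0:ℝ) (0 + 1), np (1 / 2) (1 - a) ≠ ∞ := by
  rw [zero_add]
  have h1 : IntervalIntegrable (fun x : ℝ => x ^ (-(1 / 2) : ℝ)) volume 0 1 :=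
    intervalIntegral.intervalIntegrable_rpow' (by norm_num)
  have h1' := (h1.comp_sub_left 1).symm
  rw [sub_zero, sub_self] at h1'
  rw [intervalIntegrable_iff_integrableOn_Ioo_of_le zero_le_one] at h1'
  have h2 := h1'.lintegral_lt_top
  rw [← restrict_Ioo_eq_restrict_Ioc]
  refine ne_of_lt (lt_of_le_of_lt (le_of_eq ?_) h2)
  refine setLIntegral_congr_fun measurableSet_Ioo fun a ha => ?_
  have h3 : 0 < 1 - a := by linarith [ha.2]
  rw [np_of_pos h3, Real.rpow_neg h3.le]

theorem norm_toCircle_sub_one (a : ℝ) :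
    ‖((AddCircle.toCircle ((a : ℝ) : UnitAddCircle)) : ℂ) - 1‖ = 2 * |Real.sin (π * a)| := by
  rw [AddCircle.toCircle_apply_mk, Circle.coe_exp, div_one, mul_comm ((2 * π * a : ℝ) : ℂ),
    Complex.norm_exp_I_mul_ofReal_sub_one, norm_mul, Real.norm_eq_abs, Real.norm_eq_abs, abs_two]
  congr 3
  ring

/-- the constant of the uniform bound -/
noncomputable def c0 : ℝ≥0∞ := ∫⁻ s : UnitAddCircle, np (1 / 2) ‖(AddCircle.toCircle s : ℂ) - 1‖

theorem c0_ne_top : c0 ≠ ∞ := by
  unfold c0
  rw [← UnitAddCircle.lintegral_preimage 0]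
  have h1 : ∫⁻ a in Set.Ioc (0:ℝ) (0 + 1),
      np (1 / 2) ‖(AddCircle.toCircle ((a : ℝ) : UnitAddCircle) : ℂ) - 1‖ ≤
      ∫⁻ a in Set.Ioc (0:ℝ) (0 + 1), (np (1 / 2) a + np (1 / 2) (1 - a)) := by
    refine setLIntegral_mono' measurableSet_Ioc fun a ha => ?_
    rw [zero_add] at ha
    rw [norm_toCircle_sub_one]
    have hsin : 0 ≤ Real.sin (π * a) :=
      Real.sin_nonneg_of_nonneg_of_le_pi (by have := ha.1; positivity)
        (mul_le_of_le_one_right Real.pi_pos.le ha.2)
    rw [abs_of_nonneg hsin]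
    rcases le_total a (1 / 2) with h | h
    · refine le_trans (np_anti (by norm_num) ?_) le_self_add
      have h2 := Real.mul_le_sin (x := π * a) (by have := ha.1; positivity) (by
        have := Real.pi_pos
        nlinarith)
      have h3 : 2 / π * (π * a) = 2 * a := by
        field_simp
      rw [h3] at h2
      linarith [ha.1]
    · refine le_trans (np_anti (by norm_num) ?_) le_add_self
      have h2 := Real.mul_le_sin (x := π * (1 - a)) (by
        have := Real.pi_pos
        have h4 : 0 ≤ 1 - a := by linarith [ha.2]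
        positivity) (by
        have := Real.pi_pos
        nlinarith)
      have h3 : 2 / π * (π * (1 - a)) = 2 * (1 - a) := by
        field_simp
      have h4 : Real.sin (π * (1 - a)) = Real.sin (π * a) := by
        rw [mul_sub, mul_one, Real.sin_pi_sub]
      rw [h3, h4] at h2
      linarith [ha.2]
  refine ne_of_lt (lt_of_le_of_lt h1 ?_)
  rw [lintegral_add_left (measurable_np _)]
  exact ENNReal.add_lt_top.mpr ⟨lintegral_np_id.lt_top, lintegral_np_one_sub.lt_top⟩

theorem exists_toCircle (u : ℂ) (hu : ‖u‖ = 1) :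
    ∃ s : UnitAddCircle, (AddCircle.toCircle s : ℂ) = u := by
  refine ⟨((Complex.arg u / (2 * π) : ℝ) : UnitAddCircle), ?_⟩
  rw [AddCircle.toCircle_apply_mk, Circle.coe_exp]
  have h1 : 2 * π / 1 * (Complex.arg u / (2 * π)) = Complex.arg u := by
    have := Real.pi_ne_zero
    field_simp
  rw [h1]
  have h2 := Complex.norm_mul_exp_arg_mul_I u
  rw [hu, Complex.ofReal_one, one_mul] at h2
  exact h2

/-- uniform bound for one factor -/
theorem lintegral_factor (β : ℂ) :
    ∫⁻ s : UnitAddCircle, np (1 / 2) ‖(AddCircle.toCircle s : ℂ) - β‖ ≤ np (1 / 2) (1 / 2) * c0 := by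
  obtain ⟨u, hu, hβ⟩ : ∃ u : ℂ, ‖u‖ = 1 ∧ β = ‖β‖ * u := by
    by_cases h : β = 0
    · exact ⟨1, norm_one, by rw [h]; simp⟩
    · refine ⟨β / ‖β‖, ?_, ?_⟩
      · rw [norm_div, Complex.norm_real, norm_norm, div_self (norm_ne_zero_iff.mpr h)]
      · have : (‖β‖ : ℂ) ≠ 0 := by exact_mod_cast norm_ne_zero_iff.mpr h
        field_simp
  obtain ⟨s₀, hs₀⟩ := exists_toCircle u hu
  have h1 : ∀ s : UnitAddCircle, np (1 / 2) ‖(AddCircle.toCircle s : ℂ) - β‖ ≤
      np (1 / 2) (1 / 2) * np (1 / 2) ‖(AddCircle.toCircle (s + -s₀) : ℂ) - 1‖ := by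
    intro s
    rw [← np_mul _ (by norm_num)]
    refine np_anti (by norm_num) ?_
    set w : ℂ := (AddCircle.toCircle s : ℂ) with hw
    have hw1 : ‖w‖ = 1 := Circle.norm_coe _
    have h2 : (AddCircle.toCircle (s + -s₀) : ℂ) - 1 = (w - u) * u⁻¹ := by
      have hu0 : u ≠ 0 := by
        rw [← norm_ne_zero_iff, hu]
        exact one_ne_zero
      rw [AddCircle.toCircle_add, AddCircle.toCircle_neg, Circle.coe_mul, Circle.coe_inv, hs₀,
        sub_mul, mul_inv_cancel₀ hu0]
    rw [h2, norm_mul, norm_inv, hu, inv_one, mul_one]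
    have h3 : ‖w - u‖ ≤ ‖w - β‖ + ‖β - u‖ := by
      have : w - u = (w - β) + (β - u) := by ring
      rw [this]
      exact norm_add_le _ _
    have h4 : ‖β - u‖ ≤ ‖w - β‖ := by
      have h5 : β - u = ((‖β‖ - 1 : ℝ) : ℂ) * u := by
        conv_lhs => rw [hβ]
        push_cast
        ring
      rw [h5, norm_mul, hu, mul_one, Complex.norm_real, Real.norm_eq_abs, ← hw1, abs_sub_comm]
      exact abs_norm_sub_norm_le w β
    linarith
  refine (lintegral_mono h1).trans ?_
  rw [lintegral_const_mul']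
  · refine mul_le_mul_right (le_of_eq ?_) _
    exact lintegral_add_right_eq_self
      (fun s : UnitAddCircle => np (1 / 2) ‖(AddCircle.toCircle s : ℂ) - 1‖) (-s₀)
  · exact np_ne_top (by norm_num)

/-- a product of negative powers is bounded by a sum -/
theorem prod_np_le {δ : ℝ} (hδ : 0 ≤ δ) {n : ℕ} (hn : n * δ ≤ 1 / 2) (m : Multiset ℝ)
    (hm : Multiset.card m ≤ n) :
    (m.map fun y => np δ y).prod ≤ 1 + (m.map fun y => np (1 / 2) y).sum := by
  have h1 : ∃ M : ℝ≥0∞, 1 ≤ M ∧ (∀ y ∈ m, (ENNReal.ofReal y)⁻¹ ≤ M) ∧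
      M ^ (1 / 2 : ℝ) ≤ 1 + (m.map fun y => np (1 / 2) y).sum := by
    clear hm
    induction m using Multiset.induction_on with
    | empty =>
      refine ⟨1, le_rfl, by simp, by simp⟩
    | cons y m ih =>
      obtain ⟨M, hM1, hM2, hM3⟩ := ih
      refine ⟨max M (ENNReal.ofReal y)⁻¹, le_max_of_le_left hM1, fun z hz => ?_, ?_⟩
      · rcases Multiset.mem_cons.mp hz with h | h
        · rw [h]
          exact le_max_right _ _
        · exact (hM2 z h).trans (le_max_left _ _)
      · rw [Multiset.map_cons, Multiset.sum_cons]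
        rcases max_choice M (ENNReal.ofReal y)⁻¹ with h | h
        · rw [h]
          refine hM3.trans ?_
          exact add_le_add_right le_add_self _
        · rw [h]
          have h2 : ((ENNReal.ofReal y)⁻¹) ^ (1 / 2 : ℝ) = np (1 / 2) y := by
            unfold np
            rw [ENNReal.rpow_neg, ENNReal.inv_rpow]
          rw [h2]
          calc np (1 / 2) y ≤ np (1 / 2) y + (m.map fun y => np (1 / 2) y).sum := le_self_add
            _ ≤ _ := le_add_self
  obtain ⟨M, hM1, hM2, hM3⟩ := h1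
  refine le_trans ?_ hM3
  have h2 : ∀ y ∈ m, np δ y ≤ M ^ δ := by
    intro y hy
    unfold np
    rw [ENNReal.rpow_neg, ← ENNReal.inv_rpow]
    exact ENNReal.rpow_le_rpow (hM2 y hy) hδ
  have h3 : ∀ m' : Multiset ℝ, (∀ y ∈ m', np δ y ≤ M ^ δ) →
      (m'.map fun y => np δ y).prod ≤ (M ^ δ) ^ Multiset.card m' := by
    intro m'
    induction m' using Multiset.induction_on with
    | empty => simp
    | cons y m' ih =>
      intro h
      rw [Multiset.map_cons, Multiset.prod_cons, Multiset.card_cons, pow_succ']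
      exact mul_le_mul' (h y (Multiset.mem_cons_self _ _))
        (ih fun z hz => h z (Multiset.mem_cons_of_mem hz))
  refine (h3 m h2).trans ?_
  rw [← ENNReal.rpow_natCast, ← ENNReal.rpow_mul]
  refine ENNReal.rpow_le_rpow_of_exponent_le hM1 ?_
  have : (Multiset.card m : ℝ) ≤ n := by exact_mod_cast hm
  nlinarith

/-- uniform bound for a polynomial in one variable -/
theorem lintegral_poly {δ : ℝ} (hδ : 0 ≤ δ) {n : ℕ} (hn : n * δ ≤ 1 / 2) {p : Polynomial ℂ}
    (hp : p.natDegree ≤ n) {ρ : ℝ} (hρ : ρ ≤ ‖p.leadingCoeff‖) :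
    ∫⁻ s : UnitAddCircle, np δ ‖p.eval (AddCircle.toCircle s : ℂ)‖ ≤
      np δ ρ * (1 + n * (np (1 / 2) (1 / 2) * c0)) := by
  have hs := IsAlgClosed.splits p
  have h1 : ∀ w : ℂ, ‖p.eval w‖ = ‖p.leadingCoeff‖ * (p.roots.map fun a => ‖w - a‖).prod := by
    intro w
    have h2 : p.eval w = p.leadingCoeff * (p.roots.map fun a => w - a).prod := by
      conv_lhs => rw [hs.eq_prod_roots]
      rw [Polynomial.eval_mul, Polynomial.eval_C, Polynomial.eval_multiset_prod, Multiset.map_map]
      simp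
    rw [h2, norm_mul]
    congr 1
    have h3 : ∀ s : Multiset ℂ, ‖(s.map fun a => w - a).prod‖ = (s.map fun a => ‖w - a‖).prod := by
      intro s
      induction s using Multiset.induction_on with
      | empty => simp
      | cons a s ih => rw [Multiset.map_cons, Multiset.prod_cons, norm_mul, ih, Multiset.map_cons,
          Multiset.prod_cons]
    exact h3 _
  have hnp : ∀ (w : ℂ) (s : Multiset ℂ), np δ (s.map fun a => ‖w - a‖).prod =
      ((s.map fun a => ‖w - a‖).map fun y => np δ y).prod := by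
    intro w s
    induction s using Multiset.induction_on with
    | empty =>
      simp only [Multiset.map_zero, Multiset.prod_zero]
      exact np_one δ
    | cons a s ih =>
      simp only [Multiset.map_cons, Multiset.prod_cons] at ih ⊢
      rw [np_mul _ (norm_nonneg _), ih]
  have hcard : Multiset.card p.roots ≤ n := (Polynomial.card_roots' p).trans hp
  have h2 : ∀ w : ℂ, np δ ‖p.eval w‖ ≤
      np δ ρ * (1 + ((p.roots.map fun a => ‖w - a‖).map fun y => np (1 / 2) y).sum) := by
    intro w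
    rw [h1 w, np_mul _ (norm_nonneg _), hnp]
    refine mul_le_mul' (np_anti hδ hρ) (prod_np_le hδ hn _ ?_)
    rw [Multiset.card_map]
    exact hcard
  have hmeas : ∀ a : ℂ, Measurable fun s : UnitAddCircle =>
      np (1 / 2) ‖(AddCircle.toCircle s : ℂ) - a‖ := by
    intro a
    refine (measurable_np _).comp ?_
    refine Continuous.measurable ?_
    exact ((continuous_subtype_val.comp AddCircle.continuous_toCircle).sub continuous_const).norm
  have hmeasS : ∀ s : Multiset ℂ, Measurable fun t : UnitAddCircle =>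
      ((s.map fun a => ‖(AddCircle.toCircle t : ℂ) - a‖).map fun y => np (1 / 2) y).sum := by
    intro s
    induction s using Multiset.induction_on with
    | empty => simp
    | cons a s ih =>
      simp only [Multiset.map_cons, Multiset.sum_cons]
      exact (hmeas a).add ih
  set S : UnitAddCircle → ℝ≥0∞ := fun t =>
    ((p.roots.map fun a => ‖(AddCircle.toCircle t : ℂ) - a‖).map fun y => np (1 / 2) y).sum with hS
  have hSm : Measurable S := hmeasS p.roots
  have e1 : ∫⁻ s : UnitAddCircle, np δ ‖p.eval (AddCircle.toCircle s : ℂ)‖ ≤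
      ∫⁻ s : UnitAddCircle, np δ ρ * (1 + S s) := lintegral_mono fun s => h2 _
  refine e1.trans ?_
  have e2 : ∫⁻ s : UnitAddCircle, np δ ρ * (1 + S s) = np δ ρ * (1 + ∫⁻ s : UnitAddCircle, S s) := by
    have e3 : Measurable fun s : UnitAddCircle => (1 : ℝ≥0∞) + S s := measurable_const.add hSm
    rw [lintegral_const_mul _ e3, lintegral_add_left measurable_const,
      lintegral_const, UnitAddCircle.measure_univ, mul_one]
  rw [e2]
  refine mul_le_mul_right (add_le_add_right ?_ 1) _
  have h3 : ∀ s : Multiset ℂ, ∫⁻ t : UnitAddCircle,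
      ((s.map fun a => ‖(AddCircle.toCircle t : ℂ) - a‖).map fun y => np (1 / 2) y).sum ≤
      Multiset.card s * (np (1 / 2) (1 / 2) * c0) := by
    intro s
    induction s using Multiset.induction_on with
    | empty => simp
    | cons a s ih =>
      simp only [Multiset.map_cons, Multiset.sum_cons, Multiset.card_cons]
      rw [lintegral_add_left (hmeas a)]
      push_cast
      rw [add_mul, one_mul, add_comm]
      exact add_le_add ih (lintegral_factor a)
  refine (h3 _).trans ?_
  refine mul_le_mul_left ?_ _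
  exact_mod_cast hcard

end Pool.Agent.J6H91.Tor
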