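import Pool.Agent.J6H91.Cyc.OneVar

/-!
# Bounds in one variable with the weight `(n+1)^s`
-/

set_option autoImplicit false

open PowerSeries Finset

namespace Pool.Agent.J6H91.Tor

open Pool.Agent.J6H91.Cyc

/-- `Σ (n+1)^s |G_n|² ≤ B` -/
def BdS (s : ℝ) (G : PowerSeries ℂ) (B : ℝ) : Prop :=
  ∀ L : ℕ, ∑ n ∈ range L, ((n : ℝ) + 1) ^ s * ‖coeff n G‖ ^ 2 ≤ B

theorem BdS.nonneg {s : ℝ} {G : PowerSeries ℂ} {A : ℝ} (h : BdS s G A) : 0 ≤ A := by
  simpa using h 0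

theorem BdS.mono {s : ℝ} {G : PowerSeries ℂ} {A B : ℝ} (h : BdS s G A) (hAB : A ≤ B) : BdS s G B :=
  fun L => (h L).trans hAB

theorem BdS.mul {s : ℝ} (hs0 : 0 ≤ s) (hs2 : s ≤ 2) {F G : PowerSeries ℂ} {A B a b : ℝ}
    (hF : BdL1 F A) (hG : BdL1 G B) (hF2 : BdS s F a) (hG2 : BdS s G b) :
    BdS s (F * G) (2 * (a * B ^ 2 + b * A ^ 2)) := by
  intro L
  have hsq : ∀ x : ℝ, 0 < x → (x ^ (s / 2)) ^ 2 = x ^ s := by
    intro x hx
    rw [← Real.rpow_natCast, ← Real.rpow_mul hx.le]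
    congr 1
    push_cast
    ring
  set u : ℕ → ℝ := fun n => ((n : ℝ) + 1) ^ (s / 2) * ‖coeff n F‖ with hu
  set v : ℕ → ℝ := fun n => ((n : ℝ) + 1) ^ (s / 2) * ‖coeff n G‖ with hv
  have hu2 : ∀ n, u n ^ 2 = ((n : ℝ) + 1) ^ s * ‖coeff n F‖ ^ 2 := by
    intro n
    rw [hu]
    simp only
    rw [mul_pow, hsq _ (by positivity)]
  have hv2 : ∀ n, v n ^ 2 = ((n : ℝ) + 1) ^ s * ‖coeff n G‖ ^ 2 := by
    intro n
    rw [hv]
    simp only
    rw [mul_pow, hsq _ (by positivity)]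
  have hy1 := young u (fun n => ‖coeff n G‖) (fun n => by positivity) (fun n => norm_nonneg _) L
    (U := a) (V := B) (by simp_rw [hu2]; exact hF2 L) (hG L)
  have hy2 := young v (fun n => ‖coeff n F‖) (fun n => by positivity) (fun n => norm_nonneg _) L
    (U := b) (V := A) (by simp_rw [hv2]; exact hG2 L) (hF L)
  have key : ∀ n : ℕ, ((n : ℝ) + 1) ^ s * ‖coeff n (F * G)‖ ^ 2 ≤
      2 * (∑ p ∈ antidiagonal n, u p.1 * ‖coeff p.2 G‖) ^ 2 +
      2 * (∑ p ∈ antidiagonal n, v p.1 * ‖coeff p.2 F‖) ^ 2 := by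
    intro n
    have h1 : ((n : ℝ) + 1) ^ (s / 2) * ‖coeff n (F * G)‖ ≤
        (∑ p ∈ antidiagonal n, u p.1 * ‖coeff p.2 G‖) +
        (∑ p ∈ antidiagonal n, v p.1 * ‖coeff p.2 F‖) := by
      have hswap : ∑ p ∈ antidiagonal n, v p.1 * ‖coeff p.2 F‖ =
          ∑ p ∈ antidiagonal n, v p.2 * ‖coeff p.1 F‖ :=
        Finset.Nat.sum_antidiagonal_swap (f := fun p => v p.1 * ‖coeff p.2 F‖) |>.symm
      rw [hswap, ← Finset.sum_add_distrib, PowerSeries.coeff_mul]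
      calc ((n : ℝ) + 1) ^ (s / 2) * ‖∑ p ∈ antidiagonal n, coeff p.1 F * coeff p.2 G‖
          ≤ ((n : ℝ) + 1) ^ (s / 2) * ∑ p ∈ antidiagonal n, ‖coeff p.1 F‖ * ‖coeff p.2 G‖ := by
            refine mul_le_mul_of_nonneg_left ?_ (by positivity)
            refine (norm_sum_le _ _).trans (Finset.sum_le_sum fun p _ => ?_)
            rw [norm_mul]
        _ = ∑ p ∈ antidiagonal n, ((n : ℝ) + 1) ^ (s / 2) * (‖coeff p.1 F‖ * ‖coeff p.2 G‖) := by
            rw [Finset.mul_sum]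
        _ ≤ _ := by
            refine Finset.sum_le_sum fun p hp => ?_
            have hp' : p.1 + p.2 = n := Finset.HasAntidiagonal.mem_antidiagonal.mp hp
            have hs : ((n : ℝ) + 1) ^ (s / 2) ≤
                ((p.1 : ℝ) + 1) ^ (s / 2) + ((p.2 : ℝ) + 1) ^ (s / 2) := by
              have h3 : ((n : ℝ) + 1) ^ (s / 2) ≤ (((p.1 : ℝ) + 1) + ((p.2 : ℝ) + 1)) ^ (s / 2) := by
                refine Real.rpow_le_rpow (by positivity) ?_ (by linarith)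
                rw [← hp']
                push_cast
                linarith
              refine h3.trans ?_
              exact Real.rpow_add_le_add_rpow (by positivity) (by positivity) (by linarith)
                (by linarith)
            rw [hu, hv]
            simp only
            calc ((n : ℝ) + 1) ^ (s / 2) * (‖coeff p.1 F‖ * ‖coeff p.2 G‖)
                ≤ (((p.1 : ℝ) + 1) ^ (s / 2) + ((p.2 : ℝ) + 1) ^ (s / 2)) *
                  (‖coeff p.1 F‖ * ‖coeff p.2 G‖) :=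
                  mul_le_mul_of_nonneg_right hs (by positivity)
              _ = _ := by ring
    have h2 : (((n : ℝ) + 1) ^ (s / 2) * ‖coeff n (F * G)‖) ^ 2 =
        ((n : ℝ) + 1) ^ s * ‖coeff n (F * G)‖ ^ 2 := by
      rw [mul_pow, hsq _ (by positivity)]
    rw [← h2]
    set x := ∑ p ∈ antidiagonal n, u p.1 * ‖coeff p.2 G‖
    set y := ∑ p ∈ antidiagonal n, v p.1 * ‖coeff p.2 F‖
    calc (((n : ℝ) + 1) ^ (s / 2) * ‖coeff n (F * G)‖) ^ 2 ≤ (x + y) ^ 2 :=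
          pow_le_pow_left₀ (by positivity) h1 2
      _ ≤ _ := by nlinarith [sq_nonneg (x - y)]
  calc ∑ n ∈ range L, ((n : ℝ) + 1) ^ s * ‖coeff n (F * G)‖ ^ 2
      ≤ ∑ n ∈ range L, (2 * (∑ p ∈ antidiagonal n, u p.1 * ‖coeff p.2 G‖) ^ 2 +
      2 * (∑ p ∈ antidiagonal n, v p.1 * ‖coeff p.2 F‖) ^ 2) :=
        Finset.sum_le_sum fun n _ => key n
    _ = 2 * (∑ n ∈ range L, (∑ p ∈ antidiagonal n, u p.1 * ‖coeff p.2 G‖) ^ 2) +
        2 * (∑ n ∈ range L, (∑ p ∈ antidiagonal n, v p.1 * ‖coeff p.2 F‖) ^ 2) := by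
        rw [Finset.sum_add_distrib, Finset.mul_sum, Finset.mul_sum]
    _ ≤ 2 * (a * B ^ 2) + 2 * (b * A ^ 2) := by linarith
    _ = _ := by ring

theorem bdS_one (s : ℝ) : BdS s 1 1 := by
  intro L
  simp only [PowerSeries.coeff_one]
  cases L with
  | zero => simp
  | succ L =>
    rw [Finset.sum_eq_single_of_mem 0 (by simp)]
    · simp
    · intro b _ hb
      simp [hb]

/-- `(n+1)^δ x^n ≤ (1-x)^(-δ)` -/
theorem rpow_mul_pow_le {δ x : ℝ} (hδ0 : 0 ≤ δ) (hδ1 : δ ≤ 1) (hx0 : 0 ≤ x) (hx1 : x < 1) (n : ℕ) :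
    ((n : ℝ) + 1) ^ δ * x ^ n ≤ ((1 - x) ^ δ)⁻¹ := by
  have h1 : ((n : ℝ) + 1) * x ^ n ≤ (1 - x)⁻¹ := by
    have h2 : ((n : ℝ) + 1) * x ^ n ≤ ∑ j ∈ range (n + 1), x ^ j := by
      have h3 : ∑ j ∈ range (n + 1), x ^ n ≤ ∑ j ∈ range (n + 1), x ^ j := by
        refine Finset.sum_le_sum fun j hj => ?_
        exact pow_le_pow_of_le_one hx0 hx1.le (by
          have := Finset.mem_range.mp hj
          omega)
      rw [Finset.sum_const, Finset.card_range, nsmul_eq_mul] at h3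
      push_cast at h3
      exact h3
    refine h2.trans ?_
    rw [← one_div, le_div_iff₀ (by linarith), geom_sum_mul_neg]
    have := pow_nonneg hx0 (n + 1)
    linarith
  have h4 : x ^ n ≤ (x ^ n) ^ δ := by
    have h5 : x ^ n ≤ 1 := pow_le_one₀ hx0 hx1.le
    exact Real.self_le_rpow_of_le_one (by positivity) h5 hδ1
  calc ((n : ℝ) + 1) ^ δ * x ^ n ≤ ((n : ℝ) + 1) ^ δ * (x ^ n) ^ δ :=
        mul_le_mul_of_nonneg_left h4 (by positivity)
    _ = (((n : ℝ) + 1) * x ^ n) ^ δ := (Real.mul_rpow (by positivity) (by positivity)).symm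
    _ ≤ ((1 - x)⁻¹) ^ δ := Real.rpow_le_rpow (by positivity) h1 hδ0
    _ = ((1 - x) ^ δ)⁻¹ := Real.inv_rpow (by linarith) δ

theorem bdS_fac {δ : ℝ} (hδ0 : 0 ≤ δ) (hδ1 : δ ≤ 1) {b : ℂ} (hb : ‖b‖ < 1) {r : ℝ} (hr0 : 0 ≤ r)
    (hr1 : r < 1) : BdS (1 + δ) (fac b r) (1 + 4 * ((1 - ‖b‖) ^ δ)⁻¹) := by
  intro L
  set x : ℝ := r * ‖b‖ with hx
  have hx0 : 0 ≤ x := by positivity
  have hxb : x ≤ ‖b‖ := mul_le_of_le_one_left (norm_nonneg _) hr1.le
  have hxr : x ≤ r := mul_le_of_le_one_right hr0 hb.le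
  have hx1 : x < 1 := lt_of_le_of_lt hxb hb
  have hcoeff : ∀ n : ℕ, ‖coeff (n + 1) (fac b r)‖ ≤ (1 - r) * x ^ n := by
    intro n
    rw [coeff_succ_fac, norm_neg, norm_mul, norm_mul, norm_pow, norm_mul]
    have h1 : ‖(1 - r : ℂ)‖ = 1 - r := by
      rw [show (1 - r : ℂ) = ((1 - r : ℝ) : ℂ) by push_cast; rfl, Complex.norm_real,
        Real.norm_of_nonneg (by linarith)]
    have h2 : ‖(r : ℂ)‖ = r := by rw [Complex.norm_real, Real.norm_of_nonneg hr0]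
    rw [h1, h2]
    refine mul_le_mul_of_nonneg_right ?_ (by positivity)
    exact mul_le_of_le_one_right (by linarith) hb.le
  cases L with
  | zero =>
    simp only [range_zero, sum_empty]
    have : 0 ≤ ((1 - ‖b‖) ^ δ)⁻¹ := by
      have : 0 < 1 - ‖b‖ := by linarith
      positivity
    linarith
  | succ L =>
    rw [Finset.sum_range_succ', coeff_zero_fac]
    have h1 : ∑ k ∈ range L, (((k + 1 : ℕ) : ℝ) + 1) ^ (1 + δ) * ‖coeff (k + 1) (fac b r)‖ ^ 2 ≤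
        4 * ((1 - x) ^ δ)⁻¹ * ((1 - x) ^ 2 * ∑ k ∈ range L, ((k : ℝ) + 1) * x ^ k) := by
      rw [Finset.mul_sum, Finset.mul_sum]
      refine Finset.sum_le_sum fun k _ => ?_
      have h2 := hcoeff k
      have h3 : ‖coeff (k + 1) (fac b r)‖ ^ 2 ≤ ((1 - x) * x ^ k) ^ 2 := by
        refine pow_le_pow_left₀ (norm_nonneg _) (h2.trans ?_) 2
        exact mul_le_mul_of_nonneg_right (by linarith) (by positivity)
      have h4 : (((k + 1 : ℕ) : ℝ) + 1) ^ (1 + δ) ≤ 4 * (((k : ℝ) + 1) * ((k : ℝ) + 1) ^ δ) := by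
        have h5 : (((k + 1 : ℕ) : ℝ) + 1) ^ (1 + δ) ≤ (2 * ((k : ℝ) + 1)) ^ (1 + δ) := by
          refine Real.rpow_le_rpow (by positivity) ?_ (by linarith)
          push_cast
          have : (0:ℝ) ≤ k := Nat.cast_nonneg k
          linarith
        refine h5.trans ?_
        rw [Real.mul_rpow (by norm_num) (by positivity), Real.rpow_add (by positivity : (0:ℝ) < (k:ℝ) + 1),
          Real.rpow_one]
        refine mul_le_mul_of_nonneg_right ?_ (by positivity)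
        calc (2:ℝ) ^ (1 + δ) ≤ 2 ^ (2:ℝ) := Real.rpow_le_rpow_of_exponent_le (by norm_num) (by linarith)
          _ = 4 := by norm_num
      have h6 := rpow_mul_pow_le hδ0 hδ1 hx0 hx1 k
      calc (((k + 1 : ℕ) : ℝ) + 1) ^ (1 + δ) * ‖coeff (k + 1) (fac b r)‖ ^ 2
          ≤ (4 * (((k : ℝ) + 1) * ((k : ℝ) + 1) ^ δ)) * ((1 - x) * x ^ k) ^ 2 :=
            mul_le_mul h4 h3 (by positivity) (by positivity)
        _ = 4 * (((k : ℝ) + 1) ^ δ * x ^ k) * ((1 - x) ^ 2 * (((k : ℝ) + 1) * x ^ k)) := by ring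
        _ ≤ 4 * ((1 - x) ^ δ)⁻¹ * ((1 - x) ^ 2 * (((k : ℝ) + 1) * x ^ k)) := by
            refine mul_le_mul_of_nonneg_right ?_ (by positivity)
            exact mul_le_mul_of_nonneg_left h6 (by norm_num)
    have h7 := sum_succ_mul_pow_le hx0 hx1 L
    have h8 : ((1 - x) ^ δ)⁻¹ ≤ ((1 - ‖b‖) ^ δ)⁻¹ := by
      have h9 : 0 < 1 - ‖b‖ := by linarith
      refine inv_anti₀ (by positivity) ?_
      exact Real.rpow_le_rpow h9.le (by linarith) hδ0
    have h10 : 0 ≤ ((1 - x) ^ δ)⁻¹ := by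
      have : 0 < 1 - x := by linarith
      positivity
    simp only [Nat.cast_zero, zero_add, norm_one, Real.one_rpow, one_pow, mul_one]
    have h11 : 4 * ((1 - x) ^ δ)⁻¹ * ((1 - x) ^ 2 * ∑ k ∈ range L, ((k : ℝ) + 1) * x ^ k) ≤
        4 * ((1 - x) ^ δ)⁻¹ * 1 := mul_le_mul_of_nonneg_left h7 (by positivity)
    linarith

/-- products of factors `(1 - b X) / (1 - r b X)` -/
theorem bdS_prod_fac {δ : ℝ} (hδ0 : 0 ≤ δ) (hδ1 : δ ≤ 1) {r : ℝ} (hr0 : 0 ≤ r) (hr1 : r < 1)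
    {D : ℝ} (hD : 1 ≤ D) (s : Multiset ℂ)
    (hs : ∀ b ∈ s, ‖b‖ < 1 ∧ ((1 - ‖b‖) ^ δ)⁻¹ ≤ D) :
    BdL1 (s.map fun b => fac b r).prod (2 ^ Multiset.card s) ∧
      BdS (1 + δ) (s.map fun b => fac b r).prod (18 ^ Multiset.card s * D) := by
  induction s using Multiset.induction_on with
  | empty =>
    simp only [Multiset.map_zero, Multiset.prod_zero, Multiset.card_zero, pow_zero, one_mul]
    exact ⟨bdL1_one, (bdS_one _).mono hD⟩
  | cons b s ih =>
    obtain ⟨h1, h2⟩ := ih fun c hc => hs c (Multiset.mem_cons_of_mem hc)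
    obtain ⟨hb, hbD⟩ := hs b (Multiset.mem_cons_self b s)
    rw [Multiset.map_cons, Multiset.prod_cons, Multiset.card_cons]
    constructor
    · have := (bdL1_fac hb.le hr0 hr1).mul h1
      rw [pow_succ']
      exact this
    · refine (BdS.mul (by linarith) (by linarith) (bdL1_fac hb.le hr0 hr1) h1
        ((bdS_fac hδ0 hδ1 hb hr0 hr1).mono (show _ ≤ 5 * D by linarith)) h2).mono ?_
      have e1 : ((2:ℝ) ^ Multiset.card s) ^ 2 ≤ 18 ^ Multiset.card s := by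
        rw [← pow_mul, mul_comm, pow_mul]
        exact pow_le_pow_left₀ (by norm_num) (by norm_num) _
      have e2 : (18:ℝ) ^ (Multiset.card s + 1) = 18 ^ Multiset.card s * 18 := pow_succ _ _
      rw [e2]
      have e3 : 0 ≤ D := by linarith
      have e4 : 5 * D * ((2:ℝ) ^ Multiset.card s) ^ 2 ≤ 5 * D * 18 ^ Multiset.card s :=
        mul_le_mul_of_nonneg_left e1 (by positivity)
      nlinarith

end Pool.Agent.J6H91.Tor
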