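import Pool.Agent.J6H91.Tor.Alg

/-!
# Self-reflective polynomials
-/

set_option autoImplicit false
set_option linter.unusedSectionVars false

open MvPolynomial Filter Topology
open scoped Real

namespace Pool.Agent.J6H91.Tor

section refl

variable {σ : Type} [Fintype σ]

/-- the multidegree `n` of `F`: `n_j` is the degree of `F` in `z_j` -/
noncomputable def multideg (F : MvPolynomial σ ℂ) : σ →₀ ℕ :=
  Finsupp.equivFunOnFinite.symm fun j => F.degreeOf j

/-- the reflection `z^n conj (F (1 / conj z))` of `F`, where `n` is the multidegree of `F`: the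
coefficient of `z^(n - k)` is the conjugate of the coefficient of `z^k` in `F` -/
noncomputable def refl (F : MvPolynomial σ ℂ) : MvPolynomial σ ℂ :=
  ∑ k ∈ F.support, monomial (multideg F - k) ((starRingEnd ℂ) (F.coeff k))

theorem multideg_apply (F : MvPolynomial σ ℂ) (j : σ) : multideg F j = F.degreeOf j := rfl

theorem eval_refl (F : MvPolynomial σ ℂ) {z : σ → ℂ} (hz : ∀ j, z j ≠ 0) :
    eval z (refl F) = (∏ j, z j ^ F.degreeOf j) *
      (starRingEnd ℂ) (eval (fun j => ((starRingEnd ℂ) (z j))⁻¹) F) := by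
  rw [refl, map_sum, MvPolynomial.eval_eq', map_sum, Finset.mul_sum]
  refine Finset.sum_congr rfl fun k hk => ?_
  rw [MvPolynomial.eval_monomial, map_mul, map_prod]
  simp only [map_pow, map_inv₀, RingHomCompTriple.comp_apply, RingHom.id_apply]
  rw [mul_left_comm, ← Finset.prod_mul_distrib, Finsupp.prod_fintype _ _ (fun j => by simp)]
  congr 1
  refine Finset.prod_congr rfl fun j _ => ?_
  have h1 : k j ≤ F.degreeOf j := monomial_le_degreeOf j hk
  rw [Finsupp.tsub_apply, multideg_apply, inv_pow, ← div_eq_mul_inv, pow_sub₀ _ (hz j) h1,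
    div_eq_mul_inv]

end refl

variable {τ : Type} [Fintype τ]

theorem reflect_root {F : MvPolynomial (Option τ) ℂ} (hF : F ∣ refl F) {ζ : τ → ℂ}
    (hζ : ∀ i, ‖ζ i‖ = 1) {w : ℂ} (hw0 : w ≠ 0) (hw : ev ζ w F = 0) :
    ev ζ ((starRingEnd ℂ) w)⁻¹ F = 0 := by
  have hζ0 : ∀ i, ζ i ≠ 0 := fun i => by
    rw [← norm_ne_zero_iff, hζ]
    exact one_ne_zero
  have h1 : ev ζ w (refl F) = 0 := by
    obtain ⟨G, hG⟩ := hF
    rw [hG, map_mul, hw, zero_mul]
  have hz : ∀ o : Option τ, (fun o : Option τ => Option.elim o w ζ) o ≠ 0 := by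
    intro o
    cases o with
    | none => exact hw0
    | some i => exact hζ0 i
  unfold ev at h1 ⊢
  rw [eval_refl F hz, mul_eq_zero] at h1
  rcases h1 with h1 | h1
  · exact absurd h1 (Finset.prod_ne_zero_iff.mpr fun o _ => pow_ne_zero _ (hz o))
  · rw [map_eq_zero] at h1
    rw [← h1]
    congr 2
    funext o
    cases o with
    | none => rfl
    | some i =>
      simp only [Option.elim_some]
      rw [eq_comm, inv_eq_iff_eq_inv, Complex.inv_def, Complex.normSq_eq_norm_sq, hζ]
      simp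

theorem degreeOf_pderiv_lt {σ : Type} {F : MvPolynomial σ ℂ} {o : σ} (ho : o ∈ F.vars) :
    (pderiv o F).degreeOf o < F.degreeOf o := by
  classical
  have h0 : 0 < F.degreeOf o := Nat.pos_of_ne_zero (mem_vars_iff_degreeOf_ne_zero.mp ho)
  rw [degreeOf_lt_iff h0]
  intro m hm
  rw [mem_support_iff, coeff_pderiv] at hm
  have h1 : m + Finsupp.single o 1 ∈ F.support := by
    rw [mem_support_iff]
    exact left_ne_zero_of_mul hm
  have h2 := monomial_le_degreeOf o h1
  simp only [Finsupp.add_apply, Finsupp.single_eq_same] at h2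
  omega

theorem pderiv_ne_zero {σ : Type} {F : MvPolynomial σ ℂ} {o : σ} (ho : o ∈ F.vars) :
    pderiv o F ≠ 0 := by
  classical
  intro h0
  rw [mem_vars_iff_mem_support] at ho
  obtain ⟨k, hk, hko⟩ := ho
  have hko' : k o ≠ 0 := Finsupp.mem_support_iff.mp hko
  have h1 := coeff_pderiv (i := o) F (k - Finsupp.single o 1)
  rw [h0, coeff_zero] at h1
  have h2 : k - Finsupp.single o 1 + Finsupp.single o 1 = k := by
    refine tsub_add_cancel_of_le ?_
    intro i
    by_cases hi : i = o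
    · rw [hi, Finsupp.single_eq_same]
      omega
    · rw [Finsupp.single_eq_of_ne hi]
      omega
  rw [h2] at h1
  rcases mul_eq_zero.mp h1.symm with h3 | h3
  · exact (mem_support_iff.mp hk) h3
  · exact Nat.cast_add_one_ne_zero _ h3

theorem not_dvd_pderiv {σ : Type} {F : MvPolynomial σ ℂ} {o : σ} (ho : o ∈ F.vars) :
    ¬ F ∣ pderiv o F := by
  rintro ⟨G, hG⟩
  have h1 := pderiv_ne_zero ho
  have hF0 : F ≠ 0 := by
    rintro rfl
    simp at ho
  have hG0 : G ≠ 0 := by
    rintro rfl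
    rw [mul_zero] at hG
    exact h1 hG
  have h2 := degreeOf_pderiv_lt ho
  rw [hG, degreeOf_mul_eq hF0 hG0] at h2
  omega

theorem continuous_eval_zt (p : MvPolynomial τ ℂ) : Continuous fun x : τ → ℝ => eval (zt x) p := by
  have : (fun x : τ → ℝ => eval (zt x) p) = (fun z : τ → ℂ => eval z p) ∘ fun x => zt x := rfl
  rw [this]
  exact (MvPolynomial.continuous_eval p).comp (continuous_pi fun j => continuous_zt j)

/-- a good zero on the torus -/
theorem exists_good_point {F : MvPolynomial (Option τ) ℂ} (hF : Irreducible F)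
    (hv : ∀ o, o ∈ F.vars) (hz : Cyc.ZeroFree F) (hr : F ∣ refl F) :
    ∃ (x₀ : τ → ℝ) (w₀ : ℂ), ev (zt x₀) w₀ F = 0 ∧ (∀ o, ev (zt x₀) w₀ (pderiv o F) ≠ 0) ∧
      ∀ᶠ x in 𝓝 x₀, ∀ w, ev (zt x) w F = 0 → ‖w‖ = 1 := by
  classical
  have hp : Prime F := hF.prime
  have hG : ¬ F ∣ ∏ o, pderiv o F := by
    intro h
    obtain ⟨o, _, ho⟩ := hp.exists_mem_finset_dvd h
    exact not_dvd_pderiv (hv o) ho
  obtain ⟨A, B, r, hr0, hAB⟩ := exists_elim' hF (hv none) hG
  set e := optionEquivLeft ℂ τ with he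
  have hF0 : F ≠ 0 := hF.ne_zero
  have heF : e F ≠ 0 := fun h => hF0 ((map_eq_zero_iff e e.injective).mp h)
  set L := (e F).leadingCoeff with hL
  have hL0 : L ≠ 0 := Polynomial.leadingCoeff_ne_zero.mpr heF
  obtain ⟨x₀, -, hx₀⟩ := exists_torus_point (mul_ne_zero hr0 hL0) isOpen_univ (x := 0)
    (Set.mem_univ _)
  rw [map_mul] at hx₀
  have hr1 := left_ne_zero_of_mul hx₀
  have hL1 := right_ne_zero_of_mul hx₀
  -- a root
  set p := Polynomial.map (eval (zt x₀)) (e F) with hpdef
  have hdeg : p.natDegree = (e F).natDegree :=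
    Polynomial.natDegree_map_of_leadingCoeff_ne_zero _ hL1
  have hdeg0 : p.degree ≠ 0 := by
    intro h0
    have h1 : p.natDegree = 0 := Polynomial.natDegree_eq_of_degree_eq_some h0
    rw [hdeg, he, natDegree_optionEquivLeft] at h1
    exact mem_vars_iff_degreeOf_ne_zero.mp (hv none) h1
  obtain ⟨w₀, hw₀⟩ := IsAlgClosed.exists_root p hdeg0
  have hw₀' : ev (zt x₀) w₀ F = 0 := by
    rw [ev_eq]
    exact hw₀
  refine ⟨x₀, w₀, hw₀', fun o => ?_, ?_⟩
  · have h1 := hAB (zt x₀) w₀
    rw [hw₀', zero_mul, zero_add] at h1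
    have h2 : ev (zt x₀) w₀ (∏ o, pderiv o F) ≠ 0 := by
      intro h0
      rw [h0, zero_mul] at h1
      exact hr1 h1.symm
    rw [map_prod] at h2
    exact Finset.prod_ne_zero_iff.mp h2 o (Finset.mem_univ o)
  · have h1 : ∀ᶠ x in 𝓝 x₀, eval (zt x) L ≠ 0 :=
      (continuous_eval_zt L).continuousAt.eventually_ne hL1
    filter_upwards [h1] with x hx w hw
    have h2 : ∀ w, ev (zt x) w F = 0 → 1 ≤ ‖w‖ := fun w hw =>
      one_le_norm_root hz (fun i => (norm_zt x i).le) hx hw
    have h3 := h2 w hw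
    have hw0 : w ≠ 0 := by
      rw [← norm_pos_iff]
      linarith
    have h4 := h2 _ (reflect_root hr (fun i => norm_zt x i) hw0 hw)
    rw [norm_inv, RCLike.norm_conj] at h4
    have h5 : ‖w‖ ≤ 1 := by
      have h6 : 0 < ‖w‖ := by linarith
      by_contra hcon
      push Not at hcon
      have := inv_lt_one_of_one_lt₀ hcon
      linarith
    linarith

end Pool.Agent.J6H91.Tor
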