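import Pool.Agent.J6H91.Cyc.Main1
import Pool.Agent.J6H91.Tor.OneVarS

/-!
# Integrated bounds on the slices
-/

set_option autoImplicit false
set_option linter.unusedSectionVars false

open Finset MeasureTheory
open scoped ENNReal

namespace Pool.Agent.J6H91.Tor

open Pool.Agent.J6H91.Cyc

variable {σ : Type} [Fintype σ]

/-- the point of the torus -/
noncomputable def ch (x : σ → UnitAddCircle) (j : σ) : ℂ := (AddCircle.toCircle (x j) : ℂ)

theorem norm_ch (x : σ → UnitAddCircle) (j : σ) : ‖ch x j‖ = 1 := Circle.norm_coe _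

theorem ch_add (x y : σ → UnitAddCircle) (j : σ) : ch (x + y) j = ch x j * ch y j := by
  unfold ch
  rw [Pi.add_apply, AddCircle.toCircle_add, Circle.coe_mul]

theorem continuous_ch (j : σ) : Continuous fun x : σ → UnitAddCircle => ch x j := by
  unfold ch
  exact continuous_subtype_val.comp (AddCircle.continuous_toCircle.comp (continuous_apply j))

theorem volume_univ_torus : (volume : Measure (σ → UnitAddCircle)) Set.univ = 1 := by
  rw [volume_pi, Measure.pi_univ]
  simp

theorem ru_eq_toCircle (M a : ℕ) :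
    ru M a = (AddCircle.toCircle (((a / M : ℝ)) : UnitAddCircle) : ℂ) := by
  rw [AddCircle.toCircle_apply_mk, Circle.coe_exp]
  unfold ru
  congr 1
  push_cast
  ring

variable [DecidableEq σ]

/-- Bounds on the slices give a bound in several variables. -/
theorem sum_le_lintegral {s : ℝ} {G : MvPowerSeries σ ℂ} {D : (σ → UnitAddCircle) → ℝ≥0∞}
    (hD : Measurable D)
    (hG : ∀ x : σ → UnitAddCircle, ∀ L : ℕ, ENNReal.ofReal
      (∑ n ∈ range L, ((n : ℝ) + 1) ^ s * ‖PowerSeries.coeff n (slice (ch x) G)‖ ^ 2) ≤ D x)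
    (T : Finset (σ →₀ ℕ)) :
    ENNReal.ofReal (∑ k ∈ T, (((∑ j, k j : ℕ) : ℝ) + 1) ^ s * ‖MvPowerSeries.coeff k G‖ ^ 2) ≤
      ∫⁻ x, D x := by
  classical
  obtain ⟨L, hL⟩ : ∃ L : ℕ, ∀ k ∈ T, ∑ j, k j < L := by
    refine ⟨(T.sup fun k => ∑ j, k j) + 1, fun k hk => Nat.lt_succ_of_le ?_⟩
    exact Finset.le_sup (f := fun k : σ →₀ ℕ => ∑ j, k j) hk
  rcases Nat.eq_zero_or_pos L with h0 | hLpos
  · have hT : T = ∅ := by
      refine Finset.eq_empty_of_forall_notMem fun k hk => ?_
      have := hL k hk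
      omega
    subst hT
    simp
  set S : ℝ := ∑ n ∈ range L, ∑ k ∈ degSet n, ((n : ℝ) + 1) ^ s * ‖MvPowerSeries.coeff k G‖ ^ 2
    with hS
  have h1 : ∑ k ∈ T, (((∑ j, k j : ℕ) : ℝ) + 1) ^ s * ‖MvPowerSeries.coeff k G‖ ^ 2 ≤ S := by
    have hdisj : ((range L : Finset ℕ) : Set ℕ).PairwiseDisjoint
        (fun n => (degSet n : Finset (σ →₀ ℕ))) := by
      intro a _ b _ hab
      rw [Function.onFun, Finset.disjoint_left]
      intro k hka hkb
      rw [mem_degSet] at hka hkb
      exact hab (hka.symm.trans hkb)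
    have hsub : T ⊆ (range L).biUnion (fun n => (degSet n : Finset (σ →₀ ℕ))) := by
      intro k hk
      rw [Finset.mem_biUnion]
      exact ⟨∑ j, k j, Finset.mem_range.mpr (hL k hk), mem_degSet.mpr rfl⟩
    have h2 : S = ∑ k ∈ (range L).biUnion (fun n => (degSet n : Finset (σ →₀ ℕ))),
          (((∑ j, k j : ℕ) : ℝ) + 1) ^ s * ‖MvPowerSeries.coeff k G‖ ^ 2 := by
      rw [hS, Finset.sum_biUnion hdisj]
      refine Finset.sum_congr rfl fun n _ => Finset.sum_congr rfl fun k hk => ?_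
      rw [mem_degSet.mp hk]
    rw [h2]
    exact Finset.sum_le_sum_of_subset_of_nonneg hsub fun k _ _ => by positivity
  refine (ENNReal.ofReal_le_ofReal h1).trans ?_
  have hpow : (0:ℝ) < (L : ℝ) ^ Fintype.card σ := by positivity
  -- the grid
  let g : (σ → Fin L) → (σ → UnitAddCircle) := fun a j => (((a j : ℕ) / L : ℝ) : UnitAddCircle)
  have hg : ∀ (a : σ → Fin L) (y : σ → UnitAddCircle) (j : σ),
      ch (y + g a) j = ru L (a j) * ch y j := by
    intro a y j
    rw [ch_add, mul_comm]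
    congr 1
    rw [ru_eq_toCircle]
    rfl
  have h3 : ∀ y : σ → UnitAddCircle, (L : ℝ) ^ Fintype.card σ * S =
      ∑ a : σ → Fin L, ∑ n ∈ range L, ((n : ℝ) + 1) ^ s *
        ‖PowerSeries.coeff n (slice (ch (y + g a)) G)‖ ^ 2 := by
    intro y
    rw [Finset.sum_comm, hS, Finset.mul_sum]
    refine Finset.sum_congr rfl fun n hn => ?_
    rw [← Finset.mul_sum, ← Finset.mul_sum]
    simp_rw [coeff_slice]
    have hsl : ∀ a : σ → Fin L, ∑ k ∈ degSet n, MvPowerSeries.coeff k G * ∏ j, ch (y + g a) j ^ k j =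
        ∑ k ∈ degSet n, (MvPowerSeries.coeff k G * ∏ j, ch y j ^ k j) * ∏ j, ru L (a j) ^ k j := by
      intro a
      refine Finset.sum_congr rfl fun k _ => ?_
      simp_rw [hg, mul_pow, Finset.prod_mul_distrib]
      ring
    simp_rw [hsl]
    rw [parseval hLpos (degSet n)]
    · have : ∀ k : σ →₀ ℕ, ‖MvPowerSeries.coeff k G * ∏ j, ch y j ^ k j‖ =
          ‖MvPowerSeries.coeff k G‖ := by
        intro k
        rw [norm_mul, norm_prod, Finset.prod_eq_one (fun j _ => by rw [norm_pow, norm_ch, one_pow]),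
          mul_one]
      simp_rw [this]
      ring
    · intro k hk j
      rw [mem_degSet] at hk
      have h5 : k j ≤ ∑ j, k j := Finset.single_le_sum (f := fun j => k j) (fun _ _ => Nat.zero_le _)
        (Finset.mem_univ j)
      have := Finset.mem_range.mp hn
      omega
  have h4 : ∀ y : σ → UnitAddCircle, ENNReal.ofReal ((L : ℝ) ^ Fintype.card σ * S) ≤
      ∑ a : σ → Fin L, D (y + g a) := by
    intro y
    rw [h3 y, ENNReal.ofReal_sum_of_nonneg fun a _ => Finset.sum_nonneg fun n _ => by positivity]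
    exact Finset.sum_le_sum fun a _ => hG (y + g a) L
  have h5 : ENNReal.ofReal ((L : ℝ) ^ Fintype.card σ * S) ≤
      ∫⁻ y, ∑ a : σ → Fin L, D (y + g a) := by
    calc ENNReal.ofReal ((L : ℝ) ^ Fintype.card σ * S) =
          ∫⁻ _ : σ → UnitAddCircle, ENNReal.ofReal ((L : ℝ) ^ Fintype.card σ * S) := by
          rw [lintegral_const, volume_univ_torus, mul_one]
      _ ≤ _ := lintegral_mono h4
  have h6 : ∫⁻ y, ∑ a : σ → Fin L, D (y + g a) =
      ENNReal.ofReal ((L : ℝ) ^ Fintype.card σ) * ∫⁻ y, D y := by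
    have hm : ∀ a ∈ (univ : Finset (σ → Fin L)), Measurable fun y => D (y + g a) :=
      fun a _ => hD.comp (measurable_add_const (g a))
    rw [lintegral_finsetSum _ hm]
    have h7 : ∀ a : σ → Fin L, ∫⁻ y, D (y + g a) = ∫⁻ y, D y := fun a =>
      lintegral_add_right_eq_self D (g a)
    simp_rw [h7]
    rw [Finset.sum_const, Finset.card_univ, Fintype.card_fun, Fintype.card_fin, nsmul_eq_mul]
    congr 1
    rw [ENNReal.ofReal_pow (by positivity), ENNReal.ofReal_natCast]
    push_cast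
    rfl
  rw [h6, ENNReal.ofReal_mul hpow.le] at h5
  refine (ENNReal.mul_le_mul_iff_right ?_ ENNReal.ofReal_ne_top).mp h5
  rw [ne_eq, ENNReal.ofReal_eq_zero, not_le]
  exact hpow

end Pool.Agent.J6H91.Tor
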