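import Pool.Agent.J6H91.Tor.Main

/-!
# Polynomials with a large zero set on the torus are self-reflective
-/

set_option autoImplicit false
set_option linter.unusedSectionVars false

open MvPolynomial Filter Topology MeasureTheory
open scoped Real ContDiff
open Pool.Agent.J6H91.Cyc

namespace Pool.Agent.J6H91.Tor

/-- The zero set of `F` on the torus has the maximal dimension: for the points of the torus with
angles in a nonempty open set `U`, one can change the `j`-th coordinate to get a zero of `F` on the
torus. -/
def WideZeros {σ : Type} [DecidableEq σ] (F : MvPolynomial σ ℂ) : Prop :=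
  ∃ (j : σ) (U : Set (σ → ℝ)), IsOpen U ∧ U.Nonempty ∧
    ∀ x ∈ U, ∃ s : ℝ, eval (zt (Function.update x j s)) F = 0

section option

variable {τ : Type} [Fintype τ] [DecidableEq τ]

theorem zt_inv_conj {σ : Type} [Fintype σ] (x : σ → ℝ) (j : σ) : ((starRingEnd ℂ) (zt x j))⁻¹ = zt x j := by
  rw [inv_eq_iff_eq_inv, Complex.inv_def, Complex.normSq_eq_norm_sq, norm_zt]
  simp

theorem dvd_refl_option {F : MvPolynomial (Option τ) ℂ} (hF : Irreducible F) {V : Set (τ → ℝ)}
    (hV : IsOpen V) (hne : V.Nonempty)
    (h : ∀ x ∈ V, ∃ w : ℂ, ‖w‖ = 1 ∧ ev (zt x) w F = 0) : F ∣ refl F := by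
  obtain ⟨x, hx⟩ := hne
  by_cases hn : none ∈ F.vars
  · by_contra hcon
    obtain ⟨A, B, r, hr, hAB⟩ := exists_elim' hF hn hcon
    obtain ⟨y, hy, hry⟩ := exists_torus_point hr hV hx
    obtain ⟨w, hw, h0⟩ := h y hy
    have hw0 : w ≠ 0 := by
      rw [← norm_ne_zero_iff, hw]
      exact one_ne_zero
    have hz : ∀ o : Option τ, (fun o : Option τ => Option.elim o w (zt y)) o ≠ 0 := by
      intro o
      cases o with
      | none => exact hw0
      | some i =>
        simp only [Option.elim_some]
        rw [← norm_ne_zero_iff, norm_zt]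
        exact one_ne_zero
    have h1 : ev (zt y) w (refl F) = 0 := by
      unfold ev
      rw [eval_refl F hz, mul_eq_zero]
      right
      rw [map_eq_zero]
      have h2 : (fun o : Option τ => ((starRingEnd ℂ) (Option.elim o w (zt y)))⁻¹) =
          fun o : Option τ => Option.elim o w (zt y) := by
        funext o
        cases o with
        | none =>
          simp only [Option.elim_none]
          rw [inv_eq_iff_eq_inv, Complex.inv_def, Complex.normSq_eq_norm_sq, hw]
          simp
        | some i =>
          simp only [Option.elim_some]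
          exact zt_inv_conj y i
      rw [h2]
      exact h0
    have h3 := hAB (zt y) w
    rw [h0, h1, zero_mul, zero_mul, add_zero] at h3
    exact hry h3.symm
  · exfalso
    set e := optionEquivLeft ℂ τ with he
    have hd : (e F).natDegree = 0 := by
      rw [he, natDegree_optionEquivLeft]
      by_contra hcon
      exact hn (mem_vars_iff_degreeOf_ne_zero.mpr hcon)
    obtain ⟨r, hr⟩ : ∃ r, e F = Polynomial.C r := ⟨_, Polynomial.eq_C_of_natDegree_eq_zero hd⟩
    have hr0 : r ≠ 0 := by
      rintro rfl
      rw [map_zero] at hr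
      exact hF.ne_zero ((map_eq_zero_iff e e.injective).mp hr)
    obtain ⟨y, hy, hry⟩ := exists_torus_point hr0 hV hx
    obtain ⟨w, _, h0⟩ := h y hy
    rw [ev_eq, ← he, hr, Polynomial.map_C, Polynomial.eval_C] at h0
    exact hry h0

end option

variable {σ : Type} [Fintype σ] [DecidableEq σ]

theorem WideZeros.dvd_refl {F : MvPolynomial σ ℂ} (hF : Irreducible F) (h : WideZeros F) :
    F ∣ refl F := by
  obtain ⟨j, U, hU, ⟨x₁, hx₁⟩, hz⟩ := h
  set e : Option {i // i ≠ j} ≃ σ := Equiv.optionSubtypeNe j with he
  have he0 : e none = j := by simp [he]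
  have he1 : ∀ i, e (some i) = i.1 := by
    intro i
    simp [he]
  set F' : MvPolynomial (Option {i // i ≠ j}) ℂ := rename e.symm F with hF'
  have hFF' : rename e F' = F := by
    rw [hF', rename_rename]
    simp
  have hirr : Irreducible F' := irreducible_of_rename e.injective (by rw [hFF']; exact hF)
  -- the open set
  set p : ({i // i ≠ j} → ℝ) → (σ → ℝ) := fun y i => if h : i ≠ j then y ⟨i, h⟩ else x₁ j with hp
  have hpc : Continuous p := by
    refine continuous_pi fun i => ?_
    by_cases hi : i ≠ j
    · simp only [hp, dif_pos hi]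
      exact continuous_apply _
    · simp only [hp, dif_neg hi]
      exact continuous_const
  have h1 : F' ∣ refl F' := by
    refine dvd_refl_option hirr (V := p ⁻¹' U) (hU.preimage hpc) ⟨fun i => x₁ i.1, ?_⟩ ?_
    · have h2 : p (fun i => x₁ i.1) = x₁ := by
        funext i
        by_cases hi : i ≠ j
        · simp only [hp, dif_pos hi]
        · simp only [hp, dif_neg hi]
          rw [not_not.mp hi]
      change p (fun i => x₁ i.1) ∈ U
      rw [h2]
      exact hx₁
    · intro y hy
      obtain ⟨s, hs⟩ := hz (p y) hy
      refine ⟨zt (Function.update (p y) j s) j, norm_zt _ _, ?_⟩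
      unfold ev
      rw [← hFF', eval_rename] at hs
      rw [← hs]
      congr 2
      funext o
      cases o with
      | none => simp [he0]
      | some i =>
        simp only [Option.elim_some, Function.comp_apply, he1]
        unfold zt
        rw [Function.update_of_ne i.2]
        simp only [hp, dif_pos i.2]
  have h2 := map_dvd (rename e) h1
  rw [← refl_rename e.injective, hFF'] at h2
  exact h2

theorem main_toral {P : MvPolynomial σ ℂ} {t : ℝ}
    (hP : ∀ F : MvPolynomial σ ℂ, Irreducible F → F ∣ P →
      WideZeros F ∨ F ∣ refl F ∨ t * F.vars.card ≤ 1) :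
    ShiftCyclic t P ↔ ZeroFree P ∧
      ∀ F : MvPolynomial σ ℂ, Irreducible F → F ∣ P → t * F.vars.card ≤ 1 := by
  refine main_refl fun F hF hFP => ?_
  rcases hP F hF hFP with h | h
  · exact Or.inl (h.dvd_refl hF)
  · exact h

theorem necessary_toral {P : MvPolynomial σ ℂ} {t : ℝ} (h : ShiftCyclic t P) : ZeroFree P ∧
    ∀ F : MvPolynomial σ ℂ, Irreducible F → F ∣ P → (WideZeros F ∨ F ∣ refl F) →
      t * F.vars.card ≤ 1 := by
  rw [shiftCyclic_iff] at h
  have hz : ZeroFree P := by
    intro z hz h0
    exact not_approxOne_of_zero hz h0 h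
  refine ⟨hz, fun F hF hFP hT => ?_⟩
  have h1 : F ∣ refl F := by
    rcases hT with hT | hT
    · exact hT.dvd_refl hF
    · exact hT
  by_contra hcon
  push Not at hcon
  exact not_approxOne_of_refl hF (hz.of_dvd hFP) h1 hcon (h.of_dvd hFP)

end Pool.Agent.J6H91.Tor
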